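import Pool.Agent.LibDQ20.Defs

/-!
[DQ20 A1] (SMALL, only Mathlib) The distance `N Λ z` to the range of `Λ` (a submodule, closed because it is finite-dimensional: `Submodule.closed_of_finiteDimensional`). `N (z + Λ x) = N z` (translate by range elements), `N (t • z) ≤ N z` for `|t| ≤ 1`: `‖t • z - t • Λ x‖ ≤ ‖z - Λ x‖`. `N_smul_ge`: apply it to `t⁻¹`. `infDist` lemmas: `Metric.infDist_le_dist_of_mem`, `Metric.infDist_lt_iff`, `IsClosed.mem_iff_infDist_zero`.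
-/

namespace Pool.Agent.LibDQ20

variable {E : Type*} [NormedAddCommGroup E] [Module ℝ E] {d : ℕ} (Λ : (Fin d → ℝ) →ₗ[ℝ] E)

theorem N_cont : Continuous (N Λ) := Metric.continuous_infDist_pt _

theorem N_nonneg (z : E) : 0 ≤ N Λ z := Metric.infDist_nonneg

private theorem A1_ne : (Set.range Λ).Nonempty := ⟨Λ 0, 0, rfl⟩

private theorem A1_lt {z : E} {r : ℝ} (h : N Λ z < r) : ∃ x, ‖z - Λ x‖ < r := by
  obtain ⟨y, ⟨x, hx⟩, hy⟩ := (Metric.infDist_lt_iff (A1_ne Λ)).1 h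
  refine ⟨x, ?_⟩
  rw [hx, ← dist_eq_norm]
  exact hy

private theorem A1_le (z : E) (x : Fin d → ℝ) : N Λ z ≤ ‖z - Λ x‖ := by
  rw [← dist_eq_norm]
  exact Metric.infDist_le_dist_of_mem ⟨x, rfl⟩

private theorem A1_add_le1 (z : E) (x : Fin d → ℝ) : N Λ (z + Λ x) ≤ N Λ z := by
  refine le_of_forall_gt fun r hr => ?_
  obtain ⟨y, hy⟩ := A1_lt Λ hr
  refine lt_of_le_of_lt (A1_le Λ (z + Λ x) (y + x)) ?_
  have h : z + Λ x - Λ (y + x) = z - Λ y := by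
    rw [map_add]; abel
  rw [h]
  exact hy

theorem N_add (z : E) (x : Fin d → ℝ) : N Λ (z + Λ x) = N Λ z := by
  refine le_antisymm (A1_add_le1 Λ z x) ?_
  have h := A1_add_le1 Λ (z + Λ x) (-x)
  have h2 : z + Λ x + Λ (-x) = z := by
    rw [map_neg]; abel
  rw [h2] at h
  exact h

theorem N_add_le (z z' : E) : N Λ (z + z') ≤ N Λ z + N Λ z' := by
  refine le_of_forall_pos_le_add fun e he => ?_
  obtain ⟨x, hx⟩ := A1_lt Λ (show N Λ z < N Λ z + e / 2 by linarith)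
  obtain ⟨x', hx'⟩ := A1_lt Λ (show N Λ z' < N Λ z' + e / 2 by linarith)
  have h1 := A1_le Λ (z + z') (x + x')
  have h2 : z + z' - Λ (x + x') = (z - Λ x) + (z' - Λ x') := by
    rw [map_add]; abel
  rw [h2] at h1
  have h3 := norm_add_le (z - Λ x) (z' - Λ x')
  linarith

theorem N_le (z : E) (x : Fin d → ℝ) : N Λ z ≤ ‖z - Λ x‖ := A1_le Λ z x

theorem N_le_norm (z : E) : N Λ z ≤ ‖z‖ := by
  have h := A1_le Λ z 0
  rw [map_zero, sub_zero] at h
  exact h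

theorem N_lt {z : E} {r : ℝ} (h : N Λ z < r) : ∃ x, ‖z - Λ x‖ < r := A1_lt Λ h

theorem N_smul_le (hF : ∀ (t : ℝ) (x : E), |t| ≤ 1 → ‖t • x‖ ≤ ‖x‖) {t : ℝ} (ht : |t| ≤ 1) (z : E) : N Λ (t • z) ≤ N Λ z := by
  refine le_of_forall_gt fun r hr => ?_
  obtain ⟨x, hx⟩ := A1_lt Λ hr
  refine lt_of_le_of_lt (A1_le Λ (t • z) (t • x)) ?_
  rw [map_smul, ← smul_sub]
  exact lt_of_le_of_lt (hF t _ ht) hx

theorem N_smul_ge (hF : ∀ (t : ℝ) (x : E), |t| ≤ 1 → ‖t • x‖ ≤ ‖x‖) {t : ℝ} (ht : 1 ≤ t) (z : E) : N Λ z ≤ N Λ (t • z) := by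
  have ht0 : t ≠ 0 := by linarith
  have h1 : |t⁻¹| ≤ 1 := by
    rw [abs_of_nonneg (by positivity)]
    exact inv_le_one_of_one_le₀ ht
  have h := N_smul_le Λ hF h1 (t • z)
  rw [smul_smul, inv_mul_cancel₀ ht0, one_smul] at h
  exact h

private theorem A1_closed [ContinuousSMul ℝ E] : IsClosed (Set.range Λ) := by
  have h : IsClosed ((LinearMap.range Λ : Submodule ℝ E) : Set E) := Submodule.closed_of_finiteDimensional _
  rw [LinearMap.coe_range] at h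
  exact h

theorem N_zero [ContinuousSMul ℝ E] {z : E} (h : N Λ z = 0) : ∃ x, z = Λ x := by
  obtain ⟨x, hx⟩ := ((A1_closed Λ).mem_iff_infDist_zero (A1_ne Λ)).2 h
  exact ⟨x, hx.symm⟩

theorem range_closed [ContinuousSMul ℝ E] : IsClosed (Set.range Λ) := A1_closed Λ

end Pool.Agent.LibDQ20
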