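import Pool.Agent.LibDQ20.Defs

/-!
[DQ20 A2] (SMALL, only Mathlib) CARATHEODORY in a fibre `z + range Λ`. The set is the image of `{x | z + Λ x ∈ S}` under the affine map `x ↦ z + Λ x` (`AffineMap.image_convexHull`, or write `a = z + Λ x₀` with `x₀` in the convex hull of that set). `eq_pos_convex_span_of_mem_convexHull` gives at most `d + 1` points of `ℝ^d` (`AffineIndependent.card_le_finrank_succ`); pad with weight `0` and a repeated point to `Fin (d + 1)` (an injection of the index type into `Fin (d + 1)`, `Function.extend` or sum over the image).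
-/

namespace Pool.Agent.LibDQ20

private theorem A2_coord {d : ℕ} {S : Set (Fin d → ℝ)} {a : Fin d → ℝ} (h : a ∈ convexHull ℝ S) :
    ∃ (w : Fin (d + 1) → ℝ) (y : Fin (d + 1) → (Fin d → ℝ)), (∀ i, 0 ≤ w i) ∧ ∑ i, w i = 1 ∧ (∀ i, y i ∈ S) ∧
      a = ∑ i, w i • y i := by
  classical
  obtain ⟨ι, hι, z, w, hz, hai, hw, hw1, hwz⟩ := eq_pos_convex_span_of_mem_convexHull h
  have hcard : Fintype.card ι ≤ Fintype.card (Fin (d + 1)) := by
    have h1 := hai.card_le_finrank_succ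
    have h2 : Module.finrank ℝ (vectorSpan ℝ (Set.range z)) ≤ Module.finrank ℝ (Fin d → ℝ) :=
      Submodule.finrank_le _
    rw [Module.finrank_fin_fun] at h2
    rw [Fintype.card_fin]
    omega
  obtain ⟨emb⟩ := Function.Embedding.nonempty_of_card_le hcard
  have hne : Nonempty ι := by
    by_contra hcon
    rw [not_nonempty_iff] at hcon
    rw [Finset.univ_eq_empty, Finset.sum_empty] at hw1
    exact zero_ne_one hw1
  obtain ⟨i0⟩ := hne
  let w' : Fin (d + 1) → ℝ := Function.extend emb w (fun _ => 0)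
  let y' : Fin (d + 1) → (Fin d → ℝ) := Function.extend emb z (fun _ => z i0)
  have hw'e : ∀ i, w' (emb i) = w i := fun i => emb.injective.extend_apply w _ i
  have hy'e : ∀ i, y' (emb i) = z i := fun i => emb.injective.extend_apply z _ i
  have hw'n : ∀ j, (¬ ∃ i, emb i = j) → w' j = 0 := fun j hj =>
    Function.extend_apply' w _ j hj
  have hy'n : ∀ j, (¬ ∃ i, emb i = j) → y' j = z i0 := fun j hj =>
    Function.extend_apply' z _ j hj
  have hsum : ∀ {V : Type} [AddCommMonoid V] (g : Fin (d + 1) → V), (∀ j, (¬ ∃ i, emb i = j) → g j = 0) →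
      ∑ j, g j = ∑ i, g (emb i) := by
    intro V _ g hg
    rw [← Finset.sum_map Finset.univ emb g]
    refine (Finset.sum_subset (Finset.subset_univ _) ?_).symm
    intro j _ hj
    refine hg j ?_
    rintro ⟨i, hi⟩
    exact hj (Finset.mem_map.2 ⟨i, Finset.mem_univ _, hi⟩)
  refine ⟨w', y', ?_, ?_, ?_, ?_⟩
  · intro j
    by_cases hj : ∃ i, emb i = j
    · obtain ⟨i, rfl⟩ := hj
      rw [hw'e]
      exact (hw i).le
    · rw [hw'n j hj]
  · rw [hsum w' hw'n, ← hw1]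
    exact Finset.sum_congr rfl (fun i _ => hw'e i)
  · intro j
    by_cases hj : ∃ i, emb i = j
    · obtain ⟨i, rfl⟩ := hj
      rw [hy'e]
      exact hz ⟨i, rfl⟩
    · rw [hy'n j hj]
      exact hz ⟨i0, rfl⟩
  · rw [hsum (fun j => w' j • y' j) (fun j hj => by
      show w' j • y' j = 0
      rw [hw'n j hj, zero_smul]), ← hwz]
    refine Finset.sum_congr rfl (fun i _ => ?_)
    show w i • z i = w' (emb i) • y' (emb i)
    rw [hw'e, hy'e]

theorem carath_fibre {E : Type*} [AddCommGroup E] [Module ℝ E] {d : ℕ} (Λ : (Fin d → ℝ) →ₗ[ℝ] E) {S : Set E} {z a : E}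
    (h : a ∈ convexHull ℝ {y | y ∈ S ∧ ∃ x, y = z + Λ x}) :
    ∃ (w : Fin (d + 1) → ℝ) (y : Fin (d + 1) → E), (∀ i, 0 ≤ w i) ∧ ∑ i, w i = 1 ∧ (∀ i, y i ∈ S ∧ ∃ x, y i = z + Λ x) ∧
      a = ∑ i, w i • y i := by
  classical
  let T : Set (Fin d → ℝ) := {x | z + Λ x ∈ S}
  let A : (Fin d → ℝ) →ᵃ[ℝ] E := AffineMap.const ℝ (Fin d → ℝ) z + Λ.toAffineMap
  have hA : ∀ x, A x = z + Λ x := fun x => rfl
  have himg : {y | y ∈ S ∧ ∃ x, y = z + Λ x} = A '' T := by
    ext y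
    constructor
    · rintro ⟨hy, x, rfl⟩
      exact ⟨x, hy, rfl⟩
    · rintro ⟨x, hx, rfl⟩
      exact ⟨hx, x, rfl⟩
  rw [himg, ← AffineMap.image_convexHull] at h
  obtain ⟨x0, hx0, rfl⟩ := h
  obtain ⟨w, y, hw, hw1, hy, hxy⟩ := A2_coord hx0
  refine ⟨w, fun i => z + Λ (y i), hw, hw1, fun i => ⟨hy i, y i, rfl⟩, ?_⟩
  rw [hA, hxy, map_sum]
  simp only [smul_add, Finset.sum_add_distrib, map_smul]
  rw [← Finset.sum_smul, hw1, one_smul]

theorem carath_coord {d : ℕ} {S : Set (Fin d → ℝ)} {a : Fin d → ℝ} (h : a ∈ convexHull ℝ S) :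
    ∃ (w : Fin (d + 1) → ℝ) (y : Fin (d + 1) → (Fin d → ℝ)), (∀ i, 0 ≤ w i) ∧ ∑ i, w i = 1 ∧ (∀ i, y i ∈ S) ∧
      a = ∑ i, w i • y i :=
  A2_coord h

end Pool.Agent.LibDQ20
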