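import Pool.Agent.LibDQ20.A1
import Pool.Agent.LibGC20.Q1

/-!
[DQ20 A3] (SMALL) Comparison of `‖v‖` and `‖Λ v‖`. `ctrl_inv`: `LibGC20.stab` with `L' = L`. `ctrl`: continuity of `Λ` at `0`. `bdd_dir`: otherwise there are `x_k` with `‖x_k‖ → ∞` and `y_k ∈ D`, `‖Λ x_k - y_k‖ → 0`; a subsequence of `y_k` converges to `y ∈ D`, so `Λ x_k → y`, `y = Λ x` (closed range), `Λ (x_k - x) → 0`, and `ctrl_inv` gives `x_k → x`, a contradiction.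
-/

namespace Pool.Agent.LibDQ20

variable {E : Type*} [NormedAddCommGroup E] [Module ℝ E] [ContinuousSMul ℝ E] {d : ℕ} {Λ : (Fin d → ℝ) →ₗ[ℝ] E}

theorem ctrl_inv (hF : ∀ (t : ℝ) (x : E), |t| ≤ 1 → ‖t • x‖ ≤ ‖x‖) (hΛ : Function.Injective Λ) {c : ℝ} (hc : 0 < c) :
    ∃ μ : ℝ, 0 < μ ∧ ∀ v, ‖Λ v‖ ≤ μ → ‖v‖ ≤ c := by
  obtain ⟨μ, hμ, ν, hν, h⟩ := LibGC20.stab hF hΛ hc
  exact ⟨μ, hμ, fun v hv => h Λ (fun i => by rw [sub_self, norm_zero]; exact hν.le) v hv⟩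

theorem ctrl (Λ : (Fin d → ℝ) →ₗ[ℝ] E) {ε : ℝ} (hε : 0 < ε) : ∃ c : ℝ, 0 < c ∧ ∀ v, ‖v‖ ≤ c → ‖Λ v‖ ≤ ε := by
  have hcont : Continuous Λ := LinearMap.continuous_of_finiteDimensional Λ
  obtain ⟨c, hc, h⟩ := Metric.continuousAt_iff.mp (hcont.continuousAt (x := (0 : Fin d → ℝ))) ε hε
  refine ⟨c / 2, by positivity, fun v hv => ?_⟩
  have h1 : dist v 0 < c := by
    rw [dist_zero_right]
    linarith
  have h2 := h h1
  rw [map_zero, dist_zero_right] at h2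
  exact h2.le

theorem bdd_dir (hF : ∀ (t : ℝ) (x : E), |t| ≤ 1 → ‖t • x‖ ≤ ‖x‖) (hΛ : Function.Injective Λ) {D : Set E} (hD : IsCompact D)
    (hne : D.Nonempty) : ∃ η : ℝ, 0 < η ∧ ∃ B : ℝ, ∀ x, Metric.infDist (Λ x) D ≤ η → ‖x‖ ≤ B := by
  obtain ⟨μ, hμ, h⟩ := ctrl_inv (Λ := Λ) hF hΛ (c := 1) one_pos
  have hcov : D ⊆ ⋃ y ∈ D, Metric.ball y (μ / 4) := fun y hy =>
    Set.mem_biUnion hy (Metric.mem_ball_self (by positivity))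
  obtain ⟨t, htD, htf, hcov'⟩ := hD.elim_finite_subcover_image (b := D) (c := fun y => Metric.ball y (μ / 4))
    (fun y _ => Metric.isOpen_ball) hcov
  have hb : Bornology.IsBounded (⋃ y ∈ t, {x : Fin d → ℝ | ‖Λ x - y‖ ≤ μ / 2}) := by
    rw [Bornology.isBounded_biUnion htf]
    intro y hy
    rw [Metric.isBounded_iff]
    refine ⟨1, fun x hx x' hx' => ?_⟩
    rw [dist_eq_norm]
    apply h
    rw [map_sub]
    have hx1 : ‖Λ x - y‖ ≤ μ / 2 := hx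
    have hx2 : ‖Λ x' - y‖ ≤ μ / 2 := hx'
    calc ‖Λ x - Λ x'‖ = ‖(Λ x - y) - (Λ x' - y)‖ := by congr 1; abel
      _ ≤ ‖Λ x - y‖ + ‖Λ x' - y‖ := norm_sub_le _ _
      _ ≤ μ := by linarith
  obtain ⟨B, hB⟩ := isBounded_iff_forall_norm_le.mp hb
  refine ⟨μ / 4, by positivity, B, fun x hx => ?_⟩
  obtain ⟨y, hy, hyd⟩ := hD.exists_infDist_eq_dist hne (Λ x)
  obtain ⟨y', hy', hyy'⟩ := Set.mem_iUnion₂.mp (hcov' hy)
  refine hB x (Set.mem_iUnion₂.2 ⟨y', hy', ?_⟩)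
  have h1 : ‖Λ x - y'‖ ≤ dist (Λ x) y + dist y y' := by
    rw [← dist_eq_norm]
    exact dist_triangle _ _ _
  have h2 : dist y y' < μ / 4 := hyy'
  have h3 : dist (Λ x) y ≤ μ / 4 := by
    rw [← hyd]
    exact hx
  show ‖Λ x - y'‖ ≤ μ / 2
  linarith

/-- the inverse of `Λ` is continuous: a map whose composition with `Λ` is continuous on `K` -/
theorem cont_of_comp {S : Type*} [TopologicalSpace S] (hF : ∀ (t : ℝ) (x : E), |t| ≤ 1 → ‖t • x‖ ≤ ‖x‖)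
    (hΛ : Function.Injective Λ) {K : Set S} {r : S → (Fin d → ℝ)} (h : ContinuousOn (fun z => Λ (r z)) K) : ContinuousOn r K := by
  intro z₀ hz₀
  rw [ContinuousWithinAt, Metric.tendsto_nhds]
  intro ε hε
  obtain ⟨μ, hμ, hc⟩ := ctrl_inv (Λ := Λ) hF hΛ (c := ε / 2) (by positivity)
  have h1 : Filter.Tendsto (fun z => Λ (r z)) (nhdsWithin z₀ K) (nhds (Λ (r z₀))) := h z₀ hz₀
  rw [Metric.tendsto_nhds] at h1
  filter_upwards [h1 μ hμ] with z hz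
  rw [dist_eq_norm] at hz ⊢
  have h2 : ‖r z - r z₀‖ ≤ ε / 2 := by
    apply hc
    rw [map_sub]
    exact hz.le
  linarith

end Pool.Agent.LibDQ20
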