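import Pool.Agent.LibDQ20.A1
import Pool.Agent.LibGC20.A3

namespace Pool.Agent.LibDQ20

private noncomputable def A4_h {E : Type*} [NormedAddCommGroup E] [Module ℝ E] {d : ℕ} (Λ : (Fin d → ℝ) →ₗ[ℝ] E) (ρ : ℝ) (t : ℝ)
    (z : E) : ℝ := max 0 (min (N Λ (t • z)) ρ - ρ / 2) / t

theorem exists_gamma {E : Type*} [NormedAddCommGroup E] [Module ℝ E] [ContinuousSMul ℝ E]
    (hF : ∀ (t : ℝ) (x : E), |t| ≤ 1 → ‖t • x‖ ≤ ‖x‖) {d : ℕ} (Λ : (Fin d → ℝ) →ₗ[ℝ] E) {ρ : ℝ} (hρ : 0 < ρ) :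
    ∃ Γ : E → ℝ, Continuous Γ ∧ (∀ (s : ℝ) z, 0 ≤ s → Γ (s • z) = s * Γ z) ∧ (∀ z x, Γ (z + Λ x) = Γ z) ∧
      (∀ z, 0 ≤ Γ z) ∧ ∀ z, ρ ≤ N Λ z → 0 < Γ z := by
  have hnn : ∀ (t : ℝ) (z : E), 0 < t → 0 ≤ A4_h Λ ρ t z := fun t z ht => div_nonneg (le_max_left _ _) ht.le
  have hle : ∀ (t : ℝ) (z : E), 0 < t → A4_h Λ ρ t z ≤ ρ / 2 / t := by
    intro t z ht
    refine div_le_div_of_nonneg_right (max_le (by linarith) ?_) ht.le
    have := min_le_right (N Λ (t • z)) ρ
    linarith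
  have hzero : ∀ (t : ℝ) (z : E), ‖t • z‖ < ρ / 2 → A4_h Λ ρ t z = 0 := by
    intro t z h
    have h1 : N Λ (t • z) < ρ / 2 := (N_le_norm Λ _).trans_lt h
    have h2 : min (N Λ (t • z)) ρ - ρ / 2 ≤ 0 := by
      have := min_le_left (N Λ (t • z)) ρ
      linarith
    rw [A4_h, max_eq_left h2, zero_div]
  have hnear : ∀ z₀ : E, ∃ r₀ > 0, ∃ t₀ > 0, ∀ z, ‖z - z₀‖ < r₀ → ∀ t : ℝ, 0 < t → t < t₀ → A4_h Λ ρ t z = 0 := by
    intro z₀
    have hc : Continuous fun p : ℝ × E => ‖p.1 • p.2‖ := (continuous_fst.smul continuous_snd).norm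
    have h1 : Filter.Tendsto (fun p : ℝ × E => ‖p.1 • p.2‖) (nhds (0, z₀)) (nhds 0) := by
      have := hc.tendsto (0, z₀)
      simpa using this
    have h2 : ∀ᶠ p in nhds ((0 : ℝ), z₀), ‖p.1 • p.2‖ < ρ / 2 := h1.eventually (gt_mem_nhds (by linarith))
    obtain ⟨r, hr, h3⟩ := Metric.eventually_nhds_iff.1 h2
    refine ⟨r, hr, r, hr, fun z hz t ht htr => hzero t z (h3 (y := (t, z)) ?_)⟩
    rw [Prod.dist_eq, max_lt_iff]
    refine ⟨?_, ?_⟩
    · show dist t 0 < r
      rw [Real.dist_eq, sub_zero, abs_of_pos ht]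
      exact htr
    · show dist z z₀ < r
      rw [dist_eq_norm]
      exact hz
  have hbdd : ∀ z : E, ∃ B : ℝ, ∀ t : ℝ, 0 < t → A4_h Λ ρ t z ≤ B := by
    intro z
    obtain ⟨r₀, hr₀, t₀, ht₀, h⟩ := hnear z
    refine ⟨ρ / 2 / t₀, fun t ht => ?_⟩
    rcases lt_or_ge t t₀ with h1 | h1
    · rw [h z (by simpa using hr₀) t ht h1]
      positivity
    · exact (hle t z ht).trans (div_le_div_of_nonneg_left (by positivity) ht₀ h1)
  have hBdd : ∀ z : E, BddAbove (Set.range fun t : {t : ℝ // 0 < t} => A4_h Λ ρ t z) := by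
    intro z
    obtain ⟨B, hB⟩ := hbdd z
    refine ⟨B, ?_⟩
    rintro _ ⟨t, rfl⟩
    exact hB t t.2
  haveI : Nonempty {t : ℝ // 0 < t} := ⟨⟨1, one_pos⟩⟩
  set Γ : E → ℝ := fun z => ⨆ t : {t : ℝ // 0 < t}, A4_h Λ ρ t z with hΓ
  have hge : ∀ (z : E) (t : ℝ), 0 < t → A4_h Λ ρ t z ≤ Γ z := fun z t ht => le_ciSup (hBdd z) ⟨t, ht⟩
  have hsup : ∀ (z : E) (B : ℝ), (∀ t : ℝ, 0 < t → A4_h Λ ρ t z ≤ B) → Γ z ≤ B := fun z B h => ciSup_le fun t => h t t.2
  have hΓ0 : ∀ z, 0 ≤ Γ z := fun z => (hnn 1 z one_pos).trans (hge z 1 one_pos)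
  have hlip : ∀ a b : ℝ, max 0 (min a ρ - ρ / 2) ≤ max 0 (min b ρ - ρ / 2) + |a - b| := by
    intro a b
    have h0 := abs_nonneg (a - b)
    have h1 := le_abs_self (a - b)
    refine max_le (by have := le_max_left (0 : ℝ) (min b ρ - ρ / 2); linarith) ?_
    have h2 : min a ρ ≤ min b ρ + |a - b| := by
      rcases le_total b ρ with h | h
      · rw [min_eq_left h]
        exact (min_le_left _ _).trans (by linarith)
      · rw [min_eq_right h]
        exact (min_le_right _ _).trans (by linarith)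
    have := le_max_right (0 : ℝ) (min b ρ - ρ / 2)
    linarith
  have hNlip : ∀ a b : E, |N Λ a - N Λ b| ≤ ‖a - b‖ := by
    intro a b
    rw [abs_le]
    have h1 : N Λ a ≤ N Λ (a - b) + N Λ b := by
      have := N_add_le Λ (a - b) b
      rwa [sub_add_cancel] at this
    have h2 : N Λ b ≤ N Λ (b - a) + N Λ a := by
      have := N_add_le Λ (b - a) a
      rwa [sub_add_cancel] at this
    have h3 := N_le_norm Λ (a - b)
    have h4 := N_le_norm Λ (b - a)
    rw [norm_sub_rev] at h4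
    constructor <;> linarith
  refine ⟨Γ, ?_, ?_, ?_, hΓ0, ?_⟩
  · rw [continuous_iff_continuousAt]
    intro z₀
    rw [Metric.continuousAt_iff]
    intro ε hε
    obtain ⟨r₀, hr₀, t₀, ht₀, hz⟩ := hnear z₀
    obtain ⟨n, hn⟩ := exists_nat_gt (ρ / (ε / 2))
    have hn0 : (0 : ℝ) < n := lt_of_le_of_lt (by positivity) hn
    have hn1 : ρ / n < ε / 2 := by
      rw [div_lt_iff₀ (by positivity)] at hn
      rw [div_lt_iff₀ hn0]
      linarith
    refine ⟨min r₀ (ε / 2 * t₀ / n), lt_min hr₀ (by positivity), fun z hzz => ?_⟩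
    rw [dist_eq_norm, lt_min_iff] at hzz
    obtain ⟨hz1, hz2⟩ := hzz
    rw [lt_div_iff₀ hn0] at hz2
    have key : ∀ t : ℝ, 0 < t → |A4_h Λ ρ t z - A4_h Λ ρ t z₀| ≤ ε / 2 := by
      intro t ht
      rcases lt_or_ge t t₀ with h1 | h1
      · rw [hz z hz1 t ht h1, hz z₀ (by simpa using hr₀) t ht h1, sub_zero, abs_zero]
        positivity
      · rcases le_total t n with h2 | h2
        · have h3 : |max 0 (min (N Λ (t • z)) ρ - ρ / 2) - max 0 (min (N Λ (t • z₀)) ρ - ρ / 2)| ≤ ε / 2 * t₀ := by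
            have h4 := hlip (N Λ (t • z)) (N Λ (t • z₀))
            have h5 := hlip (N Λ (t • z₀)) (N Λ (t • z))
            rw [abs_sub_comm] at h5
            have h6 := hNlip (t • z) (t • z₀)
            rw [← smul_sub] at h6
            have h7 := LibGC20.norm_smul_le_nat hF n (t := t) (by rw [abs_of_pos ht]; exact h2) (z - z₀)
            rw [abs_le]
            constructor <;> nlinarith
          rw [A4_h, A4_h, ← sub_div, abs_div, abs_of_pos ht, div_le_iff₀ ht]
          have : ε / 2 * t₀ ≤ ε / 2 * t := mul_le_mul_of_nonneg_left h1 (by positivity)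
          linarith
        · have h3 : ∀ z : E, A4_h Λ ρ t z ≤ ρ / n := by
            intro z
            refine (hle t z ht).trans ?_
            refine (div_le_div_of_nonneg_left (by positivity) hn0 h2).trans ?_
            exact div_le_div_of_nonneg_right (by linarith) hn0.le
          have h4 := h3 z
          have h5 := h3 z₀
          have h6 := hnn t z ht
          have h7 := hnn t z₀ ht
          rw [abs_le]
          constructor <;> linarith
    have h1 : Γ z ≤ Γ z₀ + ε / 2 := hsup z _ fun t ht => by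
      have := (abs_le.1 (key t ht)).2
      have h2 := hge z₀ t ht
      linarith
    have h2 : Γ z₀ ≤ Γ z + ε / 2 := hsup z₀ _ fun t ht => by
      have := (abs_le.1 (key t ht)).1
      have h2 := hge z t ht
      linarith
    rw [Real.dist_eq, abs_lt]
    constructor <;> linarith
  · intro s z hs
    rcases hs.eq_or_lt with h0 | h0
    · rw [← h0, zero_smul, zero_mul]
      refine le_antisymm (hsup _ _ fun t ht => ?_) (hΓ0 _)
      rw [hzero t 0 (by rw [smul_zero, norm_zero]; linarith)]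
    · have hst : ∀ (t : ℝ), 0 < t → A4_h Λ ρ t (s • z) = s * A4_h Λ ρ (t * s) z := by
        intro t ht
        rw [A4_h, A4_h, smul_smul, mul_div_assoc', mul_comm t s, mul_div_mul_left _ _ h0.ne']
      refine le_antisymm (hsup _ _ fun t ht => ?_) ?_
      · rw [hst t ht]
        exact mul_le_mul_of_nonneg_left (hge z (t * s) (by positivity)) hs
      · rw [mul_comm, ← le_div_iff₀ h0]
        refine hsup _ _ fun t ht => ?_
        rw [le_div_iff₀ h0]
        have h1 := hst (t / s) (by positivity)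
        rw [div_mul_cancel₀ _ h0.ne'] at h1
        have h2 := hge (s • z) (t / s) (by positivity)
        rw [h1] at h2
        linarith
  · intro z x
    have h1 : ∀ (t : ℝ), A4_h Λ ρ t (z + Λ x) = A4_h Λ ρ t z := by
      intro t
      rw [A4_h, A4_h, smul_add, ← map_smul, N_add]
    simp only [hΓ, h1]
  · intro z hz
    refine lt_of_lt_of_le ?_ (hge z 1 one_pos)
    rw [A4_h, one_smul, min_eq_right hz, div_one, max_eq_right (by linarith)]
    linarith

end Pool.Agent.LibDQ20
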