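import Pool.Agent.LibDQ20.A3

/-!
[DQ20 A5] (LARGE) EQUIVARIANT PROJECTION near the range of `Λ`. Let `ctrl_inv` give `μ` with `‖Λ v‖ ≤ μ → ‖v‖ ≤ c / 2`, `η = μ / 2`, `f u x = max 0 (η - ‖u - Λ x‖)`, `I u = ∫ x, f u x`, `J u = ∫ x, f u x • x` (Lebesgue measure on `Fin d → ℝ`). If `N Λ u < η` there is `x₀` with `f u x₀ > 0`, and the support of `f u ·` is in the closed ball of radius `c / 2` about every point of the support
(`‖Λ (x - x')‖ < 2 * η`): integrable, `I u > 0`. `P₀ u = (I u)⁻¹ • J u` is within `c / 2` of every `x` with `‖u - Λ x‖ < η` (average of points in a closed ball). EQUIVARIANT: `f (u + Λ v) x = f u (x - v)` and translation invariance of the integral (`MeasureTheory.integral_sub_right_eq_self`). CONTINUITY at `u₀`, `N Λ u₀ < η`: for `u` near `u₀` the supports are in a fixed closed ball, `continuous_parametric_integral_of_continuous` (compact set)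 or dominated convergence. `P = P₀ - P₀ 0`.
-/

namespace Pool.Agent.LibDQ20

open MeasureTheory

private noncomputable def A5_f {E : Type*} [NormedAddCommGroup E] [Module ℝ E] {d : ℕ} (Λ : (Fin d → ℝ) →ₗ[ℝ] E) (η : ℝ) (u : E)
    (x : Fin d → ℝ) : ℝ := max 0 (η - ‖u - Λ x‖)

private theorem A5_cont {E : Type*} [NormedAddCommGroup E] [Module ℝ E] [ContinuousSMul ℝ E] {d : ℕ}
    (Λ : (Fin d → ℝ) →ₗ[ℝ] E) (η : ℝ) : Continuous (Function.uncurry (A5_f Λ η)) := by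
  have hL : Continuous Λ := Λ.continuous_of_finiteDimensional
  unfold A5_f
  have h : Continuous (fun p : E × (Fin d → ℝ) => max (0 : ℝ) (η - ‖p.1 - Λ p.2‖)) :=
    continuous_const.max (continuous_const.sub ((continuous_fst.sub (hL.comp continuous_snd)).norm))
  exact h

private theorem A5_nn {E : Type*} [NormedAddCommGroup E] [Module ℝ E] {d : ℕ} (Λ : (Fin d → ℝ) →ₗ[ℝ] E) (η : ℝ) (u : E)
    (x : Fin d → ℝ) : 0 ≤ A5_f Λ η u x := le_max_left _ _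

private theorem A5_ne {E : Type*} [NormedAddCommGroup E] [Module ℝ E] {d : ℕ} {Λ : (Fin d → ℝ) →ₗ[ℝ] E} {η : ℝ} {u : E}
    {x : Fin d → ℝ} (h : ‖u - Λ x‖ < η) : A5_f Λ η u x ≠ 0 := by
  unfold A5_f
  have h1 : 0 < η - ‖u - Λ x‖ := by linarith
  exact (lt_max_of_lt_right h1).ne'

private theorem A5_out {E : Type*} [NormedAddCommGroup E] [Module ℝ E] {d : ℕ} {Λ : (Fin d → ℝ) →ₗ[ℝ] E} {η b : ℝ}
    (hctrl : ∀ v, ‖Λ v‖ ≤ 2 * η → ‖v‖ ≤ b) {u : E} {x₀ x : Fin d → ℝ} (h₀ : ‖u - Λ x₀‖ < η)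
    (hx : x ∉ Metric.closedBall x₀ b) : A5_f Λ η u x = 0 := by
  by_contra h
  have h1 : ‖u - Λ x‖ < η := by
    by_contra h2
    apply h
    unfold A5_f
    apply max_eq_left
    linarith [not_lt.1 h2]
  apply hx
  rw [Metric.mem_closedBall, dist_eq_norm]
  apply hctrl
  have h3 : Λ (x - x₀) = (u - Λ x₀) - (u - Λ x) := by rw [map_sub]; abel
  rw [h3]
  refine (norm_sub_le _ _).trans ?_
  linarith

private theorem A5_tr {E : Type*} [NormedAddCommGroup E] [Module ℝ E] {d : ℕ} (Λ : (Fin d → ℝ) →ₗ[ℝ] E) (η : ℝ) (u : E)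
    (v x : Fin d → ℝ) : A5_f Λ η (u + Λ v) x = A5_f Λ η u (x - v) := by
  unfold A5_f
  have h : u + Λ v - Λ x = u - Λ (x - v) := by rw [map_sub]; abel
  rw [h]

private theorem A5_cs {E : Type*} [NormedAddCommGroup E] [Module ℝ E] {d : ℕ} {Λ : (Fin d → ℝ) →ₗ[ℝ] E} {η b : ℝ}
    (hctrl : ∀ v, ‖Λ v‖ ≤ 2 * η → ‖v‖ ≤ b) {u : E} {x₀ : Fin d → ℝ} (h₀ : ‖u - Λ x₀‖ < η) :
    HasCompactSupport (A5_f Λ η u) :=
  HasCompactSupport.intro (isCompact_closedBall x₀ b) (fun _ hx => A5_out hctrl h₀ hx)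

private theorem A5_c1 {E : Type*} [NormedAddCommGroup E] [Module ℝ E] [ContinuousSMul ℝ E] {d : ℕ}
    (Λ : (Fin d → ℝ) →ₗ[ℝ] E) (η : ℝ) (u : E) : Continuous (A5_f Λ η u) :=
  (A5_cont Λ η).comp (continuous_const.prodMk continuous_id)

private theorem A5_int {E : Type*} [NormedAddCommGroup E] [Module ℝ E] [ContinuousSMul ℝ E] {d : ℕ}
    {Λ : (Fin d → ℝ) →ₗ[ℝ] E} {η b : ℝ}
    (hctrl : ∀ v, ‖Λ v‖ ≤ 2 * η → ‖v‖ ≤ b) {u : E} {x₀ : Fin d → ℝ} (h₀ : ‖u - Λ x₀‖ < η) :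
    Integrable (A5_f Λ η u) :=
  (A5_c1 Λ η u).integrable_of_hasCompactSupport (A5_cs hctrl h₀)

private theorem A5_int2 {E : Type*} [NormedAddCommGroup E] [Module ℝ E] [ContinuousSMul ℝ E] {d : ℕ}
    {Λ : (Fin d → ℝ) →ₗ[ℝ] E} {η b : ℝ}
    (hctrl : ∀ v, ‖Λ v‖ ≤ 2 * η → ‖v‖ ≤ b) {u : E} {x₀ : Fin d → ℝ} (h₀ : ‖u - Λ x₀‖ < η) :
    Integrable (fun x => A5_f Λ η u x • x) := by
  apply Continuous.integrable_of_hasCompactSupport
  · exact (A5_c1 Λ η u).smul continuous_id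
  · exact (A5_cs hctrl h₀).smul_right

private theorem A5_pos {E : Type*} [NormedAddCommGroup E] [Module ℝ E] [ContinuousSMul ℝ E] {d : ℕ}
    {Λ : (Fin d → ℝ) →ₗ[ℝ] E} {η b : ℝ}
    (hctrl : ∀ v, ‖Λ v‖ ≤ 2 * η → ‖v‖ ≤ b) {u : E} {x₀ : Fin d → ℝ} (h₀ : ‖u - Λ x₀‖ < η) :
    0 < ∫ x, A5_f Λ η u x :=
  (A5_c1 Λ η u).integral_pos_of_hasCompactSupport_nonneg_nonzero (A5_cs hctrl h₀) (fun x => A5_nn Λ η u x) (A5_ne h₀)

private noncomputable def A5_P {E : Type*} [NormedAddCommGroup E] [Module ℝ E] {d : ℕ} (Λ : (Fin d → ℝ) →ₗ[ℝ] E) (η : ℝ)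
    (u : E) : Fin d → ℝ := (∫ x, A5_f Λ η u x)⁻¹ • ∫ x, A5_f Λ η u x • x

private theorem A5_eqv {E : Type*} [NormedAddCommGroup E] [Module ℝ E] [ContinuousSMul ℝ E] {d : ℕ}
    {Λ : (Fin d → ℝ) →ₗ[ℝ] E} {η b : ℝ}
    (hctrl : ∀ v, ‖Λ v‖ ≤ 2 * η → ‖v‖ ≤ b) {u : E} {x₀ : Fin d → ℝ} (h₀ : ‖u - Λ x₀‖ < η) (v : Fin d → ℝ) :
    A5_P Λ η (u + Λ v) = A5_P Λ η u + v := by
  unfold A5_P
  have h1 : ∫ x, A5_f Λ η (u + Λ v) x = ∫ x, A5_f Λ η u x := by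
    simp only [A5_tr]
    exact integral_sub_right_eq_self (fun x => A5_f Λ η u x) v
  have h2 : ∫ x, A5_f Λ η (u + Λ v) x • x = (∫ x, A5_f Λ η u x • x) + (∫ x, A5_f Λ η u x) • v := by
    have h3 : ∀ x, A5_f Λ η (u + Λ v) x • x = (fun y => A5_f Λ η u y • y + A5_f Λ η u y • v) (x - v) := by
      intro x
      rw [A5_tr]
      show _ = A5_f Λ η u (x - v) • (x - v) + A5_f Λ η u (x - v) • v
      rw [← smul_add, sub_add_cancel]
    simp only [h3]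
    rw [integral_sub_right_eq_self (fun y => A5_f Λ η u y • y + A5_f Λ η u y • v) v]
    rw [integral_add (A5_int2 hctrl h₀) ((A5_int hctrl h₀).smul_const v), integral_smul_const]
  rw [h1, h2, smul_add, smul_smul, inv_mul_cancel₀ (A5_pos hctrl h₀).ne', one_smul]

private theorem A5_near {E : Type*} [NormedAddCommGroup E] [Module ℝ E] [ContinuousSMul ℝ E] {d : ℕ}
    {Λ : (Fin d → ℝ) →ₗ[ℝ] E} {η b : ℝ}
    (hctrl : ∀ v, ‖Λ v‖ ≤ 2 * η → ‖v‖ ≤ b) {u : E} {x₀ : Fin d → ℝ} (h₀ : ‖u - Λ x₀‖ < η) :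
    ‖A5_P Λ η u - x₀‖ ≤ b := by
  have hp := A5_pos hctrl h₀
  have h1 : A5_P Λ η u - x₀ = (∫ x, A5_f Λ η u x)⁻¹ • ∫ x, A5_f Λ η u x • (x - x₀) := by
    have h2 : ∫ x, A5_f Λ η u x • (x - x₀) = (∫ x, A5_f Λ η u x • x) - (∫ x, A5_f Λ η u x) • x₀ := by
      simp only [smul_sub]
      rw [integral_sub (A5_int2 hctrl h₀) ((A5_int hctrl h₀).smul_const x₀), integral_smul_const]
    rw [h2, smul_sub, smul_smul, inv_mul_cancel₀ hp.ne', one_smul]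
    rfl
  have h3 : ‖∫ x, A5_f Λ η u x • (x - x₀)‖ ≤ ∫ x, A5_f Λ η u x * b := by
    apply norm_integral_le_of_norm_le ((A5_int hctrl h₀).mul_const b)
    filter_upwards with x
    rw [norm_smul, Real.norm_eq_abs, abs_of_nonneg (A5_nn Λ η u x)]
    by_cases hx : x ∈ Metric.closedBall x₀ b
    · rw [Metric.mem_closedBall, dist_eq_norm] at hx
      exact mul_le_mul_of_nonneg_left hx (A5_nn Λ η u x)
    · rw [A5_out hctrl h₀ hx, zero_mul, zero_mul]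
  rw [integral_mul_const] at h3
  rw [h1, norm_smul, norm_inv, Real.norm_eq_abs, abs_of_pos hp]
  calc (∫ x, A5_f Λ η u x)⁻¹ * ‖∫ x, A5_f Λ η u x • (x - x₀)‖
      ≤ (∫ x, A5_f Λ η u x)⁻¹ * ((∫ x, A5_f Λ η u x) * b) := mul_le_mul_of_nonneg_left h3 (inv_nonneg.2 hp.le)
    _ = b := by rw [← mul_assoc, inv_mul_cancel₀ hp.ne', one_mul]

private theorem A5_Pc {E : Type*} [NormedAddCommGroup E] [Module ℝ E] [ContinuousSMul ℝ E] {d : ℕ}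
    {Λ : (Fin d → ℝ) →ₗ[ℝ] E} {η b : ℝ}
    (hctrl : ∀ v, ‖Λ v‖ ≤ 2 * η → ‖v‖ ≤ b) : ContinuousOn (A5_P Λ η) {u | N Λ u < η} := by
  intro u₀ hu₀
  obtain ⟨x₀, hx₀⟩ := N_lt Λ hu₀
  have hV : IsOpen {u : E | ‖u - Λ x₀‖ < η} := isOpen_lt (by fun_prop) continuous_const
  have hI : ContinuousOn (fun u => ∫ x, A5_f Λ η u x) {u : E | ‖u - Λ x₀‖ < η} :=
    continuousOn_integral_of_compact_support (isCompact_closedBall x₀ b) (A5_cont Λ η).continuousOn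
      (fun p x hp hx => A5_out hctrl hp hx)
  have hJ : ContinuousOn (fun u => ∫ x, A5_f Λ η u x • x) {u : E | ‖u - Λ x₀‖ < η} := by
    apply continuousOn_integral_of_compact_support (isCompact_closedBall x₀ b)
    · apply Continuous.continuousOn
      exact (A5_cont Λ η).smul continuous_snd
    · intro p x hp hx
      rw [A5_out hctrl hp hx, zero_smul]
  have hc : ContinuousOn (A5_P Λ η) {u : E | ‖u - Λ x₀‖ < η} :=
    (hI.inv₀ (fun u hu => (A5_pos hctrl hu).ne')).smul hJ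
  exact (hc.continuousAt (hV.mem_nhds hx₀)).continuousWithinAt

theorem exists_eqproj {E : Type*} [NormedAddCommGroup E] [Module ℝ E] [ContinuousSMul ℝ E]
    (hF : ∀ (t : ℝ) (x : E), |t| ≤ 1 → ‖t • x‖ ≤ ‖x‖) {d : ℕ} {Λ : (Fin d → ℝ) →ₗ[ℝ] E} (hΛ : Function.Injective Λ)
    {c : ℝ} (hc : 0 < c) :
    ∃ (η : ℝ) (P : E → (Fin d → ℝ)), 0 < η ∧ ContinuousOn P {u | N Λ u < η} ∧
      (∀ u, N Λ u < η → ∀ x, P (u + Λ x) = P u + x) ∧ (∀ u x, ‖u - Λ x‖ < η → ‖P u - x‖ ≤ c) ∧ P 0 = 0 := by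
  obtain ⟨μ, hμ, hm⟩ := ctrl_inv hF hΛ (c := c / 2) (half_pos hc)
  have hctrl : ∀ v, ‖Λ v‖ ≤ 2 * (μ / 2) → ‖v‖ ≤ c / 2 := by
    intro v hv
    exact hm v (by linarith)
  have hη : 0 < μ / 2 := half_pos hμ
  have h0 : ‖(0 : E) - Λ 0‖ < μ / 2 := by
    rw [map_zero, sub_zero, norm_zero]
    exact hη
  have hP0 : ‖A5_P Λ (μ / 2) 0‖ ≤ c / 2 := by
    have h := A5_near hctrl h0
    rwa [sub_zero] at h
  refine ⟨μ / 2, fun u => A5_P Λ (μ / 2) u - A5_P Λ (μ / 2) 0, hη, (A5_Pc hctrl).sub continuousOn_const, ?_, ?_, sub_self _⟩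
  · intro u hu x
    obtain ⟨x₀, hx₀⟩ := N_lt Λ hu
    show A5_P Λ (μ / 2) (u + Λ x) - A5_P Λ (μ / 2) 0 = A5_P Λ (μ / 2) u - A5_P Λ (μ / 2) 0 + x
    rw [A5_eqv hctrl hx₀ x]
    abel
  · intro u x hx
    have h1 := A5_near hctrl hx
    have h2 : A5_P Λ (μ / 2) u - A5_P Λ (μ / 2) 0 - x = (A5_P Λ (μ / 2) u - x) - A5_P Λ (μ / 2) 0 := by abel
    show ‖A5_P Λ (μ / 2) u - A5_P Λ (μ / 2) 0 - x‖ ≤ c
    rw [h2]
    refine (norm_sub_le _ _).trans ?_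
    linarith

end Pool.Agent.LibDQ20
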