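import Pool.Agent.LibDQ20.A1

/-!
[DQ20 B1] (MEDIUM) THE PROJECTION of `K` to the quotient `E ⧸ V`, `V = LinearMap.range Λ` (closed, so the quotient is a Hausdorff topological vector space; `B = V.mkQ '' K` compact, convex, contains `0`). Write `g = gauge B` and let `w ≠ 0` be in the cone of `B`. `g w > 0`: otherwise `t • w ∈ B` for all large `t` (convex, `0 ∈ B`), but `B` is compact, so `w = t⁻¹ • (t • w) → 0` (`IsCompact.isVonNBounded` or sequences). `(g w)⁻¹ • w ∈ B`: `B` is closed, `(r n)⁻¹ • w ∈ B` for `r n → g w`.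
`lsc`: for `0 < a` the set `{w | ∃ s > 0, s • w ∈ B ∧ g w ≤ a}` is contained in the closed set `a • B`, which does not contain `w₀` if `a < g w₀`; for `a ≤ 0` replace `a` by `g w₀ / 2`.
-/

namespace Pool.Agent.LibDQ20

section B1_gen

open scoped Pointwise

variable {F : Type*} [AddCommGroup F] [Module ℝ F]

private theorem B1_mem {B : Set F} {w : F} {r : ℝ} (hr : 0 < r) : w ∈ r • B ↔ r⁻¹ • w ∈ B :=
  Set.mem_smul_set_iff_inv_smul_mem₀ hr.ne' B w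

private theorem B1_le {B : Set F} {w : F} {s : ℝ} (hs : 0 < s) (hsw : s • w ∈ B) : gauge B w ≤ s⁻¹ := by
  apply gauge_le_of_mem (inv_nonneg.2 hs.le)
  rw [B1_mem (inv_pos.2 hs), inv_inv]
  exact hsw

private theorem B1_up {B : Set F} (hc : Convex ℝ B) (h0 : (0 : F) ∈ B) {w : F} {r t : ℝ} (hr : 0 < r) (hrt : r ≤ t)
    (h : r⁻¹ • w ∈ B) : t⁻¹ • w ∈ B := by
  have ht : 0 < t := lt_of_lt_of_le hr hrt
  have h1 : t⁻¹ • w = (t⁻¹ * r) • (r⁻¹ • w) := by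
    rw [smul_smul, mul_assoc, mul_inv_cancel₀ hr.ne', mul_one]
  rw [h1]
  apply hc.smul_mem_of_zero_mem h0 h
  refine ⟨by positivity, ?_⟩
  rw [inv_mul_le_iff₀ ht, mul_one]
  exact hrt

private theorem B1_gt {B : Set F} (hc : Convex ℝ B) (h0 : (0 : F) ∈ B) {w : F} {s : ℝ} (hs : 0 < s) (hsw : s • w ∈ B)
    {t : ℝ} (ht : gauge B w < t) : t⁻¹ • w ∈ B := by
  rw [gauge_def'] at ht
  have hne : {r ∈ Set.Ioi (0 : ℝ) | r⁻¹ • w ∈ B}.Nonempty := by
    refine ⟨s⁻¹, inv_pos.2 hs, ?_⟩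
    show (s⁻¹)⁻¹ • w ∈ B
    rw [inv_inv]
    exact hsw
  obtain ⟨r, ⟨hr, hrB⟩, hrt⟩ := exists_lt_of_csInf_lt hne ht
  exact B1_up hc h0 hr hrt.le hrB

variable [TopologicalSpace F] [IsTopologicalAddGroup F] [ContinuousSMul ℝ F] [T2Space F]

private theorem B1_pos {B : Set F} (hB : IsCompact B) (hc : Convex ℝ B) (h0 : (0 : F) ∈ B) {w : F} (hw : w ≠ 0) {s : ℝ}
    (hs : 0 < s) (hsw : s • w ∈ B) : 0 < gauge B w := by
  by_contra hcon
  have hg : gauge B w = 0 := le_antisymm (not_lt.1 hcon) (gauge_nonneg w)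
  have hall : ∀ t : ℝ, 0 < t → t⁻¹ • w ∈ B := fun t ht => B1_gt hc h0 hs hsw (by rw [hg]; exact ht)
  have hbd : Bornology.IsVonNBounded ℝ B := by
    letI : UniformSpace F := IsTopologicalAddGroup.rightUniformSpace F
    haveI : IsUniformAddGroup F := isUniformAddGroup_of_addCommGroup
    exact hB.totallyBounded.isVonNBounded ℝ
  have htend : Filter.Tendsto (fun n : ℕ => ((n : ℝ) + 1)⁻¹) Filter.atTop (nhds 0) := by
    have h := tendsto_one_div_add_atTop_nhds_zero_nat (𝕜 := ℝ)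
    simpa only [one_div] using h
  have h1 := hbd.smul_tendsto_zero (x := fun n : ℕ => ((n : ℝ) + 1) • w) (l := Filter.atTop)
    (Filter.Eventually.of_forall (fun n => by
      have h2 := hall (((n : ℝ) + 1)⁻¹) (by positivity)
      rwa [inv_inv] at h2)) htend
  have h3 : ((fun n : ℕ => ((n : ℝ) + 1)⁻¹) • fun n : ℕ => ((n : ℝ) + 1) • w) = fun _ => w := by
    funext n
    show ((n : ℝ) + 1)⁻¹ • (((n : ℝ) + 1) • w) = w
    rw [smul_smul, inv_mul_cancel₀ (by positivity), one_smul]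
  rw [h3] at h1
  exact hw (tendsto_nhds_unique tendsto_const_nhds h1)

private theorem B1_end {B : Set F} (hB : IsCompact B) (hc : Convex ℝ B) (h0 : (0 : F) ∈ B) {w : F} (hw : w ≠ 0) {s : ℝ}
    (hs : 0 < s) (hsw : s • w ∈ B) : (gauge B w)⁻¹ • w ∈ B := by
  have hg := B1_pos hB hc h0 hw hs hsw
  have h1 : Filter.Tendsto (fun t : ℝ => t⁻¹ • w) (nhdsWithin (gauge B w) (Set.Ioi (gauge B w)))
      (nhds ((gauge B w)⁻¹ • w)) := by
    have h2 : ContinuousAt (fun t : ℝ => t⁻¹ • w) (gauge B w) :=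
      (continuousAt_inv₀ hg.ne').smul continuousAt_const
    exact h2.mono_left nhdsWithin_le_nhds
  refine hB.isClosed.mem_of_tendsto h1 ?_
  filter_upwards [self_mem_nhdsWithin] with t ht
  exact B1_gt hc h0 hs hsw ht

private theorem B1_lsc {B : Set F} (hB : IsCompact B) (hc : Convex ℝ B) (h0 : (0 : F) ∈ B) {w₀ : F} (hw : w₀ ≠ 0) {s₀ : ℝ}
    (hs : 0 < s₀) (hsw : s₀ • w₀ ∈ B) {a : ℝ} (ha : a < gauge B w₀) :
    ∀ᶠ w in nhds w₀, (∃ s : ℝ, 0 < s ∧ s • w ∈ B) → a < gauge B w := by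
  have hg := B1_pos hB hc h0 hw hs hsw
  obtain ⟨a', ha', haa, hag⟩ : ∃ a' : ℝ, 0 < a' ∧ a ≤ a' ∧ a' < gauge B w₀ :=
    ⟨max a (gauge B w₀ / 2), lt_max_of_lt_right (half_pos hg), le_max_left _ _, max_lt ha (half_lt_self hg)⟩
  have hcl : IsClosed (a' • B) := (hB.smul a').isClosed
  have hno : w₀ ∉ a' • B := fun h => absurd (gauge_le_of_mem ha'.le h) (not_le.2 hag)
  filter_upwards [hcl.isOpen_compl.mem_nhds hno] with w hwn hex
  obtain ⟨s, hs', hsw'⟩ := hex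
  refine lt_of_le_of_lt haa ?_
  by_contra hle
  have hle' : gauge B w ≤ a' := not_lt.1 hle
  apply hwn
  have hw0 : w ≠ 0 := by
    intro hw0
    apply hwn
    rw [B1_mem ha', hw0, smul_zero]
    exact h0
  rw [B1_mem ha']
  exact B1_up hc h0 (B1_pos hB hc h0 hw0 hs' hsw') hle' (B1_end hB hc h0 hw0 hs' hsw')

end B1_gen

variable {E : Type*} [NormedAddCommGroup E] [Module ℝ E] [ContinuousSMul ℝ E] {d : ℕ} {Λ : (Fin d → ℝ) →ₗ[ℝ] E} {K : Set E}

private theorem B1_closed (Λ : (Fin d → ℝ) →ₗ[ℝ] E) : IsClosed ((LinearMap.range Λ : Submodule ℝ E) : Set E) := by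
  have h := range_closed Λ
  rwa [← LinearMap.coe_range] at h

private theorem B1_comp (hK : IsCompact K) : IsCompact ((LinearMap.range Λ).mkQ '' K) :=
  hK.image (LinearMap.range Λ).continuous_mkQ

private theorem B1_conv (hc : Convex ℝ K) : Convex ℝ ((LinearMap.range Λ).mkQ '' K) :=
  hc.linear_image _

private theorem B1_zero (h0 : (0 : E) ∈ K) : (0 : E ⧸ LinearMap.range Λ) ∈ (LinearMap.range Λ).mkQ '' K :=
  ⟨0, h0, map_zero _⟩

theorem gq_pos (hK : IsCompact K) (hc : Convex ℝ K) (h0 : (0 : E) ∈ K) {w : E ⧸ LinearMap.range Λ} (hw : w ≠ 0) {s : ℝ}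
    (hs : 0 < s) (hsw : s • w ∈ (LinearMap.range Λ).mkQ '' K) : 0 < gauge ((LinearMap.range Λ).mkQ '' K) w := by
  haveI := B1_closed Λ
  exact B1_pos (B1_comp hK) (B1_conv hc) (B1_zero h0) hw hs hsw

theorem gq_end (hK : IsCompact K) (hc : Convex ℝ K) (h0 : (0 : E) ∈ K) {w : E ⧸ LinearMap.range Λ} (hw : w ≠ 0) {s : ℝ}
    (hs : 0 < s) (hsw : s • w ∈ (LinearMap.range Λ).mkQ '' K) :
    (gauge ((LinearMap.range Λ).mkQ '' K) w)⁻¹ • w ∈ (LinearMap.range Λ).mkQ '' K := by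
  haveI := B1_closed Λ
  exact B1_end (B1_comp hK) (B1_conv hc) (B1_zero h0) hw hs hsw

theorem gq_le {w : E ⧸ LinearMap.range Λ} {s : ℝ} (hs : 0 < s) (hsw : s • w ∈ (LinearMap.range Λ).mkQ '' K) :
    gauge ((LinearMap.range Λ).mkQ '' K) w ≤ s⁻¹ := B1_le hs hsw

theorem gq_lsc (hK : IsCompact K) (hc : Convex ℝ K) (h0 : (0 : E) ∈ K) {w₀ : E ⧸ LinearMap.range Λ} (hw : w₀ ≠ 0) {s₀ : ℝ}
    (hs : 0 < s₀) (hsw : s₀ • w₀ ∈ (LinearMap.range Λ).mkQ '' K) {a : ℝ} (ha : a < gauge ((LinearMap.range Λ).mkQ '' K) w₀) :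
    ∀ᶠ w in nhds w₀, (∃ s : ℝ, 0 < s ∧ s • w ∈ (LinearMap.range Λ).mkQ '' K) → a < gauge ((LinearMap.range Λ).mkQ '' K) w := by
  haveI := B1_closed Λ
  exact B1_lsc (B1_comp hK) (B1_conv hc) (B1_zero h0) hw hs hsw ha

end Pool.Agent.LibDQ20
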