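import Pool.Agent.LibDQ20.A5

/-!
[DQ20 B2] (MEDIUM) LOCAL SECTIONS of `E → E ⧸ V`, `V = LinearMap.range Λ`. `η, P` from A5 (any `c`). `F y = y - Λ (P (y - y₀))` is continuous on the open `V`-invariant set `O = {y | N Λ (y - y₀) < η}`, and `F (y + Λ x) = F y` there; `U = mkQ '' O` is open (`mkQ` is an open map), `g w = F (w.out)` (`Quotient.out`): for `y ∈ O`, `g (mkQ y) = F y`. `g ∘ mkQ = F` on `O` is continuous, and `mkQ` restricted to `O` is an open continuous surjection onto `U`, so `g` is continuous on `U`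
(directly: an open set `W` of `E`: `{w ∈ U | g w ∈ W} = mkQ '' {y ∈ O | F y ∈ W}` is open). `mkQ (F y) = mkQ y`; `F y₀ = y₀` because `P 0 = 0`.
-/

namespace Pool.Agent.LibDQ20

theorem local_section {E : Type*} [NormedAddCommGroup E] [Module ℝ E] [ContinuousSMul ℝ E]
    (hF : ∀ (t : ℝ) (x : E), |t| ≤ 1 → ‖t • x‖ ≤ ‖x‖) {d : ℕ} {Λ : (Fin d → ℝ) →ₗ[ℝ] E} (hΛ : Function.Injective Λ) (y₀ : E) :
    ∃ U ∈ nhds ((LinearMap.range Λ).mkQ y₀), ∃ g : E ⧸ LinearMap.range Λ → E, ContinuousOn g U ∧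
      (∀ w ∈ U, (LinearMap.range Λ).mkQ (g w) = w) ∧ g ((LinearMap.range Λ).mkQ y₀) = y₀ := by
  obtain ⟨η, P, hη, hPc, hPe, -, hP0⟩ := exists_eqproj hF hΛ (c := 1) one_pos
  have hΛc : Continuous Λ := LinearMap.continuous_of_finiteDimensional Λ
  have hNc : Continuous fun y : E => N Λ (y - y₀) :=
    (Metric.continuous_infDist_pt _).comp (continuous_id.sub continuous_const)
  have hOo : IsOpen {y : E | N Λ (y - y₀) < η} := isOpen_lt hNc continuous_const
  have hO0 : y₀ ∈ {y : E | N Λ (y - y₀) < η} := by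
    change N Λ (y₀ - y₀) < η
    have h1 : N Λ (y₀ - y₀) = 0 := by
      unfold N
      rw [sub_self]
      exact Metric.infDist_zero_of_mem ⟨0, map_zero Λ⟩
    rw [h1]
    exact hη
  have hsurj := Submodule.mkQ_surjective (LinearMap.range Λ)
  -- the map `F`
  have hFi : ∀ y : E, N Λ (y - y₀) < η → ∀ x, y + Λ x - Λ (P (y + Λ x - y₀)) = y - Λ (P (y - y₀)) := by
    intro y hy x
    have h1 : y + Λ x - y₀ = (y - y₀) + Λ x := by abel
    rw [h1, hPe _ hy x, map_add]
    abel
  have hg : ∀ y : E, N Λ (y - y₀) < η →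
      Function.surjInv hsurj ((LinearMap.range Λ).mkQ y) -
        Λ (P (Function.surjInv hsurj ((LinearMap.range Λ).mkQ y) - y₀)) = y - Λ (P (y - y₀)) := by
    intro y hy
    have h1 := Function.surjInv_eq hsurj ((LinearMap.range Λ).mkQ y)
    rw [Submodule.mkQ_apply, Submodule.mkQ_apply, Submodule.Quotient.eq] at h1
    obtain ⟨x, hx⟩ := h1
    have h2 : Function.surjInv hsurj ((LinearMap.range Λ).mkQ y) = y + Λ x := by
      rw [hx]
      abel
    rw [h2]
    exact hFi y hy x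
  have hFc : ∀ y : E, N Λ (y - y₀) < η → ContinuousAt (fun y : E => y - Λ (P (y - y₀))) y := by
    intro y hy
    have h1 : IsOpen {u : E | N Λ u < η} := isOpen_lt (Metric.continuous_infDist_pt _) continuous_const
    have h2 : ContinuousAt P (y - y₀) := hPc.continuousAt (h1.mem_nhds hy)
    have h3 : ContinuousAt (fun y : E => P (y - y₀)) y :=
      ContinuousAt.comp (g := P) (f := fun y : E => y - y₀) h2
        (continuous_id.sub continuous_const).continuousAt
    have h4 : ContinuousAt (fun y : E => Λ (P (y - y₀))) y :=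
      ContinuousAt.comp (g := Λ) (f := fun y : E => P (y - y₀)) hΛc.continuousAt h3
    exact continuousAt_id.sub h4
  have hopen : IsOpenMap (LinearMap.range Λ).mkQ := Submodule.isOpenMap_mkQ _
  refine ⟨(LinearMap.range Λ).mkQ '' {y : E | N Λ (y - y₀) < η}, hopen.image_mem_nhds (hOo.mem_nhds hO0),
    fun w => Function.surjInv hsurj w - Λ (P (Function.surjInv hsurj w - y₀)), ?_, ?_, ?_⟩
  · rintro _ ⟨y, hy, rfl⟩
    apply ContinuousAt.continuousWithinAt
    intro W hW
    change W ∈ nhds (Function.surjInv hsurj ((LinearMap.range Λ).mkQ y) -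
        Λ (P (Function.surjInv hsurj ((LinearMap.range Λ).mkQ y) - y₀))) at hW
    rw [hg y hy] at hW
    have h1 : (fun y : E => y - Λ (P (y - y₀))) ⁻¹' W ∩ {y : E | N Λ (y - y₀) < η} ∈ nhds y :=
      Filter.inter_mem (hFc y hy hW) (hOo.mem_nhds hy)
    rw [Filter.mem_map]
    refine Filter.mem_of_superset (hopen.image_mem_nhds h1) ?_
    rintro _ ⟨y', ⟨h2, h3⟩, rfl⟩
    change Function.surjInv hsurj ((LinearMap.range Λ).mkQ y') -
        Λ (P (Function.surjInv hsurj ((LinearMap.range Λ).mkQ y') - y₀)) ∈ W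
    rw [hg y' h3]
    exact h2
  · rintro _ ⟨y, hy, rfl⟩
    change (LinearMap.range Λ).mkQ (Function.surjInv hsurj ((LinearMap.range Λ).mkQ y) -
        Λ (P (Function.surjInv hsurj ((LinearMap.range Λ).mkQ y) - y₀))) = _
    rw [hg y hy, map_sub, Submodule.mkQ_apply, Submodule.mkQ_apply, sub_eq_self,
      Submodule.Quotient.mk_eq_zero]
    exact ⟨_, rfl⟩
  · change Function.surjInv hsurj _ - Λ (P (Function.surjInv hsurj _ - y₀)) = y₀
    rw [hg y₀ hO0, sub_self, hP0, map_zero, sub_zero]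

end Pool.Agent.LibDQ20
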