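import Pool.Agent.LibDQ20.B1
import Pool.Agent.LibDQ20.B2

/-!
[DQ20 B3] (LARGE) SELECTION over a set `X̂` of the quotient `Y = E ⧸ V`, `V = LinearMap.range Λ`, `B = mkQ '' K`, `γ = gauge B`. `t w = convexHull ℝ {y | mkQ y = w ∧ (γ w)⁻¹ • y ∈ G}` for `w ∈ X̂`. Apply `exists_continuous_forall_mem_convex_of_local` on the subtype `X̂` (metrizable: `Y` is a normed group, `Submodule.Quotient.normedAddCommGroup` with the closedness instance, or `QuotientAddGroup`; so normal and paracompact).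
LOCAL SELECTION at `w₀`: `hX` gives `k` with `mkQ k = (γ w₀)⁻¹ • w₀` and `k ∈ G`; `y₀ = γ w₀ • k`, `mkQ y₀ = w₀`. `g` from B2 with `g w₀ = y₀`. As `(γ w₀)⁻¹ • y₀ = k ∈ G` and `G` is open, there is `m > (γ w₀)⁻¹` with `m • y₀ ∈ G`, so `m • g w ∈ G` for `w` near `w₀`; by `gq_lsc` (with `a = m⁻¹ < γ w₀`) `(γ w)⁻¹ < m` near `w₀` (`w ∈ X̂`), so `(γ w)⁻¹ • g w = ((γ w)⁻¹ / m) • (m • g w) ∈ G` by `hGs`.
-/

namespace Pool.Agent.LibDQ20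

private theorem B3_closed {E : Type*} [NormedAddCommGroup E] [Module ℝ E] [ContinuousSMul ℝ E] {d : ℕ}
    (Λ : (Fin d → ℝ) →ₗ[ℝ] E) : IsClosed ((LinearMap.range Λ : Submodule ℝ E) : Set E) := by
  have h := range_closed Λ
  rwa [← LinearMap.coe_range] at h

private theorem B3_local {E : Type*} [NormedAddCommGroup E] [Module ℝ E] [ContinuousSMul ℝ E]
    (hF : ∀ (t : ℝ) (x : E), |t| ≤ 1 → ‖t • x‖ ≤ ‖x‖) {d : ℕ} {Λ : (Fin d → ℝ) →ₗ[ℝ] E} (hΛ : Function.Injective Λ)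
    {K : Set E} (hK : IsCompact K) (hc : Convex ℝ K) (h0 : (0 : E) ∈ K) {G : Set E} (hG : IsOpen G)
    (hGs : ∀ y ∈ G, ∀ s : ℝ, 0 ≤ s → s ≤ 1 → s • y ∈ G) {w₀ : E ⧸ LinearMap.range Λ} (hw0 : w₀ ≠ 0)
    (hc0 : ∃ s : ℝ, 0 < s ∧ s • w₀ ∈ (LinearMap.range Λ).mkQ '' K)
    (hk0 : ∃ k ∈ G, (LinearMap.range Λ).mkQ k = (gauge ((LinearMap.range Λ).mkQ '' K) w₀)⁻¹ • w₀) :
    ∃ W ∈ nhds w₀, ∃ g : E ⧸ LinearMap.range Λ → E, ContinuousOn g W ∧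
      ∀ w ∈ W, (∃ s : ℝ, 0 < s ∧ s • w ∈ (LinearMap.range Λ).mkQ '' K) →
        (LinearMap.range Λ).mkQ (g w) = w ∧ (gauge ((LinearMap.range Λ).mkQ '' K) w)⁻¹ • g w ∈ G := by
  obtain ⟨s₀, hs₀, hsw₀⟩ := hc0
  obtain ⟨k, hkG, hk⟩ := hk0
  have hγ : 0 < gauge ((LinearMap.range Λ).mkQ '' K) w₀ := gq_pos hK hc h0 hw0 hs₀ hsw₀
  obtain ⟨c, hcdef⟩ : ∃ c : ℝ, c = gauge ((LinearMap.range Λ).mkQ '' K) w₀ := ⟨_, rfl⟩
  rw [← hcdef] at hγ hk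
  have hy₀ : (LinearMap.range Λ).mkQ (c • k) = w₀ := by
    rw [map_smul, hk, smul_smul, mul_inv_cancel₀ hγ.ne', one_smul]
  obtain ⟨U, hU, g, hgc, hgq, hgy⟩ := local_section hF hΛ (c • k)
  rw [hy₀] at hU hgy
  have hk' : c⁻¹ • (c • k) ∈ G := by
    rw [smul_smul, inv_mul_cancel₀ hγ.ne', one_smul]
    exact hkG
  have hcont : Continuous fun s : ℝ => s • (c • k) := by fun_prop
  have hev : ∀ᶠ s in nhds c⁻¹, s • (c • k) ∈ G := hcont.continuousAt.eventually (hG.mem_nhds hk')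
  have hev2 : ∀ᶠ s in nhdsWithin c⁻¹ (Set.Ioi c⁻¹), s • (c • k) ∈ G ∧ c⁻¹ < s :=
    (hev.filter_mono nhdsWithin_le_nhds).and self_mem_nhdsWithin
  obtain ⟨m, hmG, hm⟩ := hev2.exists
  have hm0 : 0 < m := lt_trans (inv_pos.2 hγ) hm
  have hmc : m⁻¹ < gauge ((LinearMap.range Λ).mkQ '' K) w₀ := by
    rw [← hcdef]
    have := inv_strictAnti₀ (inv_pos.2 hγ) hm
    rwa [inv_inv] at this
  have h1 := gq_lsc hK hc h0 hw0 hs₀ hsw₀ hmc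
  have hgat : ContinuousAt g w₀ := hgc.continuousAt hU
  have h2 : ∀ᶠ w in nhds w₀, m • g w ∈ G := by
    have h3 : ContinuousAt (fun w => m • g w) w₀ := hgat.const_smul m
    apply h3.eventually
    apply hG.mem_nhds
    show m • g w₀ ∈ G
    rw [hgy]
    exact hmG
  refine ⟨U ∩ ({w | m • g w ∈ G} ∩ {w | (∃ s : ℝ, 0 < s ∧ s • w ∈ (LinearMap.range Λ).mkQ '' K) →
      m⁻¹ < gauge ((LinearMap.range Λ).mkQ '' K) w}), Filter.inter_mem hU (Filter.inter_mem h2 h1), g,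
    hgc.mono Set.inter_subset_left, ?_⟩
  rintro w ⟨hwU, hwG, hwγ⟩ hws
  refine ⟨hgq w hwU, ?_⟩
  have h5 : m⁻¹ < gauge ((LinearMap.range Λ).mkQ '' K) w := hwγ hws
  have h6 : 0 < gauge ((LinearMap.range Λ).mkQ '' K) w := lt_trans (inv_pos.2 hm0) h5
  have h7 : (gauge ((LinearMap.range Λ).mkQ '' K) w)⁻¹ • g w
      = ((gauge ((LinearMap.range Λ).mkQ '' K) w)⁻¹ * m⁻¹) • (m • g w) := by
    rw [smul_smul, mul_assoc, inv_mul_cancel₀ hm0.ne', mul_one]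
  rw [h7]
  apply hGs _ hwG
  · positivity
  · rw [inv_mul_le_iff₀ h6, mul_one]
    exact h5.le

theorem selection {E : Type*} [NormedAddCommGroup E] [Module ℝ E] [ContinuousSMul ℝ E]
    (hF : ∀ (t : ℝ) (x : E), |t| ≤ 1 → ‖t • x‖ ≤ ‖x‖) {d : ℕ} {Λ : (Fin d → ℝ) →ₗ[ℝ] E} (hΛ : Function.Injective Λ)
    {K : Set E} (hK : IsCompact K) (hc : Convex ℝ K) (h0 : (0 : E) ∈ K) {G : Set E} (hG : IsOpen G)
    (hGs : ∀ y ∈ G, ∀ s : ℝ, 0 ≤ s → s ≤ 1 → s • y ∈ G) {X : Set (E ⧸ LinearMap.range Λ)} (hX0 : (0 : E ⧸ LinearMap.range Λ) ∉ X)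
    (hXc : ∀ w ∈ X, ∃ s : ℝ, 0 < s ∧ s • w ∈ (LinearMap.range Λ).mkQ '' K)
    (hX : ∀ w ∈ X, ∃ k ∈ G, (LinearMap.range Λ).mkQ k = (gauge ((LinearMap.range Λ).mkQ '' K) w)⁻¹ • w) :
    ∃ τ : E ⧸ LinearMap.range Λ → E, ContinuousOn τ X ∧ ∀ w ∈ X,
      τ w ∈ convexHull ℝ {y | (LinearMap.range Λ).mkQ y = w ∧ (gauge ((LinearMap.range Λ).mkQ '' K) w)⁻¹ • y ∈ G} := by
  classical
  have := B3_closed Λ
  have hH := exists_continuous_forall_mem_convex_of_local (X := X) (E := E)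
    (t := fun w => convexHull ℝ {y | (LinearMap.range Λ).mkQ y = (w : E ⧸ LinearMap.range Λ) ∧
      (gauge ((LinearMap.range Λ).mkQ '' K) (w : E ⧸ LinearMap.range Λ))⁻¹ • y ∈ G})
    (fun w => convex_convexHull ℝ _)
    (fun w => by
      obtain ⟨W, hW, g, hg, hgW⟩ := B3_local hF hΛ hK hc h0 hG hGs (w₀ := (w : E ⧸ LinearMap.range Λ))
        (fun h => hX0 (h ▸ w.2)) (hXc w.1 w.2) (hX w.1 w.2)
      refine ⟨Subtype.val ⁻¹' W, continuous_subtype_val.continuousAt.preimage_mem_nhds hW, fun x => g x.1,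
        hg.comp continuous_subtype_val.continuousOn (fun x hx => hx), ?_⟩
      intro y hy
      exact subset_convexHull ℝ _ (hgW y.1 hy (hXc y.1 y.2)))
  obtain ⟨gc, hgc⟩ := hH
  refine ⟨fun w => if h : w ∈ X then gc ⟨w, h⟩ else 0, ?_, ?_⟩
  · rw [continuousOn_iff_continuous_domRestrict]
    have h1 : X.domRestrict (fun w => if h : w ∈ X then gc ⟨w, h⟩ else 0) = gc := by
      funext x
      exact dif_pos x.2
    rw [h1]
    exact gc.continuous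
  · intro w hw
    simp only [hw, dif_pos]
    exact hgc ⟨w, hw⟩

end Pool.Agent.LibDQ20
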