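import Pool.Agent.LibDQ20.B3

/-!
[DQ20 B4] (MEDIUM) HOMOGENEOUS SECTION. `π = (LinearMap.range Λ).mkQ`, `X = π '' {z | z ∈ Zc Λ Z₀ ∧ Γ z = 1}`. `Γ > 0` on `Zc Λ Z₀` (`Γ (s • z + Λ x) = s * Γ z`), `Γ (Λ x) = 0` so `0 ∉ X`. `hXc`: `z ∈ Zc`, `s • z + Λ x ∈ Z₀ ⊆ K`. `hX`: `w = π z`; `γ w = gauge (π '' K) w ≤ s⁻¹` (`gq_le`), `gq_end` gives `k' ∈ K` with `π k' = (γ w)⁻¹ • w`, so `k' = t • (s • z + Λ x) + Λ x'` with `t = (γ w)⁻¹ / s ≥ 1`, `k' ∈ Z₀` by `hZu`, and `hZG` gives `k = k' + Λ x'' ∈ G`. `τ` from B3.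
`σ z = Γ z • τ (π ((Γ z)⁻¹ • z))`. For `z ∈ Zc`: continuous (`Γ` continuous and positive there); `σ (s • z) = s • σ z`; invariant; if moreover `z ∈ K` and `w = π ((Γ z)⁻¹ • z)`, then `γ w ≤ (Γ z)⁻¹` (`gq_le` with `s = Γ z`), and `Γ z • y = (Γ z * γ w) • ((γ w)⁻¹ • y) ∈ G` for the `y` of the hull (`hGs`, factor in `[0,1]`), `Γ z • y ∈ z + range Λ`; the hull is mapped by `Γ z • ·`.
-/

namespace Pool.Agent.LibDQ20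

private theorem B4_eq {E : Type*} [NormedAddCommGroup E] [Module ℝ E] {d : ℕ} (Λ : (Fin d → ℝ) →ₗ[ℝ] E)
    {a b : E} : (LinearMap.range Λ).mkQ a = (LinearMap.range Λ).mkQ b ↔ ∃ x, a = b + Λ x := by
  rw [Submodule.mkQ_apply, Submodule.mkQ_apply, Submodule.Quotient.eq, LinearMap.mem_range]
  constructor
  · rintro ⟨x, hx⟩
    exact ⟨x, by rw [hx]; abel⟩
  · rintro ⟨x, hx⟩
    exact ⟨x, by rw [hx]; abel⟩

theorem hom_section {E : Type*} [NormedAddCommGroup E] [Module ℝ E] [ContinuousSMul ℝ E]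
    (hF : ∀ (t : ℝ) (x : E), |t| ≤ 1 → ‖t • x‖ ≤ ‖x‖) {d : ℕ} {Λ : (Fin d → ℝ) →ₗ[ℝ] E} (hΛ : Function.Injective Λ)
    {K : Set E} (hK : IsCompact K) (hc : Convex ℝ K) (h0 : (0 : E) ∈ K) {G : Set E} (hG : IsOpen G)
    (hGs : ∀ y ∈ G, ∀ s : ℝ, 0 ≤ s → s ≤ 1 → s • y ∈ G) {Γ : E → ℝ} (hΓ : Continuous Γ)
    (hΓs : ∀ (s : ℝ) z, 0 ≤ s → Γ (s • z) = s * Γ z) (hΓv : ∀ z x, Γ (z + Λ x) = Γ z) {Z₀ : Set E} (hZK : Z₀ ⊆ K)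
    (hZΓ : ∀ z ∈ Z₀, 0 < Γ z) (hZu : ∀ z ∈ Z₀, ∀ (t : ℝ) x, 1 ≤ t → t • z + Λ x ∈ K → t • z + Λ x ∈ Z₀)
    (hZG : ∀ z ∈ Z₀, ∃ x, z + Λ x ∈ G) :
    ∃ σ : E → E, ContinuousOn σ (Zc Λ Z₀) ∧ (∀ z ∈ Zc Λ Z₀, ∀ s : ℝ, 0 < s → σ (s • z) = s • σ z) ∧
      (∀ z ∈ Zc Λ Z₀, ∀ x, σ (z + Λ x) = σ z) ∧
      ∀ z ∈ Zc Λ Z₀, z ∈ K → σ z ∈ convexHull ℝ {y | y ∈ G ∧ ∃ x, y = z + Λ x} := by
  classical
  have hΓ0 : Γ 0 = 0 := by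
    have h := hΓs 0 0 le_rfl
    rw [zero_smul, zero_mul] at h
    exact h
  have hpos : ∀ z ∈ Zc Λ Z₀, 0 < Γ z := by
    rintro z ⟨s, hs, x, hx⟩
    have h := hZΓ _ hx
    rw [hΓv, hΓs s z hs.le] at h
    exact (mul_pos_iff_of_pos_left hs).1 h
  have hB : ∀ z, ∀ s : ℝ, ∀ x, s • z + Λ x ∈ K →
      s • (LinearMap.range Λ).mkQ z ∈ (LinearMap.range Λ).mkQ '' K := by
    intro z s x hx
    refine ⟨s • z + Λ x, hx, ?_⟩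
    rw [← map_smul]
    exact (B4_eq Λ).2 ⟨x, rfl⟩
  obtain ⟨X, hXdef⟩ : ∃ X : Set (E ⧸ LinearMap.range Λ),
      X = (LinearMap.range Λ).mkQ '' {z | z ∈ Zc Λ Z₀ ∧ Γ z = 1} := ⟨_, rfl⟩
  have hX0 : (0 : E ⧸ LinearMap.range Λ) ∉ X := by
    rw [hXdef]
    rintro ⟨z, ⟨_, h1⟩, h2⟩
    have h3 : (LinearMap.range Λ).mkQ z = (LinearMap.range Λ).mkQ 0 := by rw [h2, map_zero]
    obtain ⟨x, hx⟩ := (B4_eq Λ).1 h3
    rw [hx, hΓv, hΓ0] at h1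
    exact zero_ne_one h1
  have hXc : ∀ w ∈ X, ∃ s : ℝ, 0 < s ∧ s • w ∈ (LinearMap.range Λ).mkQ '' K := by
    rw [hXdef]
    rintro _ ⟨z, ⟨⟨s, hs, x, hx⟩, _⟩, rfl⟩
    exact ⟨s, hs, hB z s x (hZK hx)⟩
  have hne : ∀ w ∈ X, w ≠ 0 := fun w hw h => hX0 (h ▸ hw)
  have hX : ∀ w ∈ X, ∃ k ∈ G, (LinearMap.range Λ).mkQ k =
      (gauge ((LinearMap.range Λ).mkQ '' K) w)⁻¹ • w := by
    intro w hw
    have hw0 := hne w hw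
    rw [hXdef] at hw
    obtain ⟨z, ⟨⟨s, hs, x, hx⟩, _⟩, rfl⟩ := hw
    have hsw := hB z s x (hZK hx)
    have hg := gq_pos hK hc h0 hw0 hs hsw
    have hle := gq_le (Λ := Λ) (K := K) hs hsw
    obtain ⟨k', hk', hk⟩ := gq_end hK hc h0 hw0 hs hsw
    rw [← map_smul] at hk
    obtain ⟨x', hx'⟩ := (B4_eq Λ).1 hk
    have ht : (1 : ℝ) ≤ (gauge ((LinearMap.range Λ).mkQ '' K) ((LinearMap.range Λ).mkQ z))⁻¹ / s := by
      rw [le_div_iff₀ hs, one_mul]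
      exact (le_inv_comm₀ hs hg).2 hle
    have hk2 : k' = ((gauge ((LinearMap.range Λ).mkQ '' K) ((LinearMap.range Λ).mkQ z))⁻¹ / s) •
        (s • z + Λ x) +
        Λ (x' - ((gauge ((LinearMap.range Λ).mkQ '' K) ((LinearMap.range Λ).mkQ z))⁻¹ / s) • x) := by
      rw [hx', smul_add, smul_smul, div_mul_cancel₀ _ hs.ne', map_sub, map_smul]
      abel
    have hkZ : k' ∈ Z₀ := by
      rw [hk2]
      apply hZu _ hx _ _ ht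
      rw [← hk2]
      exact hk'
    obtain ⟨x'', hx''⟩ := hZG k' hkZ
    refine ⟨k' + Λ x'', hx'', ?_⟩
    rw [← map_smul, ← hk]
    exact (B4_eq Λ).2 ⟨x'', rfl⟩
  obtain ⟨τ, hτc, hτ⟩ := selection hF hΛ hK hc h0 hG hGs hX0 hXc hX
  have hmem : ∀ z ∈ Zc Λ Z₀, (LinearMap.range Λ).mkQ ((Γ z)⁻¹ • z) ∈ X := by
    intro z hz
    have hp := hpos z hz
    rw [hXdef]
    refine ⟨(Γ z)⁻¹ • z, ⟨?_, ?_⟩, rfl⟩
    · obtain ⟨s, hs, x, hx⟩ := hz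
      refine ⟨s * Γ z, mul_pos hs hp, x, ?_⟩
      rw [smul_smul, mul_assoc, mul_inv_cancel₀ hp.ne', mul_one]
      exact hx
    · rw [hΓs _ _ (inv_nonneg.2 hp.le), inv_mul_cancel₀ hp.ne']
  refine ⟨fun z => Γ z • τ ((LinearMap.range Λ).mkQ ((Γ z)⁻¹ • z)), ?_, ?_, ?_, ?_⟩
  · have h1 : ContinuousOn (fun z => (Γ z)⁻¹ • z) (Zc Λ Z₀) :=
      (hΓ.continuousOn.inv₀ fun z hz => (hpos z hz).ne').smul continuousOn_id
    have h2 : Continuous fun z : E => (LinearMap.range Λ).mkQ z := continuous_quot_mk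
    exact hΓ.continuousOn.smul (hτc.comp (h2.comp_continuousOn h1) hmem)
  · intro z hz s hs
    have hp := hpos z hz
    show Γ (s • z) • τ ((LinearMap.range Λ).mkQ ((Γ (s • z))⁻¹ • (s • z))) =
      s • (Γ z • τ ((LinearMap.range Λ).mkQ ((Γ z)⁻¹ • z)))
    have h1 : (s * Γ z)⁻¹ • (s • z) = (Γ z)⁻¹ • z := by
      rw [smul_smul]
      congr 1
      field_simp
    rw [hΓs s z hs.le, h1, mul_smul]
  · intro z _ x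
    show Γ (z + Λ x) • τ ((LinearMap.range Λ).mkQ ((Γ (z + Λ x))⁻¹ • (z + Λ x))) =
      Γ z • τ ((LinearMap.range Λ).mkQ ((Γ z)⁻¹ • z))
    have h1 : (LinearMap.range Λ).mkQ ((Γ z)⁻¹ • (z + Λ x)) =
        (LinearMap.range Λ).mkQ ((Γ z)⁻¹ • z) := by
      refine (B4_eq Λ).2 ⟨(Γ z)⁻¹ • x, ?_⟩
      rw [smul_add, map_smul]
    rw [hΓv, h1]
  · intro z hz hzK
    have hp := hpos z hz
    have hw := hmem z hz
    have hsw : Γ z • (LinearMap.range Λ).mkQ ((Γ z)⁻¹ • z) ∈ (LinearMap.range Λ).mkQ '' K := by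
      refine ⟨z, hzK, ?_⟩
      rw [← map_smul, smul_smul, mul_inv_cancel₀ hp.ne', one_smul]
    have hg := gq_pos hK hc h0 (hne _ hw) hp hsw
    have hle := gq_le (Λ := Λ) (K := K) hp hsw
    have h1 := hτ _ hw
    have h2 : convexHull ℝ {y | (LinearMap.range Λ).mkQ y = (LinearMap.range Λ).mkQ ((Γ z)⁻¹ • z) ∧
        (gauge ((LinearMap.range Λ).mkQ '' K) ((LinearMap.range Λ).mkQ ((Γ z)⁻¹ • z)))⁻¹ • y ∈ G} ⊆
        (LinearMap.lsmul ℝ E (Γ z)) ⁻¹' (convexHull ℝ {y | y ∈ G ∧ ∃ x, y = z + Λ x}) := by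
      refine convexHull_min ?_ ((convex_convexHull ℝ _).linear_preimage _)
      rintro y ⟨hy1, hy2⟩
      refine subset_convexHull ℝ _ ⟨?_, ?_⟩
      · show Γ z • y ∈ G
        have h3 := hGs _ hy2 (Γ z * gauge ((LinearMap.range Λ).mkQ '' K)
          ((LinearMap.range Λ).mkQ ((Γ z)⁻¹ • z))) (mul_nonneg hp.le hg.le) (by
            calc Γ z * _ ≤ Γ z * (Γ z)⁻¹ := mul_le_mul_of_nonneg_left hle hp.le
              _ = 1 := mul_inv_cancel₀ hp.ne')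
        rwa [smul_smul, mul_assoc, mul_inv_cancel₀ hg.ne', mul_one] at h3
      · show ∃ x, Γ z • y = z + Λ x
        apply (B4_eq Λ).1
        rw [map_smul, hy1, ← map_smul, smul_smul, mul_inv_cancel₀ hp.ne', one_smul]
    exact h2 h1

end Pool.Agent.LibDQ20
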