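import Pool.Agent.LibDQ20.A1

/-!
[DQ20 B5] (SMALL) COMPACTNESS. The set of `(s, y)` in `[0,1] × D` with `ρ₁ ≤ N Λ y` and `c ≤ ‖s • y‖` is compact, and `N Λ (s • y) > 0` on it: `N Λ (s • y) = 0` means `s • y ∈ range Λ`; `s ≠ 0` since `‖s • y‖ ≥ c > 0`, so `y ∈ range Λ`, `N Λ y = 0 < ρ₁`. Take `ρ` = a quarter of the minimum (or `1` if the set is empty).
`Gd` open: `Small` is open; the set of `y` for which there is `s ∈ [0,1]` with `N Λ (s • y) ≤ 2ρ` and `‖s • y‖ ≥ c` is closed (projection along the compact `[0,1]`: `IsCompact.isClosedMap_snd`/`isClosedMap_snd_of_compactSpace`). `Gd` star shaped: `infDist (s • y) (K - K) ≤ infDist y (K - K)` as `s • (K - K) ⊆ K - K` (`0 ∈ K` convex) and `‖s • y - s • k‖ ≤ ‖y - k‖`; `s' • (s • y) = (s' s) • y`.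
-/

namespace Pool.Agent.LibDQ20

open scoped Pointwise

variable {E : Type*} [NormedAddCommGroup E] [Module ℝ E] [ContinuousSMul ℝ E] {d : ℕ} {Λ : (Fin d → ℝ) →ₗ[ℝ] E} {K : Set E}

private theorem B5_norm_smul_le (hF : ∀ (t : ℝ) (x : E), |t| ≤ 1 → ‖t • x‖ ≤ ‖x‖) {s : ℝ} (hs : 0 ≤ s) (hs1 : s ≤ 1) (y : E) :
    ‖s • y‖ ≤ ‖y‖ := hF s y (by rw [abs_of_nonneg hs]; exact hs1)

theorem small_scale (Λ : (Fin d → ℝ) →ₗ[ℝ] E) {D : Set E} (hD : IsCompact D) {c ρ₁ : ℝ} (hc : 0 < c) (hρ : 0 < ρ₁) :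
    ∃ ρ : ℝ, 0 < ρ ∧ ∀ y ∈ D, ρ₁ ≤ N Λ y → ∀ s : ℝ, 0 ≤ s → s ≤ 1 → N Λ (s • y) ≤ 2 * ρ → ‖s • y‖ < c := by
  set P : Set (ℝ × E) := (Set.Icc (0 : ℝ) 1 ×ˢ D) ∩ {p | ρ₁ ≤ N Λ p.2 ∧ c ≤ ‖p.1 • p.2‖} with hP
  have hcl : IsClosed {p : ℝ × E | ρ₁ ≤ N Λ p.2 ∧ c ≤ ‖p.1 • p.2‖} := by
    apply IsClosed.inter
    · exact isClosed_le continuous_const ((N_cont Λ).comp continuous_snd)
    · exact isClosed_le continuous_const (continuous_fst.smul continuous_snd).norm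
  have hcomp : IsCompact P := (isCompact_Icc.prod hD).inter_right hcl
  rcases P.eq_empty_or_nonempty with he | hne
  · refine ⟨1, one_pos, fun y hy hy1 s hs hs1 _ => ?_⟩
    by_contra hcon
    have hmem : (s, y) ∈ P := ⟨⟨⟨hs, hs1⟩, hy⟩, hy1, not_lt.1 hcon⟩
    rw [he] at hmem
    exact hmem
  · obtain ⟨p, hp, hmin⟩ := hcomp.exists_isMinOn hne
      (f := fun p : ℝ × E => N Λ (p.1 • p.2))
      ((N_cont Λ).comp (continuous_fst.smul continuous_snd)).continuousOn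
    have hpos : 0 < N Λ (p.1 • p.2) := by
      rcases lt_or_eq_of_le (N_nonneg Λ (p.1 • p.2)) with h | h
      · exact h
      · exfalso
        obtain ⟨x, hx⟩ := N_zero Λ h.symm
        obtain ⟨⟨⟨h0, h1⟩, hpD⟩, hp1, hp2⟩ := hp
        have hs0 : p.1 ≠ 0 := by
          intro h00
          rw [h00, zero_smul, norm_zero] at hp2
          exact absurd hc (not_lt.2 hp2)
        have hy : p.2 = Λ (p.1⁻¹ • x) := by
          rw [map_smul, ← hx, smul_smul, inv_mul_cancel₀ hs0, one_smul]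
        have hN : N Λ p.2 = 0 := by
          unfold N
          exact Metric.infDist_zero_of_mem ⟨_, hy.symm⟩
        rw [hN] at hp1
        exact absurd hρ (not_lt.2 hp1)
    refine ⟨N Λ (p.1 • p.2) / 4, by positivity, fun y hy hy1 s hs hs1 hN => ?_⟩
    by_contra hcon
    have hmem : (s, y) ∈ P := ⟨⟨⟨hs, hs1⟩, hy⟩, hy1, not_lt.1 hcon⟩
    have h5 : N Λ (p.1 • p.2) ≤ N Λ (s • y) := hmin hmem
    linarith

private theorem B5_small_open (K : Set E) (δ' η' : ℝ) : IsOpen (Small K δ' η') :=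
  (isOpen_lt (Metric.continuous_infDist_pt _) continuous_const).inter (isOpen_lt continuous_norm continuous_const)

theorem Gd_open (Λ : (Fin d → ℝ) →ₗ[ℝ] E) (K : Set E) (δ' η' ρ c : ℝ) : IsOpen (Gd K Λ δ' η' ρ c) := by
  have h1 : IsClosed {q : Set.Icc (0 : ℝ) 1 × E | N Λ ((q.1 : ℝ) • q.2) ≤ 2 * ρ ∧ c ≤ ‖(q.1 : ℝ) • q.2‖} := by
    have hc : Continuous fun q : Set.Icc (0 : ℝ) 1 × E => (q.1 : ℝ) • q.2 :=
      (continuous_subtype_val.comp continuous_fst).smul continuous_snd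
    apply IsClosed.inter
    · exact isClosed_le ((N_cont Λ).comp hc) continuous_const
    · exact isClosed_le continuous_const hc.norm
  have h2 := isClosedMap_snd_of_compactSpace _ h1
  have h3 : Gd K Λ δ' η' ρ c = Small K δ' η' ∩
      (Prod.snd '' {q : Set.Icc (0 : ℝ) 1 × E | N Λ ((q.1 : ℝ) • q.2) ≤ 2 * ρ ∧ c ≤ ‖(q.1 : ℝ) • q.2‖})ᶜ := by
    ext y
    constructor
    · rintro ⟨hy, hy2⟩
      refine ⟨hy, ?_⟩
      rintro ⟨⟨s, z⟩, ⟨hq1, hq2⟩, hqz⟩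
      simp only at hqz hq1 hq2
      subst hqz
      exact absurd (hy2 s s.2.1 s.2.2 hq1) (not_lt.2 hq2)
    · rintro ⟨hy, hy2⟩
      refine ⟨hy, fun s hs hs1 hN => ?_⟩
      by_contra hcon
      exact hy2 ⟨(⟨s, hs, hs1⟩, y), ⟨hN, not_lt.1 hcon⟩, rfl⟩
  rw [h3]
  exact (B5_small_open K δ' η').inter h2.isOpen_compl

theorem small_star (hF : ∀ (t : ℝ) (x : E), |t| ≤ 1 → ‖t • x‖ ≤ ‖x‖) (hc : Convex ℝ K) (h0 : (0 : E) ∈ K) {δ' η' : ℝ} {y : E}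
    (hy : y ∈ Small K δ' η') {s : ℝ} (hs : 0 ≤ s) (hs1 : s ≤ 1) : s • y ∈ Small K δ' η' := by
  obtain ⟨h1, h2⟩ := hy
  have hne : (K - K).Nonempty := ⟨0 - 0, Set.sub_mem_sub h0 h0⟩
  refine ⟨?_, lt_of_le_of_lt (B5_norm_smul_le hF hs hs1 y) h2⟩
  rw [Metric.infDist_lt_iff hne] at h1 ⊢
  obtain ⟨k, hk, hd⟩ := h1
  obtain ⟨a, ha, b, hb, hab⟩ := Set.mem_sub.1 hk
  refine ⟨s • a - s • b, Set.sub_mem_sub (hc.smul_mem_of_zero_mem h0 ha ⟨hs, hs1⟩) (hc.smul_mem_of_zero_mem h0 hb ⟨hs, hs1⟩), ?_⟩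
  rw [← smul_sub, hab, dist_eq_norm, ← smul_sub]
  rw [dist_eq_norm] at hd
  exact lt_of_le_of_lt (B5_norm_smul_le hF hs hs1 _) hd

theorem Gd_star (hF : ∀ (t : ℝ) (x : E), |t| ≤ 1 → ‖t • x‖ ≤ ‖x‖) (hc : Convex ℝ K) (h0 : (0 : E) ∈ K) {δ' η' ρ c : ℝ} {y : E}
    (hy : y ∈ Gd K Λ δ' η' ρ c) {s : ℝ} (hs : 0 ≤ s) (hs1 : s ≤ 1) : s • y ∈ Gd K Λ δ' η' ρ c := by
  obtain ⟨h1, h2⟩ := hy
  refine ⟨small_star hF hc h0 h1 hs hs1, fun s' hs' hs1' hN => ?_⟩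
  rw [smul_smul] at hN ⊢
  exact h2 (s' * s) (mul_nonneg hs' hs) (mul_le_one₀ hs1' hs hs1) hN

/-- very small vectors are good -/
theorem Gd_of_small (hF : ∀ (t : ℝ) (x : E), |t| ≤ 1 → ‖t • x‖ ≤ ‖x‖) (h0 : (0 : E) ∈ K) {δ' η' ρ c : ℝ} {y : E}
    (h1 : ‖y‖ < δ') (h2 : ‖y‖ < η') (h3 : ‖y‖ < c) : y ∈ Gd K Λ δ' η' ρ c := by
  refine ⟨⟨?_, h1⟩, fun s hs hs1 _ => lt_of_le_of_lt (B5_norm_smul_le hF hs hs1 y) h3⟩
  have hm : (0 : E) ∈ K - K := by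
    have := Set.sub_mem_sub h0 h0
    rwa [sub_zero] at this
  refine lt_of_le_of_lt (Metric.infDist_le_dist_of_mem hm) ?_
  rw [dist_zero_right]
  exact h2

end Pool.Agent.LibDQ20
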