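import Pool.Agent.LibDQ20.B5

/-!
[DQ20 C1] (SMALL) PARAMETERS. `ρ₁ = min c (min η' δ') / 3`, `ρ₂` from `small_scale` for `D = K - K`, `c`, `ρ₁`; `ρ = min ρ₂ ρm`. Let `z ∈ K`, `ρ ≤ N Λ z`. If `ρ₁ ≤ N Λ z`: `y = z - Λ x` from `hq` (`Λ x ∈ K`), `y ∈ K - K` (`infDist = 0 < η'`), `‖y‖ ≤ δ < δ'`, `N Λ y = N Λ z ≥ ρ₁`, and `small_scale`. If `N Λ z < ρ₁`: `N_lt` gives `x` with `‖z - Λ x‖ < ρ₁`, `Gd_of_small`. (`z + Λ (-x)`.)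
-/

namespace Pool.Agent.LibDQ20

open scoped Pointwise

theorem exists_rho {E : Type*} [NormedAddCommGroup E] [Module ℝ E] [ContinuousSMul ℝ E]
    (hF : ∀ (t : ℝ) (x : E), |t| ≤ 1 → ‖t • x‖ ≤ ‖x‖) {d : ℕ} {Λ : (Fin d → ℝ) →ₗ[ℝ] E} {K : Set E} (hK : IsCompact K)
    (h0 : (0 : E) ∈ K) {δ δ' η' c ρm : ℝ} (hδ : δ < δ') (hδ0 : 0 ≤ δ) (hη : 0 < η') (hc : 0 < c) (hρ : 0 < ρm)
    (hq : ∀ z ∈ K, ∃ x, Λ x ∈ K ∧ ‖z - Λ x‖ ≤ δ) :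
    ∃ ρ : ℝ, 0 < ρ ∧ ρ ≤ ρm ∧ ∀ z ∈ K, ρ ≤ N Λ z → ∃ x, z + Λ x ∈ Gd K Λ δ' η' ρ c := by
  have hm : 0 < min c (min η' δ') := lt_min hc (lt_min hη (lt_of_le_of_lt hδ0 hδ))
  have hm1 : min c (min η' δ') ≤ c := min_le_left _ _
  have hm2 : min c (min η' δ') ≤ η' := (min_le_right _ _).trans (min_le_left _ _)
  have hm3 : min c (min η' δ') ≤ δ' := (min_le_right _ _).trans (min_le_right _ _)
  generalize min c (min η' δ') = m at hm hm1 hm2 hm3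
  have hρ₁ : 0 < m / 3 := by positivity
  have hD : IsCompact (K - K) := by
    rw [← Set.sub_image_prod]
    exact (hK.prod hK).image continuous_sub
  obtain ⟨ρ₂, hρ₂, h₂⟩ := small_scale Λ hD hc hρ₁
  refine ⟨min ρ₂ ρm, lt_min hρ₂ hρ, min_le_right _ _, fun z hz _ => ?_⟩
  rcases le_or_gt (m / 3) (N Λ z) with h | h
  · obtain ⟨x, hx, hzx⟩ := hq z hz
    have e : z + Λ (-x) = z - Λ x := by rw [map_neg, sub_eq_add_neg]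
    have hmem : z + Λ (-x) ∈ K - K := by rw [e]; exact Set.sub_mem_sub hz hx
    refine ⟨-x, ⟨⟨?_, ?_⟩, ?_⟩⟩
    · rw [Metric.infDist_zero_of_mem hmem]; exact hη
    · rw [e]; exact lt_of_le_of_lt hzx hδ
    · intro s hs0 hs1 hN
      refine h₂ _ hmem ?_ s hs0 hs1 (hN.trans ?_)
      · rw [N_add]; exact h
      · have := min_le_left ρ₂ ρm
        linarith
  · obtain ⟨x, hx⟩ := N_lt Λ h
    have e : z + Λ (-x) = z - Λ x := by rw [map_neg, sub_eq_add_neg]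
    refine ⟨-x, ?_⟩
    rw [e]
    exact Gd_of_small hF h0 (by linarith) (by linarith) (by linarith)

end Pool.Agent.LibDQ20
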