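import Pool.Agent.LibDQ20.A4
import Pool.Agent.LibDQ20.A5
import Pool.Agent.LibDQ20.B4
import Pool.Agent.LibDQ20.C1

/-!
[DQ20 C2] (LARGE) THE SECTION `σ`. Let `m = min c (min η' δ')`, `c_P > 0` with `‖v‖ ≤ c_P → ‖Λ v‖ ≤ m / 2` (A3 `ctrl`), `η_P, P` from A5 for `c_P`, `ρm = min (η_P / 3) (m / 8)`, `ρ` from C1 (so `2 * ρ < η_P`), `Γ` from A4 with this `ρ`, `Z₀ = {z ∈ K | ρ ≤ N Λ z}`, `σh` from B4 with `G = Gd K Λ δ' η' ρ c` (`hZu`: `N_smul_ge`, `N_add`).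
`κ t = max 0 (min 1 ((t - ρ) / ρ))`, `σ z = κ (N Λ z) • σh z + (1 - κ (N Λ z)) • (z - Λ (P z))`.
If `N Λ z < 2 * ρ` then `‖z - Λ (P z)‖ < m`: `N_lt` gives `x` with `‖z - Λ x‖ < 2 * ρ ≤ m / 4` (`< η_P`), `‖P z - x‖ ≤ c_P`; so `z - Λ (P z) ∈ Gd` (`Gd_of_small`) is in the fibre of `z`. CONTINUITY on `K`: closed pieces `N ≤ ρ`, `ρ ≤ N ≤ 2ρ`, `2ρ ≤ N` (`σh` continuous on `Zc ⊇ Z₀`, `P` on `N < η_P`; where a coefficient vanishes the other summand is not needed; at `N = ρ` and `N = 2ρ` the coefficients are continuous and both functions are continuous on the closed middle piece).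
`hull`: a convex combination of two elements of the convex hull (`κ = 0` for `N ≤ ρ`, `κ = 1` for `N ≥ 2ρ`). `ex`: `2ρ ≤ N (s • z)` forces `s > 0`, `N z ≥ N (s • z)`, both coefficients are `1`.
-/

namespace Pool.Agent.LibDQ20

private noncomputable def C2_k (ρ t : ℝ) : ℝ := max 0 (min 1 ((t - ρ) / ρ))

private theorem C2_k_cont (ρ : ℝ) : Continuous (C2_k ρ) := by
  unfold C2_k
  fun_prop

private theorem C2_k_zero {ρ t : ℝ} (hρ : 0 < ρ) (h : t ≤ ρ) : C2_k ρ t = 0 := by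
  unfold C2_k
  apply max_eq_left
  refine (min_le_right _ _).trans ?_
  exact div_nonpos_of_nonpos_of_nonneg (by linarith) hρ.le

private theorem C2_k_one {ρ t : ℝ} (hρ : 0 < ρ) (h : 2 * ρ ≤ t) : C2_k ρ t = 1 := by
  unfold C2_k
  have : 1 ≤ (t - ρ) / ρ := by
    rw [le_div_iff₀ hρ]; linarith
  rw [min_eq_left this]
  exact max_eq_right zero_le_one

private theorem C2_k_nonneg (ρ t : ℝ) : 0 ≤ C2_k ρ t := le_max_left _ _

private theorem C2_k_le (ρ t : ℝ) : C2_k ρ t ≤ 1 := max_le zero_le_one (min_le_left _ _)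

theorem section_aux {E : Type*} [NormedAddCommGroup E] [Module ℝ E] [ContinuousSMul ℝ E]
    (hF : ∀ (t : ℝ) (x : E), |t| ≤ 1 → ‖t • x‖ ≤ ‖x‖) {d : ℕ} {Λ : (Fin d → ℝ) →ₗ[ℝ] E} (hΛ : Function.Injective Λ)
    {K : Set E} (hK : IsCompact K) (hc : Convex ℝ K) (h0 : (0 : E) ∈ K) {δ δ' η' c : ℝ} (hδ : δ < δ') (hδ0 : 0 ≤ δ)
    (hη : 0 < η') (hc0 : 0 < c) (hq : ∀ z ∈ K, ∃ x, Λ x ∈ K ∧ ‖z - Λ x‖ ≤ δ) :
    ∃ (ρ : ℝ) (σ : E → E), 0 < ρ ∧ ContinuousOn σ K ∧ (∀ z ∈ K, ∃ x, z - σ z = Λ x) ∧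
      (∀ z ∈ K, ∀ x, z + Λ x ∈ K → σ (z + Λ x) = σ z) ∧
      (∀ z ∈ K, σ z ∈ convexHull ℝ {y | y ∈ Gd K Λ δ' η' ρ c ∧ ∃ x, y = z + Λ x}) ∧
      ∀ z ∈ K, ∀ s : ℝ, 0 ≤ s → s ≤ 1 → 2 * ρ ≤ N Λ (s • z) → σ (s • z) = s • σ z := by
  have hδ' : 0 < δ' := lt_of_le_of_lt hδ0 hδ
  set m : ℝ := min c (min η' δ') with hm
  have hm0 : 0 < m := lt_min hc0 (lt_min hη hδ')
  have hmc : m ≤ c := min_le_left _ _
  have hmη : m ≤ η' := (min_le_right _ _).trans (min_le_left _ _)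
  have hmδ : m ≤ δ' := (min_le_right _ _).trans (min_le_right _ _)
  obtain ⟨cP, hcP, hcPΛ⟩ := ctrl Λ (half_pos hm0)
  obtain ⟨ηP, P, hηP, hPc, hPe, hPn, -⟩ := exists_eqproj hF hΛ hcP
  have hρm : 0 < min (ηP / 3) (m / 8) := lt_min (by positivity) (by positivity)
  obtain ⟨ρ, hρ, hρle, hρK⟩ := exists_rho hF hK h0 hδ hδ0 hη hc0 hρm hq
  have hρη : 2 * ρ < ηP := by
    have := hρle.trans (min_le_left _ _)
    linarith
  have hρm8 : ρ ≤ m / 8 := hρle.trans (min_le_right _ _)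
  obtain ⟨Γ, hΓ, hΓs, hΓv, -, hΓpos⟩ := exists_gamma hF Λ hρ
  set Z₀ : Set E := {z | z ∈ K ∧ ρ ≤ N Λ z} with hZ₀
  obtain ⟨σh, hσc, hσs, hσv, hσh⟩ := hom_section hF hΛ hK hc h0 (Gd_open Λ K δ' η' ρ c)
    (fun y hy s hs hs1 => Gd_star hF hc h0 hy hs hs1) hΓ hΓs hΓv (Z₀ := Z₀) (fun z hz => hz.1)
    (fun z hz => hΓpos z hz.2)
    (fun z hz t x ht hx => ⟨hx, by rw [N_add]; exact hz.2.trans (N_smul_ge Λ hF ht z)⟩)
    (fun z hz => hρK z hz.1 hz.2)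
  have hZc : ∀ z ∈ K, ρ ≤ N Λ z → z ∈ Zc Λ Z₀ := fun z hz h =>
    ⟨1, one_pos, 0, by simpa using (show z ∈ Z₀ from ⟨hz, h⟩)⟩
  have hsm : ∀ z, N Λ z < 2 * ρ → z - Λ (P z) ∈ {y | y ∈ Gd K Λ δ' η' ρ c ∧ ∃ x, y = z + Λ x} := by
    intro z hz
    have hn : ‖z - Λ (P z)‖ < m := by
      obtain ⟨x, hx⟩ := N_lt Λ hz
      have h1 : ‖P z - x‖ ≤ cP := hPn z x (hx.trans hρη)
      have h2 := hcPΛ _ h1
      have h3 : z - Λ (P z) = (z - Λ x) - Λ (P z - x) := by rw [map_sub]; abel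
      rw [h3]
      refine (norm_sub_le _ _).trans_lt ?_
      linarith
    refine ⟨Gd_of_small hF h0 (hn.trans_le hmδ) (hn.trans_le hmη) (hn.trans_le hmc), -P z, ?_⟩
    rw [map_neg]; abel
  set σ : E → E := fun z => C2_k ρ (N Λ z) • σh z + (1 - C2_k ρ (N Λ z)) • (z - Λ (P z)) with hσdef
  have hσlow : ∀ z, N Λ z ≤ ρ → σ z = z - Λ (P z) := by
    intro z hz
    simp only [hσdef, C2_k_zero hρ hz, zero_smul, sub_zero, one_smul, zero_add]
  have hσhigh : ∀ z, 2 * ρ ≤ N Λ z → σ z = σh z := by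
    intro z hz
    simp only [hσdef, C2_k_one hρ hz, sub_self, zero_smul, one_smul, add_zero]
  have hull : ∀ z ∈ K, σ z ∈ convexHull ℝ {y | y ∈ Gd K Λ δ' η' ρ c ∧ ∃ x, y = z + Λ x} := by
    intro z hz
    rcases le_or_gt (2 * ρ) (N Λ z) with h2 | h2
    · rw [hσhigh z h2]
      exact hσh z (hZc z hz (by linarith)) hz
    · rcases le_or_gt (N Λ z) ρ with h1 | h1
      · rw [hσlow z h1]
        exact subset_convexHull ℝ _ (hsm z h2)
      · exact (convex_convexHull ℝ _) (hσh z (hZc z hz h1.le) hz) (subset_convexHull ℝ _ (hsm z h2))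
          (C2_k_nonneg _ _) (sub_nonneg.2 (C2_k_le _ _)) (by ring)
  refine ⟨ρ, σ, hρ, ?_, ?_, ?_, hull, ?_⟩
  · -- continuity
    have hΛc : Continuous Λ := LinearMap.continuous_of_finiteDimensional Λ
    have hNc := N_cont Λ
    have hKcl : IsClosed K := hK.isClosed
    have hcover : K = (K ∩ {z | N Λ z ≤ ρ}) ∪ ((K ∩ {z | ρ ≤ N Λ z ∧ N Λ z ≤ 2 * ρ}) ∪ (K ∩ {z | 2 * ρ ≤ N Λ z})) := by
      ext z
      simp only [Set.mem_union, Set.mem_inter_iff, Set.mem_ofPred_eq]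
      constructor
      · intro hz
        rcases le_total (N Λ z) ρ with h | h
        · exact Or.inl ⟨hz, h⟩
        · rcases le_total (N Λ z) (2 * ρ) with h' | h'
          · exact Or.inr (Or.inl ⟨hz, h, h'⟩)
          · exact Or.inr (Or.inr ⟨hz, h'⟩)
      · rintro (h | h | h) <;> exact h.1
    have hl : ContinuousOn (fun z => z - Λ (P z)) (K ∩ {z | N Λ z ≤ 2 * ρ}) := by
      refine continuousOn_id.sub (hΛc.comp_continuousOn (hPc.mono ?_))
      intro z hz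
      exact lt_of_le_of_lt hz.2 hρη
    have c1 : ContinuousOn σ (K ∩ {z | N Λ z ≤ ρ}) := by
      refine (hl.mono ?_).congr (fun z hz => hσlow z hz.2)
      rintro z ⟨hz, hz'⟩
      exact ⟨hz, le_trans (show N Λ z ≤ ρ from hz') (by linarith)⟩
    have c2 : ContinuousOn σ (K ∩ {z | ρ ≤ N Λ z ∧ N Λ z ≤ 2 * ρ}) := by
      have hk : Continuous fun z => C2_k ρ (N Λ z) := (C2_k_cont ρ).comp hNc
      refine (hk.continuousOn.smul (hσc.mono ?_)).add
        ((continuous_const.sub hk).continuousOn.smul (hl.mono ?_))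
      · intro z hz
        exact hZc z hz.1 hz.2.1
      · intro z hz
        exact ⟨hz.1, hz.2.2⟩
    have c3 : ContinuousOn σ (K ∩ {z | 2 * ρ ≤ N Λ z}) := by
      refine (hσc.mono ?_).congr (fun z hz => hσhigh z hz.2)
      rintro z ⟨hz, hz'⟩
      exact hZc z hz (le_trans (by linarith) (show 2 * ρ ≤ N Λ z from hz'))
    have k1 : IsClosed (K ∩ {z | N Λ z ≤ ρ}) := hKcl.inter (isClosed_le hNc continuous_const)
    have k2 : IsClosed (K ∩ {z | ρ ≤ N Λ z ∧ N Λ z ≤ 2 * ρ}) :=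
      hKcl.inter ((isClosed_le continuous_const hNc).inter (isClosed_le hNc continuous_const))
    have k3 : IsClosed (K ∩ {z | 2 * ρ ≤ N Λ z}) := hKcl.inter (isClosed_le continuous_const hNc)
    rw [hcover]
    exact c1.union_of_isClosed (c2.union_of_isClosed c3 k2 k3) k1 (k2.union k3)
  · -- fibre
    intro z hz
    have hsub : convexHull ℝ {y | y ∈ Gd K Λ δ' η' ρ c ∧ ∃ x, y = z + Λ x} ⊆ {y | ∃ x, y = z + Λ x} := by
      refine convexHull_min (fun y hy => hy.2) ?_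
      rintro _ ⟨x, rfl⟩ _ ⟨y, rfl⟩ a b - - hab
      refine ⟨a • x + b • y, ?_⟩
      rw [map_add, map_smul, map_smul, smul_add, smul_add]
      have : z = a • z + b • z := by rw [← add_smul, hab, one_smul]
      nth_rw 3 [this]
      abel
    obtain ⟨x, hx⟩ := hsub (hull z hz)
    exact ⟨-x, by rw [hx, map_neg]; abel⟩
  · -- invariance
    intro z hz x hx
    rcases le_or_gt (2 * ρ) (N Λ z) with h2 | h2
    · rw [hσhigh z h2, hσhigh _ (by rw [N_add]; exact h2)]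
      exact hσv z (hZc z hz (by linarith)) x
    · have hl : (z + Λ x) - Λ (P (z + Λ x)) = z - Λ (P z) := by
        rw [hPe z (h2.trans hρη) x, map_add]; abel
      rcases le_or_gt (N Λ z) ρ with h1 | h1
      · rw [hσlow z h1, hσlow _ (by rw [N_add]; exact h1), hl]
      · simp only [hσdef, N_add, hl, hσv z (hZc z hz h1.le) x]
  · -- homogeneity
    intro z hz s hs hs1 h2
    have hs0 : 0 < s := by
      rcases hs.lt_or_eq with h | h
      · exact h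
      · exfalso
        rw [← h, zero_smul] at h2
        have := N_le_norm Λ (0 : E)
        rw [norm_zero] at this
        linarith
    have hN : N Λ (s • z) ≤ N Λ z := N_smul_le Λ hF (by rw [abs_of_nonneg hs]; exact hs1) z
    have h2' : 2 * ρ ≤ N Λ z := h2.trans hN
    rw [hσhigh _ h2, hσhigh z h2']
    exact hσs z (hZc z hz (by linarith)) s hs0

end Pool.Agent.LibDQ20
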