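import Pool.Agent.LibDQ20.A2
import Pool.Agent.LibDQ20.A3
import Pool.Agent.LibDQ20.C2

/-!
[DQ20 C3] (MEDIUM) `σ` IS AN APPROXIMATE SECTION (`Sec`). `μ` from `ctrl_inv` for `c`; `c₁ = μ / (2 * (d + 1))`; `ρ, σ` from C2 with `c₁`. `hull`: `Gd ⊆ Small`. `star`: if `2ρ ≤ N Λ (s • z)` exact (`v = 0`). Otherwise `N Λ (s • z) < 2ρ`. `σ (s • z)` is in the hull of `y ∈ Gd`, `y = s • z + Λ x` (`s • z ∈ K`): `N Λ y = N Λ (s • z) ≤ 2ρ`, so `‖y‖ < c₁` (`s = 1` in `Gd`), and by `carath_fibre` it is a combination of `d + 1` of them: `‖σ (s • z)‖ ≤ (d + 1) * c₁` (`LibGC20.norm_sum_smul_le`).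
`s • σ z` is in the same way a combination of `d + 1` vectors `s • y`, `y ∈ Gd`, `y = z + Λ x`, `N Λ (s • y) = N Λ (s • z) ≤ 2ρ`, so `‖s • y‖ < c₁`. The difference is in `range Λ` (`fib`: `s • z - σ (s • z)` and `s • (z - σ z)` are) with norm `≤ 2 * (d + 1) * c₁ = μ`.
-/

namespace Pool.Agent.LibDQ20

private theorem C3_abs_le {n : ℕ} {w : Fin n → ℝ} (h0 : ∀ i, 0 ≤ w i) (h1 : ∑ i, w i = 1) :
    ∀ i ∈ (Finset.univ : Finset (Fin n)), |w i| ≤ 1 := by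
  intro i hi
  rw [abs_of_nonneg (h0 i), ← h1]
  exact Finset.single_le_sum (fun j _ => h0 j) hi

theorem exists_section {E : Type*} [NormedAddCommGroup E] [Module ℝ E] [ContinuousSMul ℝ E]
    (hF : ∀ (t : ℝ) (x : E), |t| ≤ 1 → ‖t • x‖ ≤ ‖x‖) {d : ℕ} {Λ : (Fin d → ℝ) →ₗ[ℝ] E} (hΛ : Function.Injective Λ)
    {K : Set E} (hK : IsCompact K) (hc : Convex ℝ K) (h0 : (0 : E) ∈ K) {δ δ' η' c : ℝ} (hδ : δ < δ') (hδ0 : 0 ≤ δ)
    (hη : 0 < η') (hc0 : 0 < c) (hq : ∀ z ∈ K, ∃ x, Λ x ∈ K ∧ ‖z - Λ x‖ ≤ δ) : ∃ σ, Sec K Λ δ' η' c σ := by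
  obtain ⟨μ, hμ, hctrl⟩ := ctrl_inv hF hΛ hc0
  have hd : (0 : ℝ) < 2 * ((d : ℝ) + 1) := by positivity
  have hc₁ : 0 < μ / (2 * ((d : ℝ) + 1)) := div_pos hμ hd
  obtain ⟨ρ, σ, hρ, hcont, hfib, hinv, hhull, hex⟩ := section_aux hF hΛ hK hc h0 hδ hδ0 hη hc₁ hq
  refine ⟨σ, ⟨hcont, hfib, hinv, ?_, ?_⟩⟩
  · intro z hz
    refine convexHull_mono ?_ (hhull z hz)
    rintro y ⟨⟨h1, _⟩, h2⟩
    exact ⟨h1, h2⟩
  · intro z hz s hs0 hs1
    by_cases hN : 2 * ρ ≤ N Λ (s • z)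
    · refine ⟨0, by rw [norm_zero]; exact hc0.le, ?_⟩
      rw [hex z hz s hs0 hs1 hN, sub_self, map_zero]
    · have hN' : N Λ (s • z) ≤ 2 * ρ := le_of_lt (not_le.mp hN)
      have hsz : s • z ∈ K := hc.smul_mem_of_zero_mem h0 hz ⟨hs0, hs1⟩
      obtain ⟨x1, hx1⟩ := hfib (s • z) hsz
      obtain ⟨x2, hx2⟩ := hfib z hz
      have key : σ (s • z) - s • σ z = Λ (s • x2 - x1) := by
        rw [map_sub, map_smul, ← hx1, ← hx2, smul_sub]
        abel
      have hcard : ((Finset.univ : Finset (Fin (d + 1))).card : ℝ) = (d : ℝ) + 1 := by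
        rw [Finset.card_univ, Fintype.card_fin]
        push_cast
        ring
      have b1 : ‖σ (s • z)‖ ≤ ((d : ℝ) + 1) * (μ / (2 * ((d : ℝ) + 1))) := by
        obtain ⟨w, y, hw0, hw1, hy, ha⟩ := carath_fibre Λ (hhull (s • z) hsz)
        rw [ha, ← hcard]
        refine LibGC20.norm_sum_smul_le hF Finset.univ w y (C3_abs_le hw0 hw1) ?_
        intro i _
        obtain ⟨⟨_, hG⟩, x, hx⟩ := hy i
        have h1 := hG 1 zero_le_one le_rfl
        rw [one_smul] at h1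
        have hNy : N Λ (y i) ≤ 2 * ρ := by
          rw [hx, N_add]
          exact hN'
        have h2 := h1 hNy
        rw [hcard]
        exact h2.le
      have b2 : ‖s • σ z‖ ≤ ((d : ℝ) + 1) * (μ / (2 * ((d : ℝ) + 1))) := by
        obtain ⟨w, y, hw0, hw1, hy, ha⟩ := carath_fibre Λ (hhull z hz)
        have he : s • σ z = ∑ i, w i • (s • y i) := by
          rw [ha, Finset.smul_sum]
          refine Finset.sum_congr rfl (fun i _ => ?_)
          rw [smul_comm]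
        rw [he, ← hcard]
        refine LibGC20.norm_sum_smul_le hF Finset.univ w (fun i => s • y i) (C3_abs_le hw0 hw1) ?_
        intro i _
        obtain ⟨⟨_, hG⟩, x, hx⟩ := hy i
        have h1 := hG s hs0 hs1
        have hNy : N Λ (s • y i) ≤ 2 * ρ := by
          rw [hx, smul_add, ← map_smul, N_add]
          exact hN'
        have h2 := h1 hNy
        rw [hcard]
        exact h2.le
      refine ⟨s • x2 - x1, hctrl _ ?_, key⟩
      rw [← key]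
      have h3 : ((d : ℝ) + 1) * (μ / (2 * ((d : ℝ) + 1))) = μ / 2 := by
        field_simp
      calc ‖σ (s • z) - s • σ z‖ ≤ ‖σ (s • z)‖ + ‖s • σ z‖ := norm_sub_le _ _
        _ ≤ μ / 2 + μ / 2 := by
          rw [← h3]
          exact add_le_add b1 b2
        _ = μ := by ring

end Pool.Agent.LibDQ20
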