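import Pool.Agent.LibDQ20.A2
import Pool.Agent.LibDQ20.A3

/-!
[DQ20 C4] (SMALL) THE RETRACTION `r` AND THE CONVEX SET `U₀`. `r z` = the `x` of `Sec.fib`; continuous on `K` by `cont_of_comp` (`Λ (r z) = z - σ z`). `U₀ K Λ δ' η' = convexHull ℝ {u | ∃ y ∈ Small, ∃ y' ∈ Small, Λ u = y - y'}`: symmetric (exchange `y, y'`), contains `0` (`0 ∈ Small`). `r_pos`: `x_p` from `near`, `y = z - Λ x_p ∈ K - K`, `‖y‖ ≤ δ < δ'`, `y ∈ Small`; by `Sec.hull` `σ z` is in the convex hull of the `y' ∈ Small` with `y' = z + Λ x`, and `Λ (r z - x_p) = y - σ z`; the affine map `u ↦ y - Λ u` maps `r z - x_p` to `σ z`: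
`r z - x_p ∈ convexHull {u | y - Λ u ∈ Small ..}` (`Λ` injective) `⊆ U₀`. `U₀_norm`: `carath_coord`: `u = ∑ w i • u i`, `Λ u i = y i - y' i`, `‖Λ u‖ ≤ ‖∑ w i • y i‖ + ‖∑ w i • y' i‖ ≤ 2 ε` by `Qual.lc`. `U₀_bdd`: `D = (K - K) - (K - K)`, `η, B` from `bdd_dir`, `η₁ = min η' (η / 2)`: if `Λ u = y - y'` with `y, y' ∈ Small K δ' η₁` then `infDist (Λ u) D ≤ 2 * η₁ ≤ η`; the closed ball is convex.
-/

namespace Pool.Agent.LibDQ20

variable {E : Type*} [NormedAddCommGroup E] [Module ℝ E] [ContinuousSMul ℝ E] {d : ℕ} {Λ : (Fin d → ℝ) →ₗ[ℝ] E} {K : Set E}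

/-- differences of small vectors in the range of `Λ`, convexified -/
def U₀ (K : Set E) (Λ : (Fin d → ℝ) →ₗ[ℝ] E) (δ' η' : ℝ) : Set (Fin d → ℝ) :=
  convexHull ℝ {u | ∃ y ∈ Small K δ' η', ∃ y' ∈ Small K δ' η', Λ u = y - y'}

theorem U₀_convex (δ' η' : ℝ) : Convex ℝ (U₀ K Λ δ' η') := convex_convexHull ℝ _

theorem U₀_symm {δ' η' : ℝ} {u : Fin d → ℝ} (h : u ∈ U₀ K Λ δ' η') : -u ∈ U₀ K Λ δ' η' := by
  have hs : -{u : Fin d → ℝ | ∃ y ∈ Small K δ' η', ∃ y' ∈ Small K δ' η', Λ u = y - y'} =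
      {u : Fin d → ℝ | ∃ y ∈ Small K δ' η', ∃ y' ∈ Small K δ' η', Λ u = y - y'} := by
    ext v
    simp only [Set.mem_neg, Set.mem_setOf_eq, map_neg]
    constructor
    · rintro ⟨y, hy, y', hy', e⟩
      exact ⟨y', hy', y, hy, by rw [← neg_sub y y', ← e, neg_neg]⟩
    · rintro ⟨y, hy, y', hy', e⟩
      exact ⟨y', hy', y, hy, by rw [e, neg_sub]⟩
  unfold U₀ at h ⊢
  rw [← Set.mem_neg, ← convexHull_neg, hs]
  exact h

theorem U₀_zero (h0 : (0 : E) ∈ K) {δ' η' : ℝ} (hδ : 0 < δ') (hη : 0 < η') : (0 : Fin d → ℝ) ∈ U₀ K Λ δ' η' := by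
  have hz : (0 : E) ∈ Small K δ' η' := by
    refine ⟨?_, by simpa using hδ⟩
    rw [Metric.infDist_zero_of_mem (by exact ⟨0, h0, 0, h0, by simp⟩)]
    exact hη
  exact subset_convexHull ℝ _ ⟨0, hz, 0, hz, by simp⟩

theorem U₀_norm {δ δ' η' ε : ℝ} (hQ : Qual K Λ δ δ' η' ε) {u : Fin d → ℝ} (h : u ∈ U₀ K Λ δ' η') : ‖Λ u‖ ≤ 2 * ε := by
  obtain ⟨w, v, hw, hw1, hv, rfl⟩ := carath_coord h
  choose y hy y' hy' e using hv
  have h1 := hQ.lc w y hw hw1 hy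
  have h2 := hQ.lc w y' hw hw1 hy'
  have e1 : Λ (∑ i, w i • v i) = (∑ i, w i • y i) - ∑ i, w i • y' i := by
    rw [map_sum, ← Finset.sum_sub_distrib]
    refine Finset.sum_congr rfl fun i _ => ?_
    rw [map_smul, e i, smul_sub]
  rw [e1]
  have h3 := norm_sub_le (∑ i, w i • y i) (∑ i, w i • y' i)
  linarith

open scoped Pointwise in
private theorem C4_bdd (hF : ∀ (t : ℝ) (x : E), |t| ≤ 1 → ‖t • x‖ ≤ ‖x‖) (hΛ : Function.Injective Λ) (hK : IsCompact K)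
    (h0 : (0 : E) ∈ K) (δ' : ℝ) {η' : ℝ} (hη : 0 < η') : ∃ η₁ : ℝ, 0 < η₁ ∧ η₁ ≤ η' ∧ Bornology.IsBounded (U₀ K Λ δ' η₁) := by
  have hsub : ∀ A B : Set E, IsCompact A → IsCompact B → IsCompact (A - B) := by
    intro A B hA hB
    have hcont : Continuous fun q : E × E => q.1 - q.2 := continuous_fst.sub continuous_snd
    have h := (hA.prod hB).image hcont
    rwa [Set.image_prod (fun a b : E => a - b), Set.image2_sub] at h
  have hD : IsCompact ((K - K) - (K - K) : Set E) := hsub _ _ (hsub _ _ hK hK) (hsub _ _ hK hK)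
  have h00 : (0 : E) ∈ K - K := ⟨0, h0, 0, h0, by simp⟩
  have hne : ((K - K) - (K - K) : Set E).Nonempty := ⟨0, 0, h00, 0, h00, by simp⟩
  obtain ⟨η, hη0, B, hB⟩ := bdd_dir hF hΛ hD hne
  refine ⟨min η' (η / 2), lt_min hη (by linarith), min_le_left _ _, ?_⟩
  refine Bornology.IsBounded.subset (Metric.isBounded_closedBall (x := (0 : Fin d → ℝ)) (r := B)) ?_
  refine convexHull_min ?_ (convex_closedBall _ _)
  rintro u ⟨y, hy, y', hy', e⟩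
  rw [mem_closedBall_zero_iff]
  apply hB
  obtain ⟨a, ha, hya⟩ := (Metric.infDist_lt_iff ⟨0, h00⟩).1 hy.1
  obtain ⟨b, hb, hyb⟩ := (Metric.infDist_lt_iff ⟨0, h00⟩).1 hy'.1
  have hab : a - b ∈ ((K - K) - (K - K) : Set E) := ⟨a, ha, b, hb, rfl⟩
  refine (Metric.infDist_le_dist_of_mem hab).trans ?_
  rw [e]
  have h1 := dist_sub_sub_le y y' a b
  have h2 : min η' (η / 2) ≤ η / 2 := min_le_right _ _
  linarith

theorem U₀_bdd (hF : ∀ (t : ℝ) (x : E), |t| ≤ 1 → ‖t • x‖ ≤ ‖x‖) (hΛ : Function.Injective Λ) (hK : IsCompact K)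
    (h0 : (0 : E) ∈ K) (δ' : ℝ) {η' : ℝ} (hη : 0 < η') : ∃ η₁ : ℝ, 0 < η₁ ∧ η₁ ≤ η' ∧ Bornology.IsBounded (U₀ K Λ δ' η₁) :=
  C4_bdd hF hΛ hK h0 δ' hη

theorem Qual.mono {δ δ' η' η₁ ε : ℝ} (hQ : Qual K Λ δ δ' η' ε) (h1 : 0 < η₁) (h2 : η₁ ≤ η') : Qual K Λ δ δ' η₁ ε := 
  ⟨hQ.nn, hQ.lt, h1, hQ.near, fun w y hw hw1 hy => hQ.lc w y hw hw1 fun i => ⟨(hy i).1.trans_le h2, (hy i).2⟩⟩

theorem exists_r (hF : ∀ (t : ℝ) (x : E), |t| ≤ 1 → ‖t • x‖ ≤ ‖x‖) (hΛ : Function.Injective Λ) {δ' η' c : ℝ} {σ : E → E}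
    (hσ : Sec K Λ δ' η' c σ) : ∃ r : E → (Fin d → ℝ), ContinuousOn r K ∧ ∀ z ∈ K, z - σ z = Λ (r z) := by
  have h1 : ∀ z, ∃ x, z ∈ K → z - σ z = Λ x := by
    intro z
    by_cases hz : z ∈ K
    · obtain ⟨x, hx⟩ := hσ.fib z hz
      exact ⟨x, fun _ => hx⟩
    · exact ⟨0, fun h => absurd h hz⟩
  choose r hr using h1
  refine ⟨r, ?_, hr⟩
  refine cont_of_comp hF hΛ ?_
  refine (continuousOn_id.sub hσ.cont).congr fun z hz => ?_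
  exact (hr z hz).symm

theorem r_pos (hΛ : Function.Injective Λ) {δ δ' η' ε c : ℝ} (hQ : Qual K Λ δ δ' η' ε) {σ : E → E} (hσ : Sec K Λ δ' η' c σ)
    {z : E} (hz : z ∈ K) {x : Fin d → ℝ} (hx : z - σ z = Λ x) : ∃ p, Λ p ∈ K ∧ x - p ∈ U₀ K Λ δ' η' := by
  obtain ⟨p, hp, hzp⟩ := hQ.near z hz
  refine ⟨p, hp, ?_⟩
  have hy : z - Λ p ∈ Small K δ' η' := by
    refine ⟨?_, hzp.trans_lt hQ.lt⟩
    rw [Metric.infDist_zero_of_mem (by exact ⟨z, hz, Λ p, hp, rfl⟩)]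
    exact hQ.pos
  obtain ⟨w, y, hw, hw1, hyS, e⟩ := carath_fibre Λ (hσ.hull z hz)
  choose hyS v hv using hyS
  have hxe : x - p = ∑ i, w i • (-(v i) - p) := by
    apply hΛ
    rw [map_sub, ← hx, e, map_sum]
    have h1 : ∀ i, Λ (w i • (-(v i) - p)) = w i • (z - Λ p) - w i • y i := by
      intro i
      rw [map_smul, map_sub, map_neg, hv i, ← smul_sub]
      congr 1
      abel
    rw [Finset.sum_congr rfl fun i _ => h1 i, Finset.sum_sub_distrib, ← Finset.sum_smul, hw1, one_smul]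
    abel
  rw [hxe]
  unfold U₀
  refine (convex_convexHull ℝ _).sum_mem (fun i _ => hw i) hw1 fun i _ => subset_convexHull ℝ _ ?_
  refine ⟨z - Λ p, hy, y i, hyS i, ?_⟩
  rw [map_sub, map_neg, hv i]
  abel

theorem sec_norm {δ δ' η' ε c : ℝ} (hQ : Qual K Λ δ δ' η' ε) {σ : E → E} (hσ : Sec K Λ δ' η' c σ) {z : E} (hz : z ∈ K) :
    ‖σ z‖ ≤ ε := by
  obtain ⟨w, y, hw, hw1, hyS, e⟩ := carath_fibre Λ (hσ.hull z hz)
  rw [e]
  exact hQ.lc w y hw hw1 fun i => (hyS i).1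

end Pool.Agent.LibDQ20
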