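import Pool.Agent.LibDQ20.A3

/-!
[DQ20 D1] (SMALL) SECTIONS OF `K` by finite-dimensional spaces. For an injective linear `M : X → E` (`X` a finite-dimensional normed space; `M` is a closed embedding, `LinearMap.isClosedEmbedding_of_injective`) the set `{x | M x ∈ K}` is compact and convex; if `Abs K M`, `0 ∈ K` and `K` convex, it is a neighbourhood of `0`: for a basis `b i` there is `s > 0` with `± s • b i` in the set for all `i`, and the convex hull of these points contains a neighbourhood of `0`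
(or: it is a closed convex absorbent set in a finite-dimensional space; `Convex`, `interior_convexHull_nonempty_iff_affineSpan_eq_top` for the hull of `0` and the `s • b i` with an interior point `p`, and `-t • p` in the set, so `0` is interior).
-/

namespace Pool.Agent.LibDQ20

variable {E : Type*} [NormedAddCommGroup E] [Module ℝ E] [ContinuousSMul ℝ E] {X : Type*} [NormedAddCommGroup X] [NormedSpace ℝ X]
  [FiniteDimensional ℝ X] {K : Set E}

private theorem D1_sum {V : Type*} [AddCommGroup V] [Module ℝ V] {S : Set V} (hS : Convex ℝ S) (h0 : (0 : V) ∈ S)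
    {ι : Type*} (A : Finset ι) (t : ι → ℝ) (y : ι → V) (ht : ∀ i ∈ A, 0 ≤ t i) (hle : ∑ i ∈ A, t i ≤ 1)
    (hy : ∀ i ∈ A, y i ∈ S) : ∑ i ∈ A, t i • y i ∈ S := by
  rcases (Finset.sum_nonneg ht).eq_or_lt with h | h
  · have hz : ∀ i ∈ A, t i = 0 := (Finset.sum_eq_zero_iff_of_nonneg ht).mp h.symm
    have h1 : ∑ i ∈ A, t i • y i = 0 := Finset.sum_eq_zero (fun i hi => by rw [hz i hi, zero_smul])
    rw [h1]
    exact h0
  · have h1 : ∑ i ∈ A, (t i / ∑ j ∈ A, t j) • y i ∈ S :=
      hS.sum_mem (fun i hi => div_nonneg (ht i hi) h.le) (by rw [← Finset.sum_div]; exact div_self h.ne') hy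
    have h2 : ∑ i ∈ A, t i • y i = (∑ j ∈ A, t j) • ∑ i ∈ A, (t i / ∑ j ∈ A, t j) • y i := by
      rw [Finset.smul_sum]
      refine Finset.sum_congr rfl (fun i _ => ?_)
      rw [smul_smul, mul_div_cancel₀ _ h.ne']
    rw [h2]
    exact hS.smul_mem_of_zero_mem h0 h1 ⟨h.le, hle⟩

theorem sect_compact (hK : IsCompact K) {M : X →ₗ[ℝ] E} (hM : Function.Injective M) : IsCompact {x | M x ∈ K} := by
  have h1 : Topology.IsClosedEmbedding M := LinearMap.isClosedEmbedding_of_injective (LinearMap.ker_eq_bot.mpr hM)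
  exact h1.isCompact_preimage hK

theorem sect_convex (hc : Convex ℝ K) (M : X →ₗ[ℝ] E) : Convex ℝ {x | M x ∈ K} := hc.linear_preimage M

theorem sect_nhds (hc : Convex ℝ K) (h0 : (0 : E) ∈ K) {M : X →ₗ[ℝ] E} (hA : Abs K M) : {x | M x ∈ K} ∈ nhds (0 : X) := by
  have hS : Convex ℝ {x | M x ∈ K} := hc.linear_preimage M
  have h0S : (0 : X) ∈ {x | M x ∈ K} := by
    show M 0 ∈ K
    rw [map_zero]
    exact h0
  let b := Module.finBasis ℝ X
  choose s1 hs1 hm1 using fun i => hA (b i)
  choose s2 hs2 hm2 using fun i => hA (-(b i))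
  have hs : ∀ i, 0 < min (s1 i) (s2 i) := fun i => lt_min (hs1 i) (hs2 i)
  have hp : ∀ i, (min (s1 i) (s2 i)) • b i ∈ {x | M x ∈ K} := by
    intro i
    have h1 : s1 i • b i ∈ {x | M x ∈ K} := by
      show M (s1 i • b i) ∈ K
      rw [map_smul]
      exact hm1 i
    have h2 := hS.smul_mem_of_zero_mem h0S h1 (t := min (s1 i) (s2 i) / s1 i)
      ⟨div_nonneg (hs i).le (hs1 i).le, (div_le_one (hs1 i)).mpr (min_le_left _ _)⟩
    rw [smul_smul, div_mul_cancel₀ _ (hs1 i).ne'] at h2
    exact h2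
  have hn : ∀ i, (min (s1 i) (s2 i)) • (-(b i)) ∈ {x | M x ∈ K} := by
    intro i
    have h1 : s2 i • (-(b i)) ∈ {x | M x ∈ K} := by
      show M (s2 i • (-(b i))) ∈ K
      rw [map_smul]
      exact hm2 i
    have h2 := hS.smul_mem_of_zero_mem h0S h1 (t := min (s1 i) (s2 i) / s2 i)
      ⟨div_nonneg (hs i).le (hs2 i).le, (div_le_one (hs2 i)).mpr (min_le_right _ _)⟩
    rw [smul_smul, div_mul_cancel₀ _ (hs2 i).ne'] at h2
    exact h2
  have hcont : Continuous (fun x : X => ∑ i, |b.coord i x| / min (s1 i) (s2 i)) :=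
    continuous_finsetSum _ (fun i _ => ((LinearMap.continuous_of_finiteDimensional (b.coord i)).abs.div_const _))
  have hnb : {x : X | ∑ i, |b.coord i x| / min (s1 i) (s2 i) < 1} ∈ nhds (0 : X) :=
    (isOpen_lt hcont continuous_const).mem_nhds (by simp)
  refine Filter.mem_of_superset hnb ?_
  intro x hx
  have hx' : ∑ i, |b.coord i x| / min (s1 i) (s2 i) < 1 := hx
  have h1 := D1_sum hS h0S Finset.univ (fun i => |b.coord i x| / min (s1 i) (s2 i))
    (fun i => if 0 ≤ b.coord i x then (min (s1 i) (s2 i)) • b i else (min (s1 i) (s2 i)) • (-(b i)))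
    (fun i _ => div_nonneg (abs_nonneg _) (hs i).le) hx'.le
    (fun i _ => by
      by_cases h : 0 ≤ b.coord i x
      · simp only [h, if_true]
        exact hp i
      · simp only [h, if_false]
        exact hn i)
  have h2 : ∑ i, (|b.coord i x| / min (s1 i) (s2 i)) •
      (if 0 ≤ b.coord i x then (min (s1 i) (s2 i)) • b i else (min (s1 i) (s2 i)) • (-(b i))) = x := by
    have h3 : ∑ i, b.coord i x • b i = x := by
      simpa only [Module.Basis.coord_apply] using b.sum_repr x
    rw [← h3]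
    refine Finset.sum_congr rfl (fun i _ => ?_)
    rw [h3]
    by_cases h : 0 ≤ b.coord i x
    · rw [if_pos h, smul_smul, abs_of_nonneg h, div_mul_cancel₀ _ (hs i).ne']
    · rw [if_neg h, smul_smul, abs_of_neg (not_le.mp h), div_mul_cancel₀ _ (hs i).ne', smul_neg, neg_smul, neg_neg]
  rw [h2] at h1
  exact h1

end Pool.Agent.LibDQ20
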