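import Pool.Agent.LibDQ20.D1
import Pool.Agent.LibGC20.S2
import Pool.Agent.LibGC20.R3

/-!
[DQ20 D2] (MEDIUM) THE SECTION OVER A FINITE-DIMENSIONAL SPACE, made exactly homogeneous. `X = ℝ^d`, `W = ℝ^k`, `C = {z | M z ∈ K}` compact convex neighbourhood of `0` (D1), `B = Prod.snd '' C`, `γ = gauge B` (`LibGC20.S2`: `gB_cont, gB_smul, gB_pos, gB_le, gB_end`). For `z ∈ C`: `σ (M z) = M z - Λ x = M (z.1 - x, z.2)`; let `ψ z = z.1 - x` (so `M (ψ z, z.2) = σ (M z)`), continuous on `C` (`cont_of_comp` applied to `Λ (ψ z) = σ (M z) - M (0, z.2)`), and `ψ z` depends only on `z.2` (`Sec.inv`).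
`φ₀ w = ψ z` for any `z ∈ C` with `z.2 = (γ w)⁻¹ • w`, `w` in the unit sphere of `W`: continuous: if `w_n → w`, `z_n ∈ C` over the end points has a convergent subsequence (or: `Prod.snd : C → B` is a closed map, a quotient map). `φ` from `homog_ext` with `g = γ`: `φ w = γ w • φ₀ (w / ‖w‖)`.
For `z ∈ C`, `w = z.2 ≠ 0`, `γ w ≤ 1`: let `z₁ ∈ C` lie over `(γ w)⁻¹ • w`; `γ w • z₁ ∈ C` lies over `w`, so `ψ z = ψ (γ w • z₁)`, and `Sec.star` (with `M z₁`, `s = γ w`): `σ (γ w • M z₁) - γ w • σ (M z₁) = Λ v`, i.e. `M (ψ z - γ w • ψ z₁, 0) = Λ v`, `φ w = γ w • ψ z₁`; so `M (φ w, w) = M (ψ z, w) - Λ v`. For `w = 0`: `ψ z` with `z = 0`: use `s = 0` in `Sec.star`: `σ 0 = Λ v`, `‖v‖ ≤ c`, and `φ 0 = 0`.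
-/

namespace Pool.Agent.LibDQ20

theorem exists_phi {E : Type*} [NormedAddCommGroup E] [Module ℝ E] [ContinuousSMul ℝ E]
    (hF : ∀ (t : ℝ) (x : E), |t| ≤ 1 → ‖t • x‖ ≤ ‖x‖) {d k : ℕ} {Λ : (Fin d → ℝ) →ₗ[ℝ] E} {K : Set E} (hK : IsCompact K)
    (hc : Convex ℝ K) (h0 : (0 : E) ∈ K) {δ' η' c : ℝ} {σ : E → E} (hσ : Sec K Λ δ' η' c σ)
    {M : (Fin d → ℝ) × (Fin k → ℝ) →ₗ[ℝ] E} (hM : Function.Injective M) (hMΛ : ∀ x, M (x, 0) = Λ x) (hA : Abs K M) :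
    ∃ φ : (Fin k → ℝ) → (Fin d → ℝ), Continuous φ ∧ (∀ (s : ℝ) w, 0 ≤ s → φ (s • w) = s • φ w) ∧
      ∀ z, M z ∈ K → ∃ v, ‖v‖ ≤ c ∧ M (φ z.2, z.2) = σ (M z) + Λ v := by
  classical
  -- continuity of `M`
  have hMk : LinearMap.ker M = ⊥ := LinearMap.ker_eq_bot.2 hM
  have hMe : Topology.IsClosedEmbedding M := LinearMap.isClosedEmbedding_of_injective hMk
  have hMc : Continuous M := hMe.continuous
  have hCc : IsCompact {z | M z ∈ K} := sect_compact hK hM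
  have hCv : Convex ℝ {z | M z ∈ K} := sect_convex hc M
  have hCn : {z | M z ∈ K} ∈ nhds (0 : (Fin d → ℝ) × (Fin k → ℝ)) := sect_nhds hc h0 hA
  -- `ψ`
  have hex : ∀ z : (Fin d → ℝ) × (Fin k → ℝ), ∃ y : Fin d → ℝ, M z ∈ K → M (y, z.2) = σ (M z) := by
    intro z
    by_cases hz : M z ∈ K
    · obtain ⟨x, hx⟩ := hσ.fib (M z) hz
      refine ⟨z.1 - x, fun _ => ?_⟩
      have h1 : ((z.1 - x, z.2) : (Fin d → ℝ) × (Fin k → ℝ)) = z - (x, 0) := by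
        ext <;> simp
      rw [h1, map_sub, hMΛ, ← hx, sub_sub_cancel]
    · exact ⟨0, fun h => absurd h hz⟩
  choose ψ hψ using hex
  -- `ψ` depends only on `z.2`
  have hinv : ∀ z z' : (Fin d → ℝ) × (Fin k → ℝ), M z ∈ K → M z' ∈ K → z.2 = z'.2 → σ (M z) = σ (M z') := by
    intro z z' hz hz' h
    have h1 : M z = M z' + Λ (z.1 - z'.1) := by
      rw [← hMΛ, ← map_add]
      congr 1
      ext i
      · simp
      · simp [h]
    have h2 : M z' + Λ (z.1 - z'.1) ∈ K := by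
      rw [← h1]
      exact hz
    rw [h1]
    exact hσ.inv (M z') hz' _ h2
  have hψinv : ∀ z z' : (Fin d → ℝ) × (Fin k → ℝ), M z ∈ K → M z' ∈ K → z.2 = z'.2 → ψ z = ψ z' := by
    intro z z' hz hz' h
    have h1 : M (ψ z, z.2) = M (ψ z', z'.2) := by
      rw [hψ z hz, hψ z' hz', hinv z z' hz hz' h]
    have h2 := hM h1
    exact (Prod.mk.inj h2).1
  -- the gauge
  set γ : (Fin k → ℝ) → ℝ := gauge (Prod.snd '' {z | M z ∈ K}) with hγ
  have γc : Continuous γ := LibGC20.gB_cont hCv hCn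
  have γs : ∀ (s : ℝ) (w : Fin k → ℝ), 0 ≤ s → γ (s • w) = s * γ w := fun s w hs => LibGC20.gB_smul _ hs w
  have γp : ∀ w : Fin k → ℝ, w ≠ 0 → 0 < γ w := fun w hw => LibGC20.gB_pos hCc hCn hw
  have γl : ∀ z : (Fin d → ℝ) × (Fin k → ℝ), M z ∈ K → γ z.2 ≤ 1 := fun z hz => LibGC20.gB_le (C := {z | M z ∈ K}) hz
  have γe : ∀ w : Fin k → ℝ, w ≠ 0 → ∃ z : (Fin d → ℝ) × (Fin k → ℝ), M z ∈ K ∧ z.2 = (γ w)⁻¹ • w := by
    intro w hw
    obtain ⟨z, hz, h⟩ := LibGC20.gB_end hCc hCv hCn hw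
    exact ⟨z, hz, h⟩
  have γ0 : γ 0 = 0 := by
    have := γs 0 0 le_rfl
    rw [zero_smul, zero_mul] at this
    exact this
  have hsph : ∀ w : Metric.sphere (0 : Fin k → ℝ) 1, (w : Fin k → ℝ) ≠ 0 := by
    intro w h
    have h1 : ‖(w : Fin k → ℝ)‖ = 1 := by simpa using w.2
    rw [h, norm_zero] at h1
    exact zero_ne_one h1
  -- `φ₀`
  have hφ₀ : ∀ w : Metric.sphere (0 : Fin k → ℝ) 1, ∃ z : (Fin d → ℝ) × (Fin k → ℝ), M z ∈ K ∧
      z.2 = (γ (w : Fin k → ℝ))⁻¹ • (w : Fin k → ℝ) := fun w => γe _ (hsph w)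
  choose ζ hζK hζ2 using hφ₀
  have hcont : Continuous (fun w => ψ (ζ w)) := by
    let C' : Set ((Fin d → ℝ) × (Fin k → ℝ)) := {z | M z ∈ K} ∩ {z | γ z.2 = 1}
    have hC'c : IsCompact C' := hCc.inter_right (isClosed_eq (γc.comp continuous_snd) continuous_const)
    haveI : CompactSpace C' := isCompact_iff_compactSpace.1 hC'c
    have hne : ∀ z : C', (z : (Fin d → ℝ) × (Fin k → ℝ)).2 ≠ 0 := by
      intro z h
      have h1 : γ (z : (Fin d → ℝ) × (Fin k → ℝ)).2 = 1 := z.2.2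
      rw [h, γ0] at h1
      exact zero_ne_one h1
    let p : C' → Metric.sphere (0 : Fin k → ℝ) 1 := fun z =>
      ⟨‖(z : (Fin d → ℝ) × (Fin k → ℝ)).2‖⁻¹ • (z : (Fin d → ℝ) × (Fin k → ℝ)).2, by
        rw [mem_sphere_zero_iff_norm, norm_smul, norm_inv, norm_norm]
        exact inv_mul_cancel₀ (norm_ne_zero_iff.2 (hne z))⟩
    have hs : Continuous (fun z : C' => (z : (Fin d → ℝ) × (Fin k → ℝ)).2) :=
      continuous_snd.comp continuous_subtype_val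
    have hp : Continuous p := by
      refine Continuous.subtype_mk ?_ _
      exact (hs.norm.inv₀ (fun z => norm_ne_zero_iff.2 (hne z))).smul hs
    have hpK : ∀ z : C', ψ (ζ (p z)) = ψ z := by
      intro z
      refine hψinv _ _ (hζK _) z.2.1 ?_
      rw [hζ2]
      show (γ (‖(z : (Fin d → ℝ) × (Fin k → ℝ)).2‖⁻¹ • (z : (Fin d → ℝ) × (Fin k → ℝ)).2))⁻¹ •
        (‖(z : (Fin d → ℝ) × (Fin k → ℝ)).2‖⁻¹ • (z : (Fin d → ℝ) × (Fin k → ℝ)).2) = _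
      rw [γs _ _ (inv_nonneg.2 (norm_nonneg _))]
      have h1 : γ (z : (Fin d → ℝ) × (Fin k → ℝ)).2 = 1 := z.2.2
      rw [h1, mul_one, inv_inv, smul_smul, mul_inv_cancel₀ (norm_ne_zero_iff.2 (hne z)), one_smul]
    have hpsurj : Function.Surjective p := by
      intro w
      have hw := hsph w
      have hpos := γp _ hw
      have h1 : γ (ζ w).2 = 1 := by
        rw [hζ2, γs _ _ (inv_nonneg.2 hpos.le), inv_mul_cancel₀ hpos.ne']
      refine ⟨⟨ζ w, hζK w, h1⟩, ?_⟩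
      apply Subtype.ext
      show ‖(ζ w).2‖⁻¹ • (ζ w).2 = (w : Fin k → ℝ)
      have hn : ‖(w : Fin k → ℝ)‖ = 1 := by simpa using w.2
      rw [hζ2, norm_smul, hn, mul_one, norm_inv, Real.norm_of_nonneg hpos.le, inv_inv, smul_smul,
        mul_inv_cancel₀ hpos.ne', one_smul]
    have hq : Topology.IsQuotientMap p := (hp.isClosedMap).isQuotientMap hp hpsurj
    rw [hq.continuous_iff]
    have h2 : ((fun w => ψ (ζ w)) ∘ p) = fun z : C' => ψ z := funext hpK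
    rw [h2]
    have h3 : Continuous (fun z : C' => ((ψ z, (z : (Fin d → ℝ) × (Fin k → ℝ)).2) : (Fin d → ℝ) × (Fin k → ℝ))) := by
      rw [hMe.isInducing.continuous_iff]
      have h4 : (M ∘ fun z : C' => ((ψ z, (z : (Fin d → ℝ) × (Fin k → ℝ)).2) : (Fin d → ℝ) × (Fin k → ℝ))) =
          fun z : C' => σ (M z) := funext fun z => hψ z z.2.1
      rw [h4]
      exact hσ.cont.comp_continuous (hMc.comp continuous_subtype_val) (fun z => z.2.1)
    exact continuous_fst.comp h3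
  obtain ⟨φ, φc, φs, φe⟩ := LibGC20.homog_ext (W := Fin k → ℝ) (X := Fin d → ℝ) ⟨fun w => ψ (ζ w), hcont⟩ γ γc γs
  have φ0 : φ 0 = 0 := by
    have := φs 0 0 le_rfl
    rw [zero_smul, zero_smul] at this
    exact this
  refine ⟨φ, φc, φs, ?_⟩
  intro z hz
  by_cases hw : z.2 = 0
  · have h1 : M z = 0 + Λ z.1 := by
      rw [zero_add, ← hMΛ]
      congr 1
      ext i
      · rfl
      · simp [hw]
    have h2 : σ (M z) = σ 0 := by
      rw [h1]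
      refine hσ.inv 0 h0 _ ?_
      rw [← h1]
      exact hz
    obtain ⟨v, hv, hv2⟩ := hσ.star 0 h0 0 le_rfl zero_le_one
    rw [zero_smul, zero_smul, sub_zero] at hv2
    refine ⟨-v, by rw [norm_neg]; exact hv, ?_⟩
    rw [hw, φ0, h2, map_neg, hv2, add_neg_cancel]
    exact map_zero M
  · obtain ⟨z₁, hz₁, hz₁2⟩ := γe z.2 hw
    have hpos := γp _ hw
    have hle := γl z hz
    have hs1 : M (γ z.2 • z₁) ∈ K := by
      rw [map_smul]
      have := hc hz₁ h0 hpos.le (sub_nonneg.2 hle) (by ring)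
      simpa using this
    have hs2 : z.2 = (γ z.2 • z₁).2 := by
      show z.2 = γ z.2 • z₁.2
      rw [hz₁2, smul_smul, mul_inv_cancel₀ hpos.ne', one_smul]
    have hs3 : σ (M z) = σ (γ z.2 • M z₁) := by
      rw [hinv z (γ z.2 • z₁) hz hs1 hs2, map_smul]
    obtain ⟨v, hv, hv2⟩ := hσ.star (M z₁) hz₁ (γ z.2) hpos.le hle
    refine ⟨-v, by rw [norm_neg]; exact hv, ?_⟩
    have hn : ‖z.2‖ ≠ 0 := norm_ne_zero_iff.2 hw
    have hmem : ‖z.2‖⁻¹ • z.2 ∈ Metric.sphere (0 : Fin k → ℝ) 1 := by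
      rw [mem_sphere_zero_iff_norm, norm_smul, norm_inv, norm_norm]
      exact inv_mul_cancel₀ hn
    have hφ : φ z.2 = γ z.2 • ψ z₁ := by
      have h1 : z.2 = ‖z.2‖ • (‖z.2‖⁻¹ • z.2) := by
        rw [smul_smul, mul_inv_cancel₀ hn, one_smul]
      have h2 : φ z.2 = ‖z.2‖ • φ (‖z.2‖⁻¹ • z.2) := by
        rw [← φs _ _ (norm_nonneg _), ← h1]
      have h3 := φe _ hmem
      rw [h2, h3, smul_smul, γs _ _ (inv_nonneg.2 (norm_nonneg _)), ← mul_assoc, mul_inv_cancel₀ hn, one_mul]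
      congr 1
      show ψ (ζ ⟨‖z.2‖⁻¹ • z.2, hmem⟩) = ψ z₁
      refine hψinv _ _ (hζK _) hz₁ ?_
      rw [hζ2, hz₁2]
      show (γ (‖z.2‖⁻¹ • z.2))⁻¹ • (‖z.2‖⁻¹ • z.2) = _
      rw [γs _ _ (inv_nonneg.2 (norm_nonneg _)), smul_smul, mul_inv, inv_inv]
      congr 1
      rw [mul_comm ‖z.2‖, mul_assoc, mul_inv_cancel₀ hn, mul_one]
    have h5 : ((φ z.2, z.2) : (Fin d → ℝ) × (Fin k → ℝ)) = γ z.2 • (ψ z₁, z₁.2) := by
      rw [Prod.smul_mk, ← hφ, hz₁2, smul_smul, mul_inv_cancel₀ hpos.ne', one_smul]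
    rw [h5, map_smul, hψ z₁ hz₁, hs3, map_neg, ← hv2]
    abel

end Pool.Agent.LibDQ20
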