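import Pool.Agent.LibDQ20.Defs

/-!
[DQ20 D3] (MEDIUM, only Mathlib) A STRICTLY CONVEX NORM. `O` convex, symmetric, bounded, a neighbourhood of `0` in `ℝ^d`. `g = gauge O` is a norm (`gauge_add_le`, `gauge_smul`, `gauge_pos`, continuous). Let `|x|₂ = sqrt (∑ (x i)^2)` (`‖WithLp.toLp 2 x‖`, `EuclideanSpace`), `κ > 0` with `κ |x|₂ ≤ 1` on `O`; `q = g + κ |·|₂`. `q ≤ 2` on `O` (`gauge ≤ 1`); `q x < 1 → gauge x < 1 → x ∈ O`. `strict`: `q x = q y = q ((x + y)/2)` gives equality in the triangle inequality for `|·|₂`, so `x, y` are nonnegative multiples of each other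
(`sameRay_iff_norm_add` in a strictly convex space; if `x = 0` or `y = 0` clear), and `q x = q y` gives `x = y`.
`SCN_lower`: the minimum of `q` on the unit sphere. `SCN` gives `q 0 = 0`.
-/

namespace Pool.Agent.LibDQ20

private noncomputable def D3_n {d : ℕ} (x : Fin d → ℝ) : ℝ :=
  ‖(WithLp.toLp 2 x : EuclideanSpace ℝ (Fin d))‖

private lemma D3_cont {d : ℕ} : Continuous (D3_n (d := d)) :=
  continuous_norm.comp (PiLp.continuous_toLp 2 _)

private lemma D3_nn {d : ℕ} (x : Fin d → ℝ) : 0 ≤ D3_n x := norm_nonneg _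

private lemma D3_smul {d : ℕ} (t : ℝ) (x : Fin d → ℝ) : D3_n (t • x) = |t| * D3_n x := by
  unfold D3_n
  rw [WithLp.toLp_smul, norm_smul, Real.norm_eq_abs]

private lemma D3_add {d : ℕ} (x y : Fin d → ℝ) : D3_n (x + y) ≤ D3_n x + D3_n y := by
  unfold D3_n
  rw [WithLp.toLp_add]
  exact norm_add_le _ _

private lemma D3_zero {d : ℕ} (x : Fin d → ℝ) (h : D3_n x = 0) : x = 0 := by
  unfold D3_n at h
  rw [norm_eq_zero] at h
  exact (WithLp.toLp_injective 2) (h.trans (WithLp.toLp_zero 2).symm)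

private lemma D3_ray {d : ℕ} (x y : Fin d → ℝ) (hx : x ≠ 0) (h : D3_n (x + y) = D3_n x + D3_n y) :
    ∃ r : ℝ, 0 ≤ r ∧ r • x = y := by
  unfold D3_n at h
  rw [WithLp.toLp_add] at h
  have h1 := sameRay_iff_norm_add.2 h
  have h2 : (WithLp.toLp 2 x : EuclideanSpace ℝ (Fin d)) ≠ 0 := by
    intro h3
    exact hx ((WithLp.toLp_injective 2) (h3.trans (WithLp.toLp_zero 2).symm))
  obtain ⟨r, hr, hxy⟩ := h1.exists_nonneg_left h2
  refine ⟨r, hr, ?_⟩
  apply WithLp.toLp_injective 2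
  rw [WithLp.toLp_smul]
  exact hxy

private lemma D3_gsmul {d : ℕ} {O : Set (Fin d → ℝ)} (hs : ∀ x ∈ O, -x ∈ O) (t : ℝ)
    (x : Fin d → ℝ) : gauge O (t • x) = |t| * gauge O x := by
  rcases le_total 0 t with ht | ht
  · rw [gauge_smul_of_nonneg ht, abs_of_nonneg ht, smul_eq_mul]
  · have h1 : t • x = -((-t) • x) := by rw [neg_smul, neg_neg]
    rw [h1, gauge_neg hs, gauge_smul_of_nonneg (neg_nonneg.2 ht), abs_of_nonpos ht, smul_eq_mul]

theorem exists_scn {d : ℕ} {O : Set (Fin d → ℝ)} (hc : Convex ℝ O) (hs : ∀ x ∈ O, -x ∈ O) (hb : Bornology.IsBounded O)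
    (h0 : O ∈ nhds (0 : Fin d → ℝ)) : ∃ q : (Fin d → ℝ) → ℝ, SCN q ∧ (∀ x ∈ O, q x ≤ 2) ∧ ∀ x, q x < 1 → x ∈ O := by
  have habs : Absorbent ℝ O := absorbent_nhds_zero h0
  obtain ⟨C, hC⟩ := hb.isCompact_closure.exists_bound_of_continuousOn
    (D3_cont (d := d)).continuousOn
  have hCp : 0 < |C| + 1 := by positivity
  have hk : 0 < (|C| + 1)⁻¹ := inv_pos.2 hCp
  have hgc : Continuous (gauge O) := continuous_gauge hc h0
  refine ⟨fun x => gauge O x + (|C| + 1)⁻¹ * D3_n x, ?_, ?_, ?_⟩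
  · refine ⟨hgc.add (continuous_const.mul D3_cont), fun x => ?_, fun t x => ?_, fun x y => ?_,
      fun x hx => ?_, fun x y hxy h => ?_⟩
    · exact add_nonneg (gauge_nonneg x) (mul_nonneg hk.le (D3_nn x))
    · show gauge O (t • x) + (|C| + 1)⁻¹ * D3_n (t • x) =
        |t| * (gauge O x + (|C| + 1)⁻¹ * D3_n x)
      rw [D3_gsmul hs, D3_smul]
      ring
    · show gauge O (x + y) + (|C| + 1)⁻¹ * D3_n (x + y) ≤
        (gauge O x + (|C| + 1)⁻¹ * D3_n x) + (gauge O y + (|C| + 1)⁻¹ * D3_n y)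
      have h1 := gauge_add_le hc habs x y
      have h2 := mul_le_mul_of_nonneg_left (D3_add x y) hk.le
      rw [mul_add] at h2
      linarith
    · have h1 : gauge O x + (|C| + 1)⁻¹ * D3_n x = 0 := hx
      have h2 := gauge_nonneg (s := O) x
      have h3 := mul_nonneg hk.le (D3_nn x)
      have h4 : (|C| + 1)⁻¹ * D3_n x = 0 := by linarith
      rcases mul_eq_zero.1 h4 with h5 | h5
      · exact absurd h5 hk.ne'
      · exact D3_zero x h5
    · have hxy' : gauge O x + (|C| + 1)⁻¹ * D3_n x = gauge O y + (|C| + 1)⁻¹ * D3_n y := hxy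
      have h' : gauge O ((1 / 2 : ℝ) • (x + y)) + (|C| + 1)⁻¹ * D3_n ((1 / 2 : ℝ) • (x + y)) =
        gauge O x + (|C| + 1)⁻¹ * D3_n x := h
      rw [D3_gsmul hs, D3_smul, abs_of_pos (by norm_num : (0 : ℝ) < 1 / 2)] at h'
      have h1 := gauge_add_le hc habs x y
      have h2 := mul_le_mul_of_nonneg_left (D3_add x y) hk.le
      rw [mul_add] at h2
      have h3 : (|C| + 1)⁻¹ * D3_n (x + y) = (|C| + 1)⁻¹ * D3_n x + (|C| + 1)⁻¹ * D3_n y := by
        linarith
      have h4 : D3_n (x + y) = D3_n x + D3_n y := by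
        rw [← mul_add] at h3
        exact mul_left_cancel₀ hk.ne' h3
      by_cases hx : x = 0
      · subst hx
        have g0 : gauge O (0 : Fin d → ℝ) = 0 := gauge_zero
        have n0 : D3_n (0 : Fin d → ℝ) = 0 := by
          have := D3_smul (d := d) 0 0
          simpa using this
        rw [g0, n0] at hxy'
        have h5 := gauge_nonneg (s := O) y
        have h6 := mul_nonneg hk.le (D3_nn y)
        have h7 : (|C| + 1)⁻¹ * D3_n y = 0 := by linarith
        rcases mul_eq_zero.1 h7 with h8 | h8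
        · exact absurd h8 hk.ne'
        · exact (D3_zero y h8).symm
      · obtain ⟨r, hr, hry⟩ := D3_ray x y hx h4
        have hq : 0 < gauge O x + (|C| + 1)⁻¹ * D3_n x := by
          have h5 := gauge_nonneg (s := O) x
          have h6 : 0 < D3_n x := lt_of_le_of_ne (D3_nn x) fun h7 => hx (D3_zero x h7.symm)
          have h8 := mul_pos hk h6
          linarith
        have h5 : gauge O x + (|C| + 1)⁻¹ * D3_n x = r * (gauge O x + (|C| + 1)⁻¹ * D3_n x) := by
          rw [← hry, D3_gsmul hs, D3_smul, abs_of_nonneg hr] at hxy'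
          linarith
        have h6 : r = 1 := by
          have h7 : (1 - r) * (gauge O x + (|C| + 1)⁻¹ * D3_n x) = 0 := by linarith
          rcases mul_eq_zero.1 h7 with h8 | h8
          · linarith
          · exact absurd h8 hq.ne'
        rw [← hry, h6, one_smul]
  · intro x hx
    show gauge O x + (|C| + 1)⁻¹ * D3_n x ≤ 2
    have h1 : gauge O x ≤ 1 := gauge_le_one_of_mem hx
    have h2 : D3_n x ≤ C := by
      have := hC x (subset_closure hx)
      rwa [Real.norm_eq_abs, abs_of_nonneg (D3_nn x)] at this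
    have h3 : (|C| + 1)⁻¹ * D3_n x ≤ 1 := by
      rw [inv_mul_le_iff₀ hCp, mul_one]
      linarith [le_abs_self C]
    linarith
  · intro x hx
    have hx' : gauge O x + (|C| + 1)⁻¹ * D3_n x < 1 := hx
    have h1 := mul_nonneg hk.le (D3_nn x)
    have h2 : gauge O x < 1 := by linarith
    exact setOfPred_gauge_lt_one_subset_self hc (mem_of_mem_nhds h0) habs h2

theorem SCN_lower {d : ℕ} {q : (Fin d → ℝ) → ℝ} (hq : SCN q) : ∃ a : ℝ, 0 < a ∧ ∀ x, a * ‖x‖ ≤ q x := by
  have key : ∀ a : ℝ, (∀ x : Fin d → ℝ, ‖x‖ = 1 → a ≤ q x) → ∀ x, a * ‖x‖ ≤ q x := by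
    intro a ha x
    by_cases hx : x = 0
    · subst hx
      rw [norm_zero, mul_zero]
      exact hq.nn 0
    · have hn : 0 < ‖x‖ := norm_pos_iff.2 hx
      have h1 : ‖‖x‖⁻¹ • x‖ = 1 := by
        rw [norm_smul, norm_inv, norm_norm, inv_mul_cancel₀ hn.ne']
      have h2 := ha _ h1
      rw [hq.smul, abs_of_pos (inv_pos.2 hn), le_inv_mul_iff₀ hn] at h2
      linarith
  by_cases hne : (Metric.sphere (0 : Fin d → ℝ) 1).Nonempty
  · obtain ⟨x0, hx0, hmin⟩ := (isCompact_sphere (0 : Fin d → ℝ) 1).exists_isMinOn hne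
      hq.cont.continuousOn
    refine ⟨q x0, ?_, key _ fun x hx => hmin (by simpa using hx)⟩
    refine lt_of_le_of_ne (hq.nn x0) fun h => ?_
    have h1 := hq.zero x0 h.symm
    rw [h1] at hx0
    simp at hx0
  · refine ⟨1, one_pos, key _ fun x hx => ?_⟩
    exact absurd ⟨x, by simpa using hx⟩ hne

end Pool.Agent.LibDQ20
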