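import Pool.Agent.LibDQ20.D3

/-!
[DQ20 D4] (MEDIUM) METRIC PROJECTION. EXISTENCE of a nearest point `c x ∈ P` (compact): `IsCompact.exists_isMinOn`. UNIQUE: if `y, y' ∈ P` are both nearest, `(y + y')/2 ∈ P`, so `q (x - (y+y')/2) ≥ q (x - y)`, and `≤` by the triangle inequality; `strict` for `x - y, x - y'` gives `y = y'`. CONTINUOUS: if `x_n → x`, every subsequence of `c x_n` has a subsequence converging to some `y ∈ P` which is nearest to `x` (`q (x_n - c x_n) ≤ q (x_n - y')` for all `y' ∈ P`), so `y = c x` (closed graph and compactness, e.g. `isCompact` + `tendsto_of_subseq`).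
RAY, `x' = c x + s • (x - c x)`: for `s ≤ 1`: `q (x' - y) ≥ q (x - y) - q (x - x') ≥ q (x - c x) - (1 - s) q (x - c x) = q (x' - c x)`; for `s > 1`: if `q (x' - y) < q (x' - c x) = s q (x - c x)` then `y' = c x + s⁻¹ • (y - c x) ∈ P` and `x - y' = s⁻¹ • (x' - y)`, `q (x - y') < q (x - c x)`. FIX: `q (x - c x) ≤ q (x - x) = 0`.
-/

namespace Pool.Agent.LibDQ20

private theorem D4_zero {d : ℕ} {q : (Fin d → ℝ) → ℝ} (hq : SCN q) : q 0 = 0 := by
  have h := hq.smul 0 0
  simpa using h

private theorem D4_near {d : ℕ} {q : (Fin d → ℝ) → ℝ} (hq : SCN q) {P : Set (Fin d → ℝ)} (hP : IsCompact P)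
    (hne : P.Nonempty) (x : Fin d → ℝ) : ∃ c ∈ P, ∀ y ∈ P, q (x - c) ≤ q (x - y) := by
  have hcont : ContinuousOn (fun y : Fin d → ℝ => q (x - y)) P :=
    (hq.cont.comp (continuous_const.sub continuous_id)).continuousOn
  obtain ⟨c, hc, hmin⟩ := hP.exists_isMinOn hne hcont
  exact ⟨c, hc, fun y hy => hmin hy⟩

private theorem D4_uniq {d : ℕ} {q : (Fin d → ℝ) → ℝ} (hq : SCN q) {P : Set (Fin d → ℝ)} (hPc : Convex ℝ P)
    {x y y' : Fin d → ℝ} (hy : y ∈ P) (hy' : y' ∈ P) (h : ∀ z ∈ P, q (x - y) ≤ q (x - z))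
    (h' : ∀ z ∈ P, q (x - y') ≤ q (x - z)) : y = y' := by
  have e : q (x - y) = q (x - y') := le_antisymm (h y' hy') (h' y hy)
  have hm : (1 / 2 : ℝ) • y + (1 / 2 : ℝ) • y' ∈ P :=
    hPc hy hy' (by norm_num) (by norm_num) (by norm_num)
  have h1 := h _ hm
  have e2 : x - ((1 / 2 : ℝ) • y + (1 / 2 : ℝ) • y') = (1 / 2 : ℝ) • ((x - y) + (x - y')) := by
    module
  rw [e2] at h1
  have h2 : q ((1 / 2 : ℝ) • ((x - y) + (x - y'))) ≤ q (x - y) := by
    rw [hq.smul]
    have h3 := hq.add (x - y) (x - y')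
    rw [abs_of_pos (by norm_num : (0 : ℝ) < 1 / 2)]
    linarith
  have h3 := hq.strict (x - y) (x - y') e (le_antisymm h2 h1)
  exact sub_right_injective h3

private theorem D4_ray {d : ℕ} {q : (Fin d → ℝ) → ℝ} (hq : SCN q) {P : Set (Fin d → ℝ)} (hPc : Convex ℝ P)
    {x a : Fin d → ℝ} (ha : a ∈ P) (h : ∀ z ∈ P, q (x - a) ≤ q (x - z)) {s : ℝ} (hs : 0 ≤ s) :
    ∀ z ∈ P, q (a + s • (x - a) - a) ≤ q (a + s • (x - a) - z) := by
  intro y hy
  have e1 : a + s • (x - a) - a = s • (x - a) := by module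
  rw [e1, hq.smul, abs_of_nonneg hs]
  rcases le_or_gt s 1 with h1 | h1
  · have h2 := hq.add ((1 - s) • (x - a)) (a + s • (x - a) - y)
    have e2 : (1 - s) • (x - a) + (a + s • (x - a) - y) = x - y := by module
    rw [e2, hq.smul, abs_of_nonneg (by linarith : (0 : ℝ) ≤ 1 - s)] at h2
    have h3 := h y hy
    nlinarith
  · have hs0 : (0 : ℝ) < s := by linarith
    have hm : (1 - s⁻¹) • a + s⁻¹ • y ∈ P := by
      apply hPc ha hy
      · have : s⁻¹ ≤ 1 := inv_le_one_of_one_le₀ h1.le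
        linarith
      · positivity
      · ring
    have h2 := h _ hm
    have e2 : x - ((1 - s⁻¹) • a + s⁻¹ • y) = s⁻¹ • (a + s • (x - a) - y) := by
      have h5 : s⁻¹ • (s • (x - a)) = x - a := by
        rw [smul_smul, inv_mul_cancel₀ hs0.ne', one_smul]
      have h6 : s⁻¹ • (a + s • (x - a) - y) = s⁻¹ • a + s⁻¹ • (s • (x - a)) - s⁻¹ • y := by
        rw [smul_sub, smul_add]
      rw [h6, h5]
      module
    rw [e2, hq.smul, abs_of_pos (inv_pos.mpr hs0)] at h2
    have h3 : s * q (x - a) ≤ s * (s⁻¹ * q (a + s • (x - a) - y)) :=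
      mul_le_mul_of_nonneg_left h2 hs
    rwa [← mul_assoc, mul_inv_cancel₀ hs0.ne', one_mul] at h3

theorem exists_ctr {d : ℕ} {q : (Fin d → ℝ) → ℝ} (hq : SCN q) {P : Set (Fin d → ℝ)} (hP : IsCompact P) (hPc : Convex ℝ P)
    (hne : P.Nonempty) : ∃ c : (Fin d → ℝ) → (Fin d → ℝ), Ctr P c ∧ ∀ x, ∀ y ∈ P, q (x - c x) ≤ q (x - y) := by
  choose c hcP hc using fun x => D4_near hq hP hne x
  refine ⟨c, ⟨?_, hcP, ?_, ?_⟩, hc⟩
  · rw [continuous_iff_continuousAt]
    intro x
    rw [ContinuousAt, Filter.tendsto_def]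
    intro V hV
    obtain ⟨U, hUV, hU, hcU⟩ := mem_nhds_iff.mp hV
    have hQ : IsCompact (P \ U) := hP.diff hU
    rcases (P \ U).eq_empty_or_nonempty with h0 | h0
    · refine Filter.mem_of_superset Filter.univ_mem ?_
      intro x' _
      have h1 : c x' ∈ U := by
        by_contra hcon
        have h2 : c x' ∈ P \ U := ⟨hcP x', hcon⟩
        rw [h0] at h2
        exact h2
      exact hUV h1
    · obtain ⟨y0, hy0, hmin⟩ := D4_near hq hQ h0 x
      have hlt : q (x - c x) < q (x - y0) := by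
        refine lt_of_le_of_ne (hc x y0 hy0.1) ?_
        intro he
        have h1 : c x = y0 := by
          refine D4_uniq hq hPc (hcP x) hy0.1 (hc x) ?_
          intro z hz
          rw [← he]
          exact hc x z hz
        exact hy0.2 (h1 ▸ hcU)
      have hf : Continuous (fun x' : Fin d → ℝ => q (x - x') + q (x' - x)) :=
        (hq.cont.comp (continuous_const.sub continuous_id)).add
          (hq.cont.comp (continuous_id.sub continuous_const))
      have hev : ∀ᶠ x' in nhds x, q (x - x') + q (x' - x) < q (x - y0) - q (x - c x) := by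
        refine hf.continuousAt.eventually_lt continuousAt_const ?_
        change q (x - x) + q (x - x) < q (x - y0) - q (x - c x)
        rw [sub_self, D4_zero hq]
        linarith
      refine Filter.mem_of_superset hev ?_
      intro x' hx'
      have hx2 : q (x - x') + q (x' - x) < q (x - y0) - q (x - c x) := hx'
      have h1 : c x' ∈ U := by
        by_contra hcon
        have h2 := hmin (c x') ⟨hcP x', hcon⟩
        have h3 := hq.add (x - x') (x' - c x')
        have h4 := hc x' (c x) (hcP x)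
        have h5 := hq.add (x' - x) (x - c x)
        rw [sub_add_sub_cancel] at h3 h5
        linarith
      exact hUV h1
  · intro x s hs
    exact D4_uniq hq hPc (hcP _) (hcP x) (hc _) (D4_ray hq hPc (hcP x) (hc x) hs)
  · intro x hx
    have h1 := hc x x hx
    rw [sub_self, D4_zero hq] at h1
    have h2 := hq.zero _ (le_antisymm h1 (hq.nn _))
    exact (sub_eq_zero.mp h2).symm

end Pool.Agent.LibDQ20
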