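import Pool.Agent.LibDQ20.Defs

/-!
[DQ20 D5] (MEDIUM, only Mathlib) RADIAL MAPS with a moving centre. `Ψ z = c z + (f z / g z) • (z - c z)`. `c (Ψ z) = c z` (`ray`, `f z / g z ≥ 0`), `g (Ψ z) = f z`, `f (Ψ z) = (f z / g z) * f z`; if `z = c z` then `Ψ z = z`. CONTINUITY: where `z ≠ c z`: `g z > 0`. At `z₀ = c z₀`: `‖Ψ z - c z‖ ≤ (b / a) ‖z - c z‖`, and `z - c z → 0`, `c z → z₀`. INJECTIVE: the same `c z`, and `Ψ z - c z = (f z/g z) • (z - c z)`; if `Ψ z = Ψ z'` then `z - c z` and `z' - c z'` are positive multiples of each other (or both `0`), `z' = c z + s • (z - c z)`, the ratio `f/g` is the same, so `s = 1`.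
SURJECTIVE from `{f ≤ 1}` onto `{g ≤ 1}`: `Ψ' z = c z + (g z / f z) • (z - c z)` is the inverse. (For `z = c z` all values are `0`: `hf`, `hg` with `s = 0` give `f (c z) = 0`.)
-/

namespace Pool.Agent.LibDQ20

open Set

private noncomputable def D5_R {Z : Type*} [NormedAddCommGroup Z] [NormedSpace ℝ Z] (c : Z → Z) (f g : Z → ℝ) (z : Z) : Z :=
  c z + (f z / g z) • (z - c z)

private theorem D5_nonneg {Z : Type*} [NormedAddCommGroup Z] [NormedSpace ℝ Z] {c : Z → Z} {f : Z → ℝ} {a : ℝ}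
    (ha : 0 < a) (hfa : ∀ z, a * ‖z - c z‖ ≤ f z) (z : Z) : 0 ≤ f z :=
  le_trans (mul_nonneg ha.le (norm_nonneg _)) (hfa z)

private theorem D5_pos {Z : Type*} [NormedAddCommGroup Z] [NormedSpace ℝ Z] {c : Z → Z} {f : Z → ℝ} {a : ℝ}
    (ha : 0 < a) (hfa : ∀ z, a * ‖z - c z‖ ≤ f z) {z : Z} (hz : z - c z ≠ 0) : 0 < f z :=
  lt_of_lt_of_le (mul_pos ha (norm_pos_iff.2 hz)) (hfa z)

private theorem D5_zero {Z : Type*} [NormedAddCommGroup Z] [NormedSpace ℝ Z] {c : Z → Z} {f : Z → ℝ} {b : ℝ}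
    {a : ℝ} (ha : 0 < a) (hfa : ∀ z, a * ‖z - c z‖ ≤ f z)
    (hfb : ∀ z, f z ≤ b * ‖z - c z‖) {z : Z} (hz : z - c z = 0) : f z = 0 := by
  have h1 := hfb z
  have h2 := hfa z
  rw [hz, norm_zero, mul_zero] at h1 h2
  exact le_antisymm h1 h2

private theorem D5_ctr {Z : Type*} [NormedAddCommGroup Z] [NormedSpace ℝ Z] {P : Set Z} {c : Z → Z} (hc : Ctr P c)
    {f g : Z → ℝ} {a : ℝ} (ha : 0 < a) (hfa : ∀ z, a * ‖z - c z‖ ≤ f z)
    (hga : ∀ z, a * ‖z - c z‖ ≤ g z) (z : Z) : c (D5_R c f g z) = c z :=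
  hc.ray z _ (div_nonneg (D5_nonneg ha hfa z) (D5_nonneg ha hga z))

private theorem D5_sub {Z : Type*} [NormedAddCommGroup Z] [NormedSpace ℝ Z] {P : Set Z} {c : Z → Z} (hc : Ctr P c)
    {f g : Z → ℝ} {a : ℝ} (ha : 0 < a) (hfa : ∀ z, a * ‖z - c z‖ ≤ f z)
    (hga : ∀ z, a * ‖z - c z‖ ≤ g z) (z : Z) :
    D5_R c f g z - c (D5_R c f g z) = (f z / g z) • (z - c z) := by
  rw [D5_ctr hc ha hfa hga z]
  simp only [D5_R]
  abel

private theorem D5_val {Z : Type*} [NormedAddCommGroup Z] [NormedSpace ℝ Z] {c : Z → Z}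
    {f g : Z → ℝ} (hg : ∀ z (s : ℝ), 0 ≤ s → g (c z + s • (z - c z)) = s * g z)
    {a b : ℝ} (ha : 0 < a) (hfa : ∀ z, a * ‖z - c z‖ ≤ f z) (hfb : ∀ z, f z ≤ b * ‖z - c z‖)
    (hga : ∀ z, a * ‖z - c z‖ ≤ g z) (z : Z) : g (D5_R c f g z) = f z := by
  have h1 : g (D5_R c f g z) = (f z / g z) * g z :=
    hg z _ (div_nonneg (D5_nonneg ha hfa z) (D5_nonneg ha hga z))
  rw [h1]
  by_cases hz : z - c z = 0
  · rw [D5_zero ha hfa hfb hz]
    simp
  · exact div_mul_cancel₀ _ (ne_of_gt (D5_pos ha hga hz))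

private theorem D5_inv {Z : Type*} [NormedAddCommGroup Z] [NormedSpace ℝ Z] {P : Set Z} {c : Z → Z} (hc : Ctr P c)
    {f g : Z → ℝ}
    (hf : ∀ z (s : ℝ), 0 ≤ s → f (c z + s • (z - c z)) = s * f z) (hg : ∀ z (s : ℝ), 0 ≤ s → g (c z + s • (z - c z)) = s * g z)
    {a b : ℝ} (ha : 0 < a) (hfa : ∀ z, a * ‖z - c z‖ ≤ f z) (hfb : ∀ z, f z ≤ b * ‖z - c z‖)
    (hga : ∀ z, a * ‖z - c z‖ ≤ g z) (z : Z) :
    D5_R c g f (D5_R c f g z) = z := by
  have h1 : D5_R c g f (D5_R c f g z) = c (D5_R c f g z) +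
      (g (D5_R c f g z) / f (D5_R c f g z)) • (D5_R c f g z - c (D5_R c f g z)) := rfl
  rw [h1, D5_sub hc ha hfa hga z, D5_ctr hc ha hfa hga z, D5_val hg ha hfa hfb hga z, smul_smul]
  by_cases hz : z - c z = 0
  · rw [hz, smul_zero, add_zero]
    exact (sub_eq_zero.1 hz).symm
  · have hfz := D5_pos ha hfa hz
    have hgz := D5_pos ha hga hz
    have h2 : f (D5_R c f g z) = (f z / g z) * f z :=
      hf z _ (div_nonneg hfz.le hgz.le)
    have h3 : f z / f (D5_R c f g z) * (f z / g z) = 1 := by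
      rw [h2]
      field_simp
    rw [h3, one_smul]
    abel

private theorem D5_cont {Z : Type*} [NormedAddCommGroup Z] [NormedSpace ℝ Z] {P : Set Z} {c : Z → Z} (hc : Ctr P c)
    {f g : Z → ℝ} (hf0 : Continuous f) (hg0 : Continuous g)
    {a b : ℝ} (ha : 0 < a) (hfb : ∀ z, f z ≤ b * ‖z - c z‖)
    (hfa : ∀ z, a * ‖z - c z‖ ≤ f z)
    (hga : ∀ z, a * ‖z - c z‖ ≤ g z) : Continuous (D5_R c f g) := by
  rw [continuous_iff_continuousAt]
  intro z
  by_cases hz : z - c z = 0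
  · have hb : ∀ w, ‖(f w / g w) • (w - c w)‖ ≤ (b / a) * ‖w - c w‖ := by
      intro w
      by_cases hw : w - c w = 0
      · rw [hw]; simp
      · have hgw := D5_pos ha hga hw
        have hfw := D5_nonneg ha hfa w
        have hn : 0 < ‖w - c w‖ := norm_pos_iff.2 hw
        rw [norm_smul, Real.norm_of_nonneg (div_nonneg hfw hgw.le)]
        apply mul_le_mul_of_nonneg_right _ (norm_nonneg _)
        rw [div_le_div_iff₀ hgw ha]
        have hb0 : 0 ≤ b := by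
          by_contra hb
          have := mul_neg_of_neg_of_pos (not_le.1 hb) hn
          linarith [hfb w]
        calc f w * a ≤ (b * ‖w - c w‖) * a := mul_le_mul_of_nonneg_right (hfb w) ha.le
          _ = b * (a * ‖w - c w‖) := by ring
          _ ≤ b * g w := mul_le_mul_of_nonneg_left (hga w) hb0
    have h1 : Filter.Tendsto (fun w => (f w / g w) • (w - c w)) (nhds z) (nhds 0) := by
      have h2 : Filter.Tendsto (fun w => (b / a) * ‖w - c w‖) (nhds z) (nhds 0) := by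
        have h3 : Continuous fun w => (b / a) * ‖w - c w‖ :=
          continuous_const.mul (continuous_norm.comp (continuous_id.sub hc.cont))
        have h4 := h3.tendsto z
        simp only [hz, norm_zero, mul_zero] at h4
        exact h4
      exact squeeze_zero_norm hb h2
    have h5 : Filter.Tendsto (fun w => c w + (f w / g w) • (w - c w)) (nhds z) (nhds (c z + 0)) :=
      (hc.cont.tendsto z).add h1
    have h6 : D5_R c f g z = c z + 0 := by
      simp only [D5_R, hz, smul_zero]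
    show Filter.Tendsto (fun w => c w + (f w / g w) • (w - c w)) (nhds z) (nhds (D5_R c f g z))
    rw [h6]
    exact h5
  · have hgz := ne_of_gt (D5_pos ha hga hz)
    exact hc.cont.continuousAt.add
      ((hf0.continuousAt.div hg0.continuousAt hgz).smul (continuousAt_id.sub hc.cont.continuousAt))

theorem moving_radial {Z : Type*} [NormedAddCommGroup Z] [NormedSpace ℝ Z] {P : Set Z} {c : Z → Z} (hc : Ctr P c)
    {f g : Z → ℝ} (hf0 : Continuous f) (hg0 : Continuous g)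
    (hf : ∀ z (s : ℝ), 0 ≤ s → f (c z + s • (z - c z)) = s * f z) (hg : ∀ z (s : ℝ), 0 ≤ s → g (c z + s • (z - c z)) = s * g z)
    {a b : ℝ} (ha : 0 < a) (hfa : ∀ z, a * ‖z - c z‖ ≤ f z) (hfb : ∀ z, f z ≤ b * ‖z - c z‖)
    (hga : ∀ z, a * ‖z - c z‖ ≤ g z) (hgb : ∀ z, g z ≤ b * ‖z - c z‖) :
    ∃ Ψ : Z → Z, Continuous Ψ ∧ Function.Injective Ψ ∧ Ψ '' {z | f z ≤ 1} = {z | g z ≤ 1} ∧
      ∀ z, ∃ l : ℝ, 0 ≤ l ∧ Ψ z = c z + l • (z - c z) := by
  refine ⟨D5_R c f g, D5_cont hc hf0 hg0 ha hfb hfa hga, ?_, ?_, ?_⟩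
  · exact (show Function.LeftInverse (D5_R c g f) (D5_R c f g) from
      fun z => D5_inv hc hf hg ha hfa hfb hga z).injective
  · ext y
    constructor
    · rintro ⟨z, hz, rfl⟩
      have hz' : f z ≤ 1 := hz
      show g (D5_R c f g z) ≤ 1
      rw [D5_val hg ha hfa hfb hga z]
      exact hz'
    · intro hy
      have hy' : g y ≤ 1 := hy
      refine ⟨D5_R c g f y, ?_, D5_inv hc hg hf ha hga hgb hfa y⟩
      show f (D5_R c g f y) ≤ 1
      rw [D5_val hf ha hga hgb hfa y]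
      exact hy'
  · intro z
    exact ⟨f z / g z, div_nonneg (D5_nonneg ha hfa z) (D5_nonneg ha hga z), rfl⟩

end Pool.Agent.LibDQ20
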