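import Pool.Agent.LibDQ20.D5
import Pool.Agent.LibGC20.R2

/-!
[DQ20 D6] (LARGE) FOLIATION HOMEOMORPHISM. `Z = X × W`, centre map `ĉ (x, t) = (c x, 0)` (`Ctr (P ×ˢ {0}) ĉ`). `f (x, t) = max (gauge {v | c x + v ∈ T} (x - c x)) ‖t‖`, `g (x, t) = gauge {v | (c x, 0) + v ∈ C} (x - c x + φ t, t)`. Continuous by `LibGC20.gauge_joint` (`c x ∈ P ⊆ interior T`, `(c x, 0) ∈ interior C`). Homogeneous along the rays (`c` constant on them, `φ` homogeneous, `LibGC20.gauge_smul_centre`).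
BOUNDS: `T ⊆ closedBall 0 R`, and `closedBall a r ⊆ T` for all `a ∈ P` (compact subset of the interior): `‖v‖ / (2 R) ≤ gauge ≤ ‖v‖ / r`, the same for `C`; `‖(x - c x + φ t, t)‖` is comparable with `‖(x - c x, t)‖` because `‖φ t‖ ≤ M * ‖t‖` (`φ` continuous and homogeneous, `W` finite-dimensional).
`f ≤ 1 ↔ x ∈ T ∧ ‖t‖ ≤ 1` and `g ≤ 1 ↔ (x + φ t, t) ∈ C` (`LibGC20.gauge_centre_le_one`). `Ψ` from D5, `Φ (x, t) = (x + φ t, t)`, `G = Φ ∘ Ψ`: `G (x, t) = (x₁ + φ t₁, t₁)` with `(x₁, t₁) = Ψ (x, t) = (c x + l • (x - c x), l • t)`.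
-/

namespace Pool.Agent.LibDQ20

open Set

private lemma D6_gauge {V : Type*} [NormedAddCommGroup V] [NormedSpace ℝ V] {C P : Set V} (hC : IsCompact C)
    (hP : IsCompact P) (hPC : P ⊆ interior C) :
    ∃ a b : ℝ, 0 < a ∧ 0 < b ∧ ∀ p ∈ P, ∀ v : V, a * ‖v‖ ≤ gauge {v | p + v ∈ C} v ∧ gauge {v | p + v ∈ C} v ≤ b * ‖v‖ := by
  obtain ⟨r, hr, hrC⟩ := hP.exists_cthickening_subset_open isOpen_interior hPC
  obtain ⟨R₀, hR₀⟩ := hC.isBounded.subset_closedBall (0 : V)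
  set R : ℝ := max R₀ 1 with hR
  have hR1 : 0 < R := lt_of_lt_of_le one_pos (le_max_right _ _)
  have hRC : C ⊆ Metric.closedBall (0 : V) R := hR₀.trans (Metric.closedBall_subset_closedBall (le_max_left _ _))
  refine ⟨1 / (2 * R), 1 / r, by positivity, by positivity, fun p hp v => ?_⟩
  have hball : Metric.closedBall (0 : V) r ⊆ {v | p + v ∈ C} := by
    intro w hw
    rw [mem_closedBall_zero_iff] at hw
    have h1 : p + w ∈ Metric.closedBall p r := by
      rw [Metric.mem_closedBall, dist_eq_norm, add_sub_cancel_left]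
      exact hw
    have h2 : p + w ∈ C := interior_subset (hrC (Metric.closedBall_subset_cthickening hp r h1))
    exact h2
  have habs : Absorbent ℝ {v | p + v ∈ C} :=
    absorbent_nhds_zero (Filter.mem_of_superset (Metric.closedBall_mem_nhds (0 : V) hr) hball)
  constructor
  · have hsub : {v | p + v ∈ C} ⊆ Metric.closedBall (0 : V) (2 * R) := by
      intro w hw
      rw [mem_closedBall_zero_iff]
      have h1 : ‖p + w‖ ≤ R := mem_closedBall_zero_iff.1 (hRC hw)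
      have h2 : ‖p‖ ≤ R := mem_closedBall_zero_iff.1 (hRC (interior_subset (hPC hp)))
      have h3 : ‖w‖ ≤ ‖p + w‖ + ‖p‖ := by
        have h4 := norm_sub_le (p + w) p
        rwa [add_sub_cancel_left] at h4
      linarith
    have h := gauge_mono habs hsub v
    rw [gauge_closedBall (by positivity)] at h
    rw [one_div, inv_mul_eq_div]
    exact h
  · have h := gauge_mono (absorbent_nhds_zero (𝕜 := ℝ) (Metric.closedBall_mem_nhds (0 : V) hr)) hball v
    rw [gauge_closedBall hr.le] at h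
    rw [one_div, inv_mul_eq_div]
    exact h

private lemma D6_hom {X W : Type*} [NormedAddCommGroup X] [NormedSpace ℝ X]
    [NormedAddCommGroup W] [NormedSpace ℝ W] [FiniteDimensional ℝ W] {φ : W → X} (hφ : Continuous φ)
    (hφ1 : ∀ (s : ℝ) (w : W), 0 ≤ s → φ (s • w) = s • φ w) : ∃ M : ℝ, 0 ≤ M ∧ ∀ t, ‖φ t‖ ≤ M * ‖t‖ := by
  obtain ⟨M₀, hM₀⟩ := (isCompact_closedBall (0 : W) 1).exists_bound_of_continuousOn hφ.continuousOn
  have hM : 0 ≤ M₀ := (norm_nonneg _).trans (hM₀ 0 (Metric.mem_closedBall_self zero_le_one))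
  refine ⟨M₀, hM, fun t => ?_⟩
  by_cases ht : t = 0
  · have h0 : φ t = 0 := by
      have h1 := hφ1 0 t le_rfl
      rw [zero_smul, zero_smul] at h1
      rw [ht]
      exact h1
    rw [h0, norm_zero]
    positivity
  · have hn : ‖t‖ ≠ 0 := norm_ne_zero_iff.2 ht
    have e : t = ‖t‖ • (‖t‖⁻¹ • t) := by
      rw [smul_smul, mul_inv_cancel₀ hn, one_smul]
    have h2 : ‖t‖⁻¹ • t ∈ Metric.closedBall (0 : W) 1 := by
      rw [mem_closedBall_zero_iff, norm_smul, norm_inv, norm_norm, inv_mul_cancel₀ hn]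
    have h3 : φ t = ‖t‖ • φ (‖t‖⁻¹ • t) := by
      have h4 := hφ1 ‖t‖ (‖t‖⁻¹ • t) (norm_nonneg _)
      rwa [← e] at h4
    rw [h3, norm_smul, norm_norm, mul_comm]
    exact mul_le_mul_of_nonneg_right (hM₀ _ h2) (norm_nonneg _)

theorem foliation {X W : Type*} [NormedAddCommGroup X] [NormedSpace ℝ X] [FiniteDimensional ℝ X]
    [NormedAddCommGroup W] [NormedSpace ℝ W] [FiniteDimensional ℝ W] {C : Set (X × W)} (hC : IsCompact C) (hc : Convex ℝ C)
    {T P : Set X} (hT : IsCompact T) (hTc : Convex ℝ T) (hP : IsCompact P) (hPT : P ⊆ interior T)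
    (hPC : ∀ x ∈ P, (x, (0 : W)) ∈ interior C) {c : X → X} (hctr : Ctr P c) {φ : W → X} (hφ : Continuous φ)
    (hφ1 : ∀ (s : ℝ) (w : W), 0 ≤ s → φ (s • w) = s • φ w) :
    ∃ G : X × W → X × W, ContinuousOn G (T ×ˢ Metric.closedBall 0 1) ∧ InjOn G (T ×ˢ Metric.closedBall 0 1) ∧
      G '' (T ×ˢ Metric.closedBall 0 1) = C ∧ ∀ x t, ∃ l : ℝ, 0 ≤ l ∧
        (G (x, t)).1 - φ (G (x, t)).2 = c x + l • (x - c x) := by
  -- centre map
  set cc : X × W → X × W := fun z => (c z.1, 0) with hcc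
  have hCtr : Ctr (P ×ˢ ({0} : Set W)) cc := by
    refine ⟨?_, fun z => ⟨hctr.mem _, rfl⟩, ?_, ?_⟩
    · exact (hctr.cont.comp continuous_fst).prodMk continuous_const
    · rintro ⟨x, t⟩ s hs
      simp only [hcc, Prod.mk_sub_mk, Prod.smul_mk, Prod.mk_add_mk]
      rw [hctr.ray x s hs]
    · rintro ⟨x, t⟩ ⟨hx, ht⟩
      simp only [hcc]
      rw [hctr.fix x hx]
      rw [mem_singleton_iff] at ht
      simp only at ht
      rw [ht]
  obtain ⟨M, hM0, hM⟩ := D6_hom hφ hφ1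
  obtain ⟨a1, b1, ha1, hb1, h1⟩ := D6_gauge hT hP hPT
  have hP2 : IsCompact (P ×ˢ ({0} : Set W)) := hP.prod isCompact_singleton
  have hP2C : P ×ˢ ({0} : Set W) ⊆ interior C := by
    rintro ⟨x, t⟩ ⟨hx, ht⟩
    rw [mem_singleton_iff] at ht
    simp only at ht hx
    rw [ht]
    exact hPC x hx
  obtain ⟨a2, b2, ha2, hb2, h2⟩ := D6_gauge hC hP2 hP2C
  set f : X × W → ℝ := fun z => max (gauge {v | c z.1 + v ∈ T} (z.1 - c z.1)) ‖z.2‖ with hf
  set g : X × W → ℝ := fun z => gauge {v | cc z + v ∈ C} (z.1 - c z.1 + φ z.2, z.2) with hg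
  have hccmem : ∀ z, cc z ∈ P ×ˢ ({0} : Set W) := fun z => ⟨hctr.mem _, rfl⟩
  have hccont : Continuous cc := hCtr.cont
  have hfc : Continuous f := by
    have hcx : Continuous fun z : X × W => c z.1 := hctr.cont.comp continuous_fst
    have h3 : Continuous fun z : X × W => gauge {v | c z.1 + v ∈ T} (z.1 - c z.1) :=
      ContinuousOn.comp_continuous (LibGC20.gauge_joint hTc)
        (f := fun z : X × W => (c z.1, z.1 - c z.1))
        (hcx.prodMk (continuous_fst.sub hcx)) (fun z => ⟨hPT (hctr.mem _), mem_univ _⟩)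
    exact h3.max continuous_snd.norm
  have hgc : Continuous g := by
    have hcx : Continuous fun z : X × W => c z.1 := hctr.cont.comp continuous_fst
    have h4 : Continuous fun z : X × W => ((z.1 - c z.1 + φ z.2, z.2) : X × W) :=
      ((continuous_fst.sub hcx).add (hφ.comp continuous_snd)).prodMk continuous_snd
    exact ContinuousOn.comp_continuous (LibGC20.gauge_joint hc)
        (f := fun z : X × W => (cc z, ((z.1 - c z.1 + φ z.2, z.2) : X × W)))
        (hccont.prodMk h4) (fun z => ⟨hP2C (hccmem z), mem_univ _⟩)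
  have hfs : ∀ z (s : ℝ), 0 ≤ s → f (cc z + s • (z - cc z)) = s * f z := by
    rintro ⟨x, t⟩ s hs
    simp only [hf, hcc, Prod.mk_sub_mk, Prod.smul_mk, Prod.mk_add_mk, sub_zero, zero_add]
    rw [hctr.ray x s hs, add_sub_cancel_left, LibGC20.gauge_smul_centre T (c x) hs, norm_smul,
      Real.norm_eq_abs, abs_of_nonneg hs, mul_max_of_nonneg _ _ hs]
  have hgs : ∀ z (s : ℝ), 0 ≤ s → g (cc z + s • (z - cc z)) = s * g z := by
    rintro ⟨x, t⟩ s hs
    simp only [hg, hcc, Prod.mk_sub_mk, Prod.smul_mk, Prod.mk_add_mk, sub_zero, zero_add]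
    rw [hctr.ray x s hs, add_sub_cancel_left, hφ1 s t hs, ← smul_add, ← Prod.smul_mk,
      LibGC20.gauge_smul_centre C (c x, (0 : W)) hs]
  -- bounds
  set a : ℝ := min (min a1 1) (a2 / (1 + M)) with ha
  set b : ℝ := max (max b1 1) (b2 * (1 + M)) with hb
  have hM1 : 0 < 1 + M := by linarith
  have ha0 : 0 < a := lt_min (lt_min ha1 one_pos) (by positivity)
  have haa1 : a ≤ a1 := (min_le_left _ _).trans (min_le_left _ _)
  have haa2 : a ≤ 1 := (min_le_left _ _).trans (min_le_right _ _)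
  have haa3 : a ≤ a2 / (1 + M) := min_le_right _ _
  have hbb1 : b1 ≤ b := (le_max_left _ _).trans (le_max_left _ _)
  have hbb2 : 1 ≤ b := (le_max_right _ _).trans (le_max_left _ _)
  have hbb3 : b2 * (1 + M) ≤ b := le_max_right _ _
  have hnorm : ∀ z : X × W, ‖z - cc z‖ = max ‖z.1 - c z.1‖ ‖z.2‖ := by
    rintro ⟨x, t⟩
    simp only [hcc, Prod.mk_sub_mk, sub_zero, Prod.norm_mk]
  have hfa : ∀ z, a * ‖z - cc z‖ ≤ f z := by
    intro z
    rw [hnorm, mul_max_of_nonneg _ _ ha0.le]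
    refine max_le_max ?_ ?_
    · exact (mul_le_mul_of_nonneg_right haa1 (norm_nonneg _)).trans (h1 _ (hctr.mem _) _).1
    · exact (mul_le_mul_of_nonneg_right haa2 (norm_nonneg _)).trans (one_mul _).le
  have hfb : ∀ z, f z ≤ b * ‖z - cc z‖ := by
    intro z
    rw [hnorm, mul_max_of_nonneg _ _ (by linarith)]
    refine max_le_max ?_ ?_
    · exact (h1 _ (hctr.mem _) _).2.trans (mul_le_mul_of_nonneg_right hbb1 (norm_nonneg _))
    · exact (one_mul _).ge.trans (mul_le_mul_of_nonneg_right hbb2 (norm_nonneg _))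
  have hga : ∀ z, a * ‖z - cc z‖ ≤ g z := by
    intro z
    refine le_trans ?_ (h2 _ (hccmem z) _).1
    have h3 : ‖z - cc z‖ ≤ (1 + M) * ‖((z.1 - c z.1 + φ z.2, z.2) : X × W)‖ := by
      rw [hnorm, Prod.norm_mk]
      set m := max ‖z.1 - c z.1 + φ z.2‖ ‖z.2‖ with hm
      have m1 : ‖z.1 - c z.1 + φ z.2‖ ≤ m := le_max_left _ _
      have m2 : ‖z.2‖ ≤ m := le_max_right _ _
      have m3 : ‖z.1 - c z.1‖ ≤ ‖z.1 - c z.1 + φ z.2‖ + ‖φ z.2‖ := by
        have h4 := norm_sub_le (z.1 - c z.1 + φ z.2) (φ z.2)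
        rwa [add_sub_cancel_right] at h4
      have m4 := hM z.2
      have m5 : M * ‖z.2‖ ≤ M * m := mul_le_mul_of_nonneg_left m2 hM0
      have m6 : 0 ≤ M * m := mul_nonneg hM0 ((norm_nonneg _).trans m2)
      refine max_le ?_ ?_
      · linarith
      · linarith
    calc a * ‖z - cc z‖ ≤ a2 / (1 + M) * ((1 + M) * ‖((z.1 - c z.1 + φ z.2, z.2) : X × W)‖) :=
          mul_le_mul haa3 h3 (norm_nonneg _) (by positivity)
      _ = _ := by field_simp
  have hgb : ∀ z, g z ≤ b * ‖z - cc z‖ := by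
    intro z
    refine (h2 _ (hccmem z) _).2.trans ?_
    have h3 : ‖((z.1 - c z.1 + φ z.2, z.2) : X × W)‖ ≤ (1 + M) * ‖z - cc z‖ := by
      rw [hnorm, Prod.norm_mk]
      set m := max ‖z.1 - c z.1‖ ‖z.2‖ with hm
      have m1 : ‖z.1 - c z.1‖ ≤ m := le_max_left _ _
      have m2 : ‖z.2‖ ≤ m := le_max_right _ _
      have m3 : ‖z.1 - c z.1 + φ z.2‖ ≤ ‖z.1 - c z.1‖ + ‖φ z.2‖ := norm_add_le _ _
      have m4 := hM z.2
      have m5 : M * ‖z.2‖ ≤ M * m := mul_le_mul_of_nonneg_left m2 hM0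
      have m6 : 0 ≤ M * m := mul_nonneg hM0 ((norm_nonneg _).trans m2)
      refine max_le ?_ ?_
      · linarith
      · linarith
    calc b2 * ‖((z.1 - c z.1 + φ z.2, z.2) : X × W)‖ ≤ b2 * ((1 + M) * ‖z - cc z‖) :=
          mul_le_mul_of_nonneg_left h3 hb2.le
      _ = b2 * (1 + M) * ‖z - cc z‖ := by ring
      _ ≤ _ := mul_le_mul_of_nonneg_right hbb3 (norm_nonneg _)
  obtain ⟨Ψ, hΨc, hΨi, hΨr, hΨl⟩ := moving_radial hCtr hfc hgc hfs hgs ha0 hfa hfb hga hgb
  have hfset : {z | f z ≤ 1} = T ×ˢ Metric.closedBall (0 : W) 1 := by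
    ext ⟨x, t⟩
    simp only [mem_ofPred_eq, hf, max_le_iff, mem_prod, mem_closedBall_zero_iff]
    rw [LibGC20.gauge_centre_le_one hTc hT.isClosed (hPT (hctr.mem x)), add_sub_cancel]
  set Φ : X × W → X × W := fun z => (z.1 + φ z.2, z.2) with hΦ
  have hΦc : Continuous Φ := (continuous_fst.add (hφ.comp continuous_snd)).prodMk continuous_snd
  have hΦi : Function.Injective Φ := by
    rintro ⟨x, t⟩ ⟨y, u⟩ hxy
    simp only [hΦ, Prod.mk.injEq] at hxy
    obtain ⟨e1, e2⟩ := hxy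
    subst e2
    rw [add_left_inj] at e1
    rw [e1]
  have hgset : {z | g z ≤ 1} = Φ ⁻¹' C := by
    ext ⟨x, t⟩
    simp only [mem_ofPred_eq, hg, mem_preimage, hΦ]
    rw [LibGC20.gauge_centre_le_one hc hC.isClosed (hP2C (hccmem (x, t)))]
    have e : cc (x, t) + (x - c x + φ t, t) = (x + φ t, t) := by
      simp only [hcc, Prod.mk_add_mk, zero_add]
      congr 1
      abel
    rw [e]
  have hΦs : Φ '' (Φ ⁻¹' C) = C := by
    refine image_preimage_eq C ?_
    rintro ⟨x, t⟩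
    exact ⟨(x - φ t, t), by simp only [hΦ, sub_add_cancel]⟩
  refine ⟨Φ ∘ Ψ, (hΦc.comp hΨc).continuousOn, (hΦi.comp hΨi).injOn, ?_, fun x t => ?_⟩
  · rw [image_comp, ← hfset, hΨr, hgset, hΦs]
  · obtain ⟨l, hl, hlz⟩ := hΨl (x, t)
    refine ⟨l, hl, ?_⟩
    simp only [Function.comp_apply, hΦ, add_sub_cancel_right]
    rw [hlz]
    simp only [hcc, Prod.mk_sub_mk, Prod.smul_mk, Prod.mk_add_mk]

end Pool.Agent.LibDQ20
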