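import Pool.Agent.LibGC20.Defs

/-!
# LibDQ20: deterministic theorem: well approximable compact convex sets are Hilbert cubes (helper20)
Page: PAGE_7cd4a5_DETERMINISTIC_helper20.md
-/

namespace Pool.Agent.LibDQ20

open Set
open scoped Pointwise

variable {E : Type*} [NormedAddCommGroup E] [Module ℝ E]

/-- distance of `z` to the range of `Λ` -/
noncomputable def N {d : ℕ} (Λ : (Fin d → ℝ) →ₗ[ℝ] E) (z : E) : ℝ := Metric.infDist z (range Λ)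

/-- the range of `M` consists of directions in which `0` is interior to `K` -/
def Abs {X : Type*} [AddCommGroup X] [Module ℝ X] (K : Set E) (M : X →ₗ[ℝ] E) : Prop :=
  ∀ x, ∃ s : ℝ, 0 < s ∧ s • M x ∈ K

/-- vectors near `K - K` and of norm smaller than `δ'` -/
def Small (K : Set E) (δ' η' : ℝ) : Set E := {y | Metric.infDist y (K - K) < η' ∧ ‖y‖ < δ'}

/-- quality of the approximation of `K` by its intersection with the range of `Λ` -/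
structure Qual {d : ℕ} (K : Set E) (Λ : (Fin d → ℝ) →ₗ[ℝ] E) (δ δ' η' ε : ℝ) : Prop where
  nn : 0 ≤ δ
  lt : δ < δ'
  pos : 0 < η'
  near : ∀ z ∈ K, ∃ x, Λ x ∈ K ∧ ‖z - Λ x‖ ≤ δ
  lc : ∀ (w : Fin (d + 1) → ℝ) (y : Fin (d + 1) → E), (∀ i, 0 ≤ w i) → ∑ i, w i = 1 → (∀ i, y i ∈ Small K δ' η') →
    ‖∑ i, w i • y i‖ ≤ ε

/-- the points on rays which meet `Z₀`, modulo the range of `Λ` -/
def Zc {d : ℕ} (Λ : (Fin d → ℝ) →ₗ[ℝ] E) (Z₀ : Set E) : Set E := {z | ∃ s : ℝ, 0 < s ∧ ∃ x, s • z + Λ x ∈ Z₀}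

/-- small vectors which are tiny when they are near the range of `Λ`, together with all their multiples -/
def Gd {d : ℕ} (K : Set E) (Λ : (Fin d → ℝ) →ₗ[ℝ] E) (δ' η' ρ c : ℝ) : Set E :=
  {y | y ∈ Small K δ' η' ∧ ∀ s : ℝ, 0 ≤ s → s ≤ 1 → N Λ (s • y) ≤ 2 * ρ → ‖s • y‖ < c}

/-- the properties of the approximate section `σ` -/
structure Sec {d : ℕ} (K : Set E) (Λ : (Fin d → ℝ) →ₗ[ℝ] E) (δ' η' c : ℝ) (σ : E → E) : Prop where
  cont : ContinuousOn σ K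
  fib : ∀ z ∈ K, ∃ x, z - σ z = Λ x
  inv : ∀ z ∈ K, ∀ x, z + Λ x ∈ K → σ (z + Λ x) = σ z
  hull : ∀ z ∈ K, σ z ∈ convexHull ℝ {y | y ∈ Small K δ' η' ∧ ∃ x, y = z + Λ x}
  star : ∀ z ∈ K, ∀ s : ℝ, 0 ≤ s → s ≤ 1 → ∃ v, ‖v‖ ≤ c ∧ σ (s • z) - s • σ z = Λ v

/-- a strictly convex norm on `ℝ^d` -/
structure SCN {d : ℕ} (q : (Fin d → ℝ) → ℝ) : Prop where
  cont : Continuous q
  nn : ∀ x, 0 ≤ q x
  smul : ∀ (t : ℝ) x, q (t • x) = |t| * q x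
  add : ∀ x y, q (x + y) ≤ q x + q y
  zero : ∀ x, q x = 0 → x = 0
  strict : ∀ x y, q x = q y → q ((1 / 2 : ℝ) • (x + y)) = q x → x = y

/-- a centre map: continuous, with values in `P`, constant on the rays from its values -/
structure Ctr {X : Type*} [NormedAddCommGroup X] [NormedSpace ℝ X] (P : Set X) (c : X → X) : Prop where
  cont : Continuous c
  mem : ∀ x, c x ∈ P
  ray : ∀ x (s : ℝ), 0 ≤ s → c (c x + s • (x - c x)) = c x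
  fix : ∀ x ∈ P, c x = x

/-- `h` is a parametrization of `S` by the first `m` coordinates of the cube -/
structure Par (m : ℕ) (S : Set (Fin m → ℝ)) (h : (ℕ → unitInterval) → (Fin m → ℝ)) : Prop where
  cont : Continuous h
  inj : ∀ u v, h u = h v ↔ ∀ i < m, u i = v i
  ran : range h = S

/-- well approximable sets: for all `ε` and `N` there are `n ≥ N` points of `K` whose convex hull is `δ`-dense in `K`, where `0 < δ ≤ ε`, such that convex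
combinations of `n` vectors of `K - K` of norm `≤ 2 δ` have norm `≤ ε` -/
def Appr (K : Set E) : Prop :=
  ∀ ε : ℝ, 0 < ε → ∀ N₀ : ℕ, ∃ n, N₀ ≤ n ∧ ∃ q : Fin n → E, (∀ i, q i ∈ K) ∧ ∃ δ : ℝ, 0 < δ ∧ δ ≤ ε ∧
    (∀ z ∈ K, ∃ y ∈ convexHull ℝ (range q), ‖z - y‖ ≤ δ) ∧
    ∀ (w : Fin n → ℝ) (v : Fin n → E), (∀ i, 0 ≤ w i) → ∑ i, w i = 1 → (∀ i, v i ∈ K - K) → (∀ i, ‖v i‖ ≤ 2 * δ) →
      ‖∑ i, w i • v i‖ ≤ ε

/-- elements of `K` in whose opposite direction `K` extends are dense in `K` -/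
def DirDense (K : Set E) : Prop :=
  ∀ z ∈ K, ∀ τ : ℝ, 0 < τ → ∃ y ∈ K, ‖z - y‖ ≤ τ ∧ ∃ s : ℝ, 0 < s ∧ s • (-y) ∈ K

/-- the property of a parametrized section used for the next step: every larger section has a parametrization which is `e`-close and whose inverse is
coarsely controlled -/
def NX {d : ℕ} (K : Set E) (Λ : (Fin d → ℝ) →ₗ[ℝ] E) (h : (ℕ → unitInterval) → (Fin d → ℝ)) (n : ℕ) (e s : ℝ) : Prop :=
  ∀ (k : ℕ) (Λ' : (Fin (d + k) → ℝ) →ₗ[ℝ] E), Function.Injective Λ' → range Λ ⊆ range Λ' → Abs K Λ' →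
    ∃ h' : (ℕ → unitInterval) → (Fin (d + k) → ℝ), Par (d + k) {x | Λ' x ∈ K} h' ∧
      (∀ u, ‖Λ' (h' u) - Λ (h u)‖ ≤ e) ∧
      ∀ u v, ‖Λ' (h' u) - Λ' (h' v)‖ ≤ s → ∀ i < d, dist (u i) (v i) ≤ (1 / 2 : ℝ) ^ n

/-- a stage -/
structure SD (K : Set E) where
  n : ℕ
  d : ℕ
  Λ : (Fin d → ℝ) →ₗ[ℝ] E
  h : (ℕ → unitInterval) → (Fin d → ℝ)
  e : ℝ
  s : ℝ
  inj : Function.Injective Λ
  abs : Abs K Λ
  par : Par d {x | Λ x ∈ K} h
  epos : 0 < e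
  ele : e ≤ (1 / 2) ^ n
  spos : 0 < s
  dens : ∀ z ∈ K, ∃ u, ‖Λ (h u) - z‖ ≤ (1 / 2 : ℝ) ^ n
  nx : NX K Λ h n e s

/-- consecutive stages -/
structure SDnext {K : Set E} (a b : SD K) : Prop where
  lev : b.n = a.n + 1
  dim : a.d < b.d
  half : b.e ≤ a.e / 2
  fine : 8 * b.e ≤ a.s
  near : ∀ u, ‖b.Λ (b.h u) - a.Λ (a.h u)‖ ≤ a.e
  coarse : ∀ u v, ‖b.Λ (b.h u) - b.Λ (b.h v)‖ ≤ a.s → ∀ i < a.d, dist (u i) (v i) ≤ (1 / 2 : ℝ) ^ a.n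

end Pool.Agent.LibDQ20
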