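import Pool.Agent.LibDQ20.C3
import Pool.Agent.LibDQ20.C4
import Pool.Agent.LibDQ20.D2
import Pool.Agent.LibDQ20.D4
import Pool.Agent.LibDQ20.D6

/-!
[DQ20 E1] (MEDIUM) THE NORM, THE CENTRES. `T = {x | Λ x ∈ K}` is a compact convex neighbourhood of `0` (D1). `η₁` from `U₀_bdd`. `c₁ > 0` with `‖v‖ ≤ 2 * c₁ → ‖Λ v‖ ≤ ε` (`ctrl`) and `c₁ ≤ β`. `O = U₀ K Λ δ' η₁ + ball 0 (2 * c₁)` (Minkowski sum of convex symmetric bounded sets; neighbourhood of `0` as `0 ∈ U₀`). `q` from D3. `M₀ ≥ q` on `T`, `M₀ ≥ 1`, `a` from `SCN_lower`; `s = 1 - t`, `t ∈ (0, 1/2)`, `t * M₀ ≤ 1`, `t * M₀ / a ≤ min (β / 3) c₁`.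
`P = s • T = {s • x}`: compact convex, `P ⊆ interior T` (`s < 1`), `ctr` from D4. For `x ∈ T`: `q (x - ctr x) ≤ q (x - s • x) = t * q x ≤ t M₀`, so `‖x - ctr x‖ ≤ min (β/3) c₁`. `far`: `x` with `x - p ∈ O` for some `p ∈ T`: `q (x - ctr x) ≤ q (x - s • p) ≤ q (x - p) + t * q p ≤ 3`, so `(1/4) • (x - ctr x) ∈ O`, `x - ctr x = 4 • (u + v)`, `‖Λ (..)‖ ≤ 4 * (2 ε + ε)`.
-/

namespace Pool.Agent.LibDQ20

open scoped Pointwise

/-- the data of E1 -/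
structure Cen {E : Type*} [NormedAddCommGroup E] [Module ℝ E] [ContinuousSMul ℝ E] {d : ℕ} (K : Set E)
    (Λ : (Fin d → ℝ) →ₗ[ℝ] E) (δ' η₁ ε β c₁ : ℝ) (P : Set (Fin d → ℝ)) (ctr : (Fin d → ℝ) → (Fin d → ℝ)) : Prop where
  cpt : IsCompact P
  sub : P ⊆ interior {x | Λ x ∈ K}
  isCtr : Ctr P ctr
  near : ∀ x, Λ x ∈ K → ‖x - ctr x‖ ≤ β / 3 ∧ ‖x - ctr x‖ ≤ c₁
  far : ∀ x p, Λ p ∈ K → x - p ∈ U₀ K Λ δ' η₁ + Metric.ball 0 (2 * c₁) → ‖Λ (x - ctr x)‖ ≤ 12 * ε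
  small : ∀ v : Fin d → ℝ, ‖v‖ ≤ 2 * c₁ → ‖Λ v‖ ≤ ε

private theorem E1_int {d : ℕ} {T : Set (Fin d → ℝ)} (hc : Convex ℝ T) (h0 : T ∈ nhds (0 : Fin d → ℝ)) {s : ℝ} (hs : 0 ≤ s)
    (hs1 : s < 1) {x : Fin d → ℝ} (hx : x ∈ T) : s • x ∈ interior T := by
  have h1 : (0 : Fin d → ℝ) ∈ interior T := mem_interior_iff_mem_nhds.2 h0
  have h2 := hc.combo_interior_self_mem_interior h1 hx (a := 1 - s) (b := s) (by linarith) hs (by ring)
  rwa [smul_zero, zero_add] at h2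

private theorem E1_t {M a μ : ℝ} (hM : 1 ≤ M) (ha : 0 < a) (hμ : 0 < μ) :
    ∃ t : ℝ, 0 < t ∧ t ≤ 1 / 2 ∧ t * M ≤ 1 ∧ t * M ≤ a * μ := by
  have hM0 : 0 < M := by linarith
  refine ⟨min (1 / 2) (min (1 / M) (a * μ / M)), ?_, min_le_left _ _, ?_, ?_⟩
  · exact lt_min (by norm_num) (lt_min (by positivity) (by positivity))
  · have h1 : min (1 / 2) (min (1 / M) (a * μ / M)) ≤ 1 / M := (min_le_right _ _).trans (min_le_left _ _)
    calc _ ≤ 1 / M * M := mul_le_mul_of_nonneg_right h1 hM0.le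
      _ = 1 := by field_simp
  · have h1 : min (1 / 2) (min (1 / M) (a * μ / M)) ≤ a * μ / M := (min_le_right _ _).trans (min_le_right _ _)
    calc _ ≤ a * μ / M * M := mul_le_mul_of_nonneg_right h1 hM0.le
      _ = a * μ := by field_simp

private theorem E1_O {E : Type*} [NormedAddCommGroup E] [Module ℝ E] [ContinuousSMul ℝ E] {d : ℕ} {K : Set E}
    {Λ : (Fin d → ℝ) →ₗ[ℝ] E} (h0 : (0 : E) ∈ K) {δ' η₁ r : ℝ} (hδ : 0 < δ') (hη : 0 < η₁) (hr : 0 < r)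
    (hb : Bornology.IsBounded (U₀ K Λ δ' η₁)) :
    ∃ q : (Fin d → ℝ) → ℝ, SCN q ∧ (∀ x ∈ U₀ K Λ δ' η₁ + Metric.ball 0 r, q x ≤ 2) ∧
      ∀ x, q x < 1 → x ∈ U₀ K Λ δ' η₁ + Metric.ball 0 r := by
  apply exists_scn
  · exact (U₀_convex δ' η₁).add (convex_ball 0 r)
  · rintro x ⟨u, hu, v, hv, rfl⟩
    refine ⟨-u, U₀_symm hu, -v, ?_, ?_⟩
    · rw [mem_ball_zero_iff] at hv ⊢
      rwa [norm_neg]
    · show -u + -v = -(u + v)
      abel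
  · exact hb.add Metric.isBounded_ball
  · refine Filter.mem_of_superset (Metric.ball_mem_nhds 0 hr) ?_
    intro v hv
    exact ⟨0, U₀_zero h0 hδ hη, v, hv, zero_add v⟩

theorem exists_cen {E : Type*} [NormedAddCommGroup E] [Module ℝ E] [ContinuousSMul ℝ E]
    (hF : ∀ (t : ℝ) (x : E), |t| ≤ 1 → ‖t • x‖ ≤ ‖x‖) {d : ℕ} {Λ : (Fin d → ℝ) →ₗ[ℝ] E} (hΛ : Function.Injective Λ)
    {K : Set E} (hK : IsCompact K) (hc : Convex ℝ K) (h0 : (0 : E) ∈ K) (hA : Abs K Λ) {δ δ' η' ε β : ℝ}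
    (hQ : Qual K Λ δ δ' η' ε) (hε : 0 < ε) (hβ : 0 < β) :
    ∃ (η₁ c₁ : ℝ) (P : Set (Fin d → ℝ)) (ctr : (Fin d → ℝ) → (Fin d → ℝ)), 0 < η₁ ∧ η₁ ≤ η' ∧ 0 < c₁ ∧
      Bornology.IsBounded (U₀ K Λ δ' η₁) ∧ Cen K Λ δ' η₁ ε β c₁ P ctr := by
  have hδ : 0 < δ' := lt_of_le_of_lt hQ.nn hQ.lt
  have hT : IsCompact {x | Λ x ∈ K} := sect_compact hK hΛ
  have hTc : Convex ℝ {x | Λ x ∈ K} := sect_convex hc Λ
  have hTn : {x | Λ x ∈ K} ∈ nhds (0 : Fin d → ℝ) := sect_nhds hc h0 hA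
  obtain ⟨η₁, hη, hηle, hb⟩ := U₀_bdd hF hΛ hK h0 δ' hQ.pos
  obtain ⟨c, hc0, hcs⟩ := ctrl Λ hε
  have hQ1 := hQ.mono hη hηle
  have hc2 : 2 * (c / 2) = c := by ring
  obtain ⟨q, hq, hq2, hq1⟩ := E1_O (Λ := Λ) h0 hδ hη (r := 2 * (c / 2)) (by linarith) hb
  obtain ⟨C, hC⟩ := hT.exists_bound_of_continuousOn hq.cont.continuousOn
  obtain ⟨a, ha, haq⟩ := SCN_lower hq
  have hμ : 0 < min (β / 3) (c / 2) := lt_min (by linarith) (by linarith)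
  obtain ⟨t, ht0, ht2, htM, hta⟩ := E1_t (M := max 1 C) (le_max_left _ _) ha hμ
  have hqT : ∀ x, Λ x ∈ K → q x ≤ max 1 C := by
    intro x hx
    have h1 := hC x hx
    rw [Real.norm_eq_abs] at h1
    exact (le_abs_self _).trans (h1.trans (le_max_right _ _))
  have hP : IsCompact ((fun x : Fin d → ℝ => (1 - t) • x) '' {x | Λ x ∈ K}) :=
    hT.image (continuous_const_smul (1 - t))
  have hPc : Convex ℝ ((fun x : Fin d → ℝ => (1 - t) • x) '' {x | Λ x ∈ K}) := hTc.smul (1 - t)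
  have hPne : ((fun x : Fin d → ℝ => (1 - t) • x) '' {x | Λ x ∈ K}).Nonempty :=
    ⟨_, Set.mem_image_of_mem _ (mem_of_mem_nhds hTn)⟩
  obtain ⟨ctr, hctr, hmin⟩ := exists_ctr hq hP hPc hPne
  have hx1 : ∀ x : Fin d → ℝ, x - (1 - t) • x = t • x := by
    intro x
    rw [sub_smul, one_smul]
    abel
  refine ⟨η₁, c / 2, _, ctr, hη, hηle, by linarith, hb, hP, ?_, hctr, ?_, ?_, ?_⟩
  · rintro _ ⟨x, hx, rfl⟩
    exact E1_int hTc hTn (by linarith) (by linarith) hx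
  · intro x hx
    have h1 : q (x - ctr x) ≤ q (x - (1 - t) • x) := hmin x _ ⟨x, hx, rfl⟩
    rw [hx1, hq.smul, abs_of_pos ht0] at h1
    have h2 : t * q x ≤ t * max 1 C := mul_le_mul_of_nonneg_left (hqT x hx) ht0.le
    have h3 : a * ‖x - ctr x‖ ≤ a * min (β / 3) (c / 2) := (haq _).trans (h1.trans (h2.trans hta))
    have h4 : ‖x - ctr x‖ ≤ min (β / 3) (c / 2) := le_of_mul_le_mul_left h3 ha
    exact ⟨h4.trans (min_le_left _ _), h4.trans (min_le_right _ _)⟩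
  · intro x p hp hxp
    have h1 : q (x - ctr x) ≤ q (x - (1 - t) • p) := hmin x _ ⟨p, hp, rfl⟩
    have h2 : x - (1 - t) • p = (x - p) + t • p := by
      rw [← hx1 p]
      abel
    have h3 : q (x - (1 - t) • p) ≤ 3 := by
      rw [h2]
      have h4 := hq.add (x - p) (t • p)
      rw [hq.smul, abs_of_pos ht0] at h4
      have h5 : t * q p ≤ t * max 1 C := mul_le_mul_of_nonneg_left (hqT p hp) ht0.le
      have h6 := hq2 _ hxp
      linarith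
    have h4 : q ((1 / 4 : ℝ) • (x - ctr x)) < 1 := by
      rw [hq.smul, abs_of_pos (by norm_num)]
      linarith
    obtain ⟨u, hu, v, hv, huv⟩ := hq1 _ h4
    have h5 : x - ctr x = (4 : ℝ) • (u + v) := by
      have h6 : u + v = (1 / 4 : ℝ) • (x - ctr x) := huv
      rw [h6, smul_smul]
      norm_num
    have h6 : ‖Λ u‖ ≤ 2 * ε := U₀_norm hQ1 hu
    have h7 : ‖Λ v‖ ≤ ε := by
      apply hcs
      rw [mem_ball_zero_iff] at hv
      linarith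
    have h8 : ‖Λ (u + v)‖ ≤ 3 * ε := by
      rw [map_add]
      exact (norm_add_le _ _).trans (by linarith)
    rw [h5, map_smul]
    have h9 := LibGC20.norm_smul_le_nat hF 4 (t := 4) (by norm_num) (Λ (u + v))
    have h10 : ((4 : ℕ) : ℝ) * ‖Λ (u + v)‖ ≤ 12 * ε := by
      push_cast
      linarith
    exact h9.trans h10
  · intro v hv
    exact hcs v (by linarith)

end Pool.Agent.LibDQ20
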