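import Pool.Agent.LibDQ20.E1

/-!
[DQ20 E2] (LARGE) NEAR-PROJECTIONS. `η₁, c₁, P, ctr` from E1 (with `Qual.mono` for `η₁`). `R` a bound for `{x | ∃ p, Λ p ∈ K ∧ x - p ∈ U₀ + ball 0 (2 * c₁)}`. `ctr` is uniformly continuous on the closed ball of radius `R`: `c₀ ≤ c₁`, `c₀ > 0`, with `‖x - x'‖ ≤ 3 * c₀ → ‖ctr x - ctr x'‖ ≤ β / 3` there. `σ` from C3 (with `η₁`, `c₀`), `r` from C4, `s > 0` with `‖z - z'‖ ≤ s → ‖r z - r z'‖ ≤ c₀` on the compact `K`.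
Given `M`: `C = {z | M z ∈ K}` compact, convex; `φ` from D2; `(x, 0) ∈ interior C` for `x ∈ P`: `P ⊆ interior T`, `C` is a convex neighbourhood of `0` (`sect_nhds`), and `x = λ • x'` with `λ < 1`, `(x', 0) ∈ C` (`Convex.combo_self_interior_mem_interior` or `gauge`). `G` from D6 with `T = {x | Λ x ∈ K}`.
For `p = (x, t) ∈ T × ball`, `z = G p`, `x₁ = z.1 - φ z.2 = ctr x + l • (x - ctr x)`, so `ctr x₁ = ctr x`. `M z = Λ x₁ + M (φ z.2, z.2) = Λ x₁ + σ (M z) + Λ v`, `‖v‖ ≤ c₀`; hence `r (M z) = x₁ + v`. `r_pos`: `p' ` with `Λ p' ∈ K`, `r (M z) - p' ∈ U₀`, so `x₁ - p' ∈ U₀ + ball 0 (2 c₁)`: `‖Λ (x₁ - ctr x₁)‖ ≤ 12 ε`, `‖x₁‖ ≤ R`.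
DISPLACEMENT: `M z - Λ x = σ (M z) + Λ v + Λ (x₁ - ctr x₁) + Λ (ctr x - x)`, norm `≤ ε + ε + 12 ε + ε ≤ 16 ε` (`sec_norm`, `Cen.small`). COARSE: `‖M z - M z'‖ ≤ s` gives `‖x₁ - x₁'‖ ≤ 3 c₀`, `‖ctr x - ctr x'‖ = ‖ctr x₁ - ctr x₁'‖ ≤ β / 3`, and `Cen.near` for `x, x'`.
-/

namespace Pool.Agent.LibDQ20

open Set

open scoped Pointwise in
private theorem E2_mem {E : Type*} [NormedAddCommGroup E] [Module ℝ E] {d : ℕ}
    {Λ : (Fin d → ℝ) →ₗ[ℝ] E} {K : Set E} {δ' η₁ c : ℝ} {y u v : Fin d → ℝ}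
    (hu : u ∈ U₀ K Λ δ' η₁) (hv : ‖v‖ < c) (h : y = u + v) :
    y ∈ U₀ K Λ δ' η₁ + Metric.ball 0 c := by
  rw [h]
  exact Set.add_mem_add hu (by rwa [mem_ball_zero_iff])

open scoped Pointwise in
private theorem E2_bdd {E : Type*} [NormedAddCommGroup E] [Module ℝ E] [ContinuousSMul ℝ E] {d : ℕ}
    {Λ : (Fin d → ℝ) →ₗ[ℝ] E} (hΛ : Function.Injective Λ) {K : Set E} (hK : IsCompact K) {δ' η₁ c₁ : ℝ}
    (hU : Bornology.IsBounded (U₀ K Λ δ' η₁)) :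
    ∃ R : ℝ, ∀ x p, Λ p ∈ K → x - p ∈ U₀ K Λ δ' η₁ + Metric.ball 0 (2 * c₁) → ‖x‖ ≤ R := by
  obtain ⟨R₁, hR₁⟩ := (sect_compact hK hΛ).isBounded.exists_norm_le
  obtain ⟨R₂, hR₂⟩ := hU.exists_norm_le
  refine ⟨R₁ + (R₂ + 2 * c₁), fun x p hp hx => ?_⟩
  obtain ⟨u, hu, v, hv, huv⟩ := hx
  have h1 := hR₁ p hp
  have h2 := hR₂ u hu
  have h3 : ‖v‖ < 2 * c₁ := by
    rwa [mem_ball_zero_iff] at hv
  have h4 : x = p + (u + v) := by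
    have h5 : u + v = x - p := huv
    rw [h5, add_sub_cancel]
  rw [h4]
  have h6 := norm_add_le p (u + v)
  have h7 := norm_add_le u v
  linarith

private theorem E2_int {E : Type*} [NormedAddCommGroup E] [Module ℝ E] [ContinuousSMul ℝ E] {d k : ℕ}
    {Λ : (Fin d → ℝ) →ₗ[ℝ] E} {K : Set E} (hc : Convex ℝ K) (h0 : (0 : E) ∈ K)
    {M : (Fin d → ℝ) × (Fin k → ℝ) →ₗ[ℝ] E} (hMΛ : ∀ x, M (x, 0) = Λ x) (hA : Abs K M) {x : Fin d → ℝ}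
    (hx : x ∈ interior {x | Λ x ∈ K}) : (x, (0 : Fin k → ℝ)) ∈ interior {z | M z ∈ K} := by
  have hcont : Filter.Tendsto (fun t : ℝ => t • x) (nhds 1) (nhds ((1 : ℝ) • x)) :=
    (continuous_id.smul continuous_const).tendsto 1
  rw [one_smul] at hcont
  have h1 : ∀ᶠ t : ℝ in nhds 1, t • x ∈ interior {x | Λ x ∈ K} :=
    hcont (isOpen_interior.mem_nhds hx)
  obtain ⟨t, ht, ht1⟩ := ((h1.filter_mono (nhdsWithin_le_nhds (s := Ioi (1 : ℝ)))).and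
    self_mem_nhdsWithin).exists
  have ht1' : (1 : ℝ) < t := ht1
  have ht0 : (0 : ℝ) < t := zero_lt_one.trans ht1'
  have hy : (t • x, (0 : Fin k → ℝ)) ∈ {z | M z ∈ K} := by
    change M (t • x, 0) ∈ K
    rw [hMΛ]
    exact (interior_subset ht : t • x ∈ {x | Λ x ∈ K})
  have hz : (0 : (Fin d → ℝ) × (Fin k → ℝ)) ∈ interior {z | M z ∈ K} :=
    mem_interior_iff_mem_nhds.2 (sect_nhds hc h0 hA)
  have h2 := (sect_convex hc M).combo_interior_self_mem_interior hz hy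
    (a := 1 - t⁻¹) (b := t⁻¹) (by
      have : t⁻¹ < 1 := inv_lt_one_of_one_lt₀ ht1'
      linarith) (inv_pos.2 ht0).le (by ring)
  have h3 : (1 - t⁻¹) • (0 : (Fin d → ℝ) × (Fin k → ℝ)) + t⁻¹ • (t • x, (0 : Fin k → ℝ)) = (x, 0) := by
    rw [smul_zero, zero_add, Prod.smul_mk, smul_zero, smul_smul, inv_mul_cancel₀ ht0.ne', one_smul]
  rwa [h3] at h2

theorem near_proj {E : Type*} [NormedAddCommGroup E] [Module ℝ E] [ContinuousSMul ℝ E]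
    (hF : ∀ (t : ℝ) (x : E), |t| ≤ 1 → ‖t • x‖ ≤ ‖x‖) {d : ℕ} {Λ : (Fin d → ℝ) →ₗ[ℝ] E} (hΛ : Function.Injective Λ)
    {K : Set E} (hK : IsCompact K) (hc : Convex ℝ K) (h0 : (0 : E) ∈ K) (hA : Abs K Λ) {δ δ' η' ε β : ℝ}
    (hQ : Qual K Λ δ δ' η' ε) (hε : 0 < ε) (hβ : 0 < β) :
    ∃ s : ℝ, 0 < s ∧ ∀ (k : ℕ) (M : (Fin d → ℝ) × (Fin k → ℝ) →ₗ[ℝ] E), Function.Injective M → (∀ x, M (x, 0) = Λ x) →
      Abs K M → ∃ G : (Fin d → ℝ) × (Fin k → ℝ) → (Fin d → ℝ) × (Fin k → ℝ),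
        ContinuousOn G ({x | Λ x ∈ K} ×ˢ Metric.closedBall 0 1) ∧ InjOn G ({x | Λ x ∈ K} ×ˢ Metric.closedBall 0 1) ∧
        G '' ({x | Λ x ∈ K} ×ˢ Metric.closedBall 0 1) = {z | M z ∈ K} ∧
        (∀ p ∈ ({x | Λ x ∈ K} ×ˢ Metric.closedBall 0 1 : Set ((Fin d → ℝ) × (Fin k → ℝ))), ‖M (G p) - Λ p.1‖ ≤ 16 * ε) ∧
        ∀ p ∈ ({x | Λ x ∈ K} ×ˢ Metric.closedBall 0 1 : Set ((Fin d → ℝ) × (Fin k → ℝ))),
          ∀ p' ∈ ({x | Λ x ∈ K} ×ˢ Metric.closedBall 0 1 : Set ((Fin d → ℝ) × (Fin k → ℝ))),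
            ‖M (G p) - M (G p')‖ ≤ s → ‖p.1 - p'.1‖ ≤ β := by
  obtain ⟨η₁, c₁, P, ctr, hη₁, hη₁', hc₁, hU, hCen⟩ := exists_cen hF hΛ hK hc h0 hA hQ hε hβ
  have hQ₁ : Qual K Λ δ δ' η₁ ε := hQ.mono hη₁ hη₁'
  obtain ⟨R, hR⟩ := E2_bdd (c₁ := c₁) hΛ hK hU
  have huc : UniformContinuousOn ctr (Metric.closedBall (0 : Fin d → ℝ) R) :=
    (isCompact_closedBall _ _).uniformContinuousOn_of_continuous hCen.isCtr.cont.continuousOn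
  obtain ⟨c₂, hc₂, hc₂'⟩ := Metric.uniformContinuousOn_iff.1 huc (β / 3) (by positivity)
  obtain ⟨c₀, hc₀, hc₀₁, hc₀₂⟩ : ∃ c₀ : ℝ, 0 < c₀ ∧ c₀ ≤ c₁ ∧ 3 * c₀ < c₂ := by
    refine ⟨min c₁ (c₂ / 4), lt_min hc₁ (by positivity), min_le_left _ _, ?_⟩
    have := min_le_right c₁ (c₂ / 4)
    linarith
  obtain ⟨σ, hσ⟩ := exists_section hF hΛ hK hc h0 hQ.lt hQ.nn hη₁ hc₀ hQ.near
  obtain ⟨r, hr, hr'⟩ := exists_r hF hΛ hσ
  have hur := hK.uniformContinuousOn_of_continuous hr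
  obtain ⟨s₁, hs₁, hs₁'⟩ := Metric.uniformContinuousOn_iff.1 hur c₀ hc₀
  refine ⟨s₁ / 2, by positivity, fun k M hM hMΛ hAM => ?_⟩
  obtain ⟨φ, hφ, hφs, hφM⟩ := exists_phi hF hK hc h0 hσ hM hMΛ hAM
  obtain ⟨G, hG1, hG2, hG3, hG4⟩ := foliation (sect_compact hK hM) (sect_convex hc M)
    (sect_compact hK hΛ) (sect_convex hc Λ) hCen.cpt hCen.sub
    (fun x hx => E2_int hc h0 hMΛ hAM (hCen.sub hx)) hCen.isCtr hφ hφs
  have key : ∀ p ∈ ({x | Λ x ∈ K} ×ˢ Metric.closedBall 0 1 : Set ((Fin d → ℝ) × (Fin k → ℝ))),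
      ∃ x₁ v : Fin d → ℝ, ctr x₁ = ctr p.1 ∧ ‖v‖ ≤ c₀ ∧ M (G p) ∈ K ∧
        M (G p) = Λ x₁ + σ (M (G p)) + Λ v ∧ r (M (G p)) = x₁ + v ∧ ‖x₁‖ ≤ R ∧
        ‖Λ (x₁ - ctr x₁)‖ ≤ 12 * ε := by
    intro p hp
    have hz : M (G p) ∈ K := by
      have h1 : G p ∈ {z | M z ∈ K} := by
        rw [← hG3]
        exact mem_image_of_mem G hp
      exact h1
    obtain ⟨l, hl, hl'⟩ := hG4 p.1 p.2
    obtain ⟨v, hv, hv'⟩ := hφM (G p) hz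
    have hp' : G (p.1, p.2) = G p := rfl
    rw [hp'] at hl'
    have hctr : ctr ((G p).1 - φ (G p).2) = ctr p.1 := by
      rw [hl']
      exact hCen.isCtr.ray p.1 l hl
    have hM1 : M (G p) = Λ ((G p).1 - φ (G p).2) + σ (M (G p)) + Λ v := by
      rw [add_assoc, ← hv', ← hMΛ, ← map_add, Prod.mk_add_mk, sub_add_cancel, zero_add]
    have hr1 : r (M (G p)) = ((G p).1 - φ (G p).2) + v := by
      apply hΛ
      rw [← hr' _ hz, map_add]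
      nth_rewrite 1 [hM1]
      abel
    obtain ⟨p', hp1, hp2⟩ := r_pos hΛ hQ₁ hσ hz (hr' _ hz)
    have hmem := E2_mem (c := 2 * c₁) (y := ((G p).1 - φ (G p).2) - p') (v := -v) hp2
      (by rw [norm_neg]; linarith) (by rw [hr1]; abel)
    exact ⟨(G p).1 - φ (G p).2, v, hctr, hv, hz, hM1, hr1, hR _ p' hp1 hmem, hCen.far _ p' hp1 hmem⟩
  refine ⟨G, hG1, hG2, hG3, fun p hp => ?_, fun p hp p' hp' hpp => ?_⟩
  · obtain ⟨x₁, v, h1, h2, h3, h4, h5, h6, h7⟩ := key p hp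
    have hpT : Λ p.1 ∈ K := hp.1
    have h8 : M (G p) - Λ p.1 = σ (M (G p)) + Λ v + Λ (x₁ - ctr x₁) + Λ (ctr p.1 - p.1) := by
      rw [h1, map_sub, map_sub]
      nth_rewrite 1 [h4]
      abel
    rw [h8]
    have h9 := sec_norm hQ₁ hσ h3
    have h10 : ‖Λ v‖ ≤ ε := hCen.small v (by linarith)
    have h11 : ‖Λ (ctr p.1 - p.1)‖ ≤ ε := by
      apply hCen.small
      rw [norm_sub_rev]
      have := (hCen.near p.1 hpT).2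
      linarith
    have h12 := norm_add_le (σ (M (G p)) + Λ v + Λ (x₁ - ctr x₁)) (Λ (ctr p.1 - p.1))
    have h13 := norm_add_le (σ (M (G p)) + Λ v) (Λ (x₁ - ctr x₁))
    have h14 := norm_add_le (σ (M (G p))) (Λ v)
    linarith
  · obtain ⟨x₁, v, h1, h2, h3, h4, h5, h6, h7⟩ := key p hp
    obtain ⟨x₂, w, g1, g2, g3, g4, g5, g6, g7⟩ := key p' hp'
    have e1 : ‖r (M (G p)) - r (M (G p'))‖ ≤ c₀ := by
      have := hs₁' _ h3 _ g3 (by rw [dist_eq_norm]; linarith)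
      rw [dist_eq_norm] at this
      exact this.le
    have e2 : ‖x₁ - x₂‖ ≤ 3 * c₀ := by
      have e3 : x₁ - x₂ = (r (M (G p)) - r (M (G p'))) + (w - v) := by
        rw [h5, g5]
        abel
      rw [e3]
      have e4 := norm_add_le (r (M (G p)) - r (M (G p'))) (w - v)
      have e5 := norm_sub_le w v
      linarith
    have e6 : ‖ctr x₁ - ctr x₂‖ ≤ β / 3 := by
      have := hc₂' x₁ (by rwa [mem_closedBall_zero_iff]) x₂ (by rwa [mem_closedBall_zero_iff])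
        (by rw [dist_eq_norm]; linarith)
      rw [dist_eq_norm] at this
      exact this.le
    have e7 := (hCen.near p.1 hp.1).1
    have e8 := (hCen.near p'.1 hp'.1).1
    have e9 : p.1 - p'.1 = (p.1 - ctr p.1) + (ctr x₁ - ctr x₂) + (ctr p'.1 - p'.1) := by
      rw [h1, g1]
      abel
    rw [norm_sub_rev] at e8
    rw [e9]
    have e10 := norm_add_le ((p.1 - ctr p.1) + (ctr x₁ - ctr x₂)) (ctr p'.1 - p'.1)
    have e11 := norm_add_le (p.1 - ctr p.1) (ctr x₁ - ctr x₂)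
    linarith

end Pool.Agent.LibDQ20
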