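import Pool.Agent.LibDQ20.Defs
import Pool.Agent.LibGC20.R1

/-!
[DQ20 E3] (SMALL) PARAMETRIZATIONS. `par_comp`: as `LibGC20.good_comp` (F3 there) with `T d` replaced by any `T` and `T (d + k)` by any `S`. `base_par`: a compact convex neighbourhood `S` of `0` in `ℝ^m` is a cube (as `LibGC20.base`, F4 there, with the gauge of `S`). `par_modulus`: the pairs `(u, v)` with `η ≤ dist (u i) (v i)` for some `i < d` form a compact set, on which `‖h u - h v‖ > 0`.
-/

namespace Pool.Agent.LibDQ20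

open Set

private theorem E3_abs (d k : ℕ) (u : ℕ → unitInterval) : LibGC20.tm d k u ∈ Metric.closedBall (0 : Fin k → ℝ) 1 := by
  rw [mem_closedBall_zero_iff, pi_norm_le_iff_of_nonneg zero_le_one]
  intro j
  have h1 := (u (d + j)).2.1
  have h2 := (u (d + j)).2.2
  simp only [LibGC20.tm, Real.norm_eq_abs]
  rw [abs_le]
  constructor <;> linarith

private theorem E3_cont (d k : ℕ) : Continuous (LibGC20.tm d k) := by
  refine continuous_pi fun j => ?_
  unfold LibGC20.tm
  fun_prop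

private theorem E3_range {d k : ℕ} {T : Set (Fin d → ℝ)} {h : (ℕ → unitInterval) → (Fin d → ℝ)} (hh : Par d T h) :
    range (fun u => (h u, LibGC20.tm d k u)) = T ×ˢ Metric.closedBall (0 : Fin k → ℝ) 1 := by
  ext ⟨x, t⟩
  constructor
  · rintro ⟨u, hu⟩
    have h1 : h u = x := congrArg Prod.fst hu
    have h2 : LibGC20.tm d k u = t := congrArg Prod.snd hu
    refine ⟨?_, ?_⟩
    · change x ∈ T
      rw [← hh.ran, ← h1]
      exact mem_range_self u
    · change t ∈ _
      rw [← h2]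
      exact E3_abs d k u
  · rintro ⟨hx, ht⟩
    change x ∈ T at hx
    change t ∈ Metric.closedBall (0 : Fin k → ℝ) 1 at ht
    rw [← hh.ran] at hx
    obtain ⟨u, hu⟩ := hx
    rw [mem_closedBall_zero_iff, pi_norm_le_iff_of_nonneg zero_le_one] at ht
    have hI : ∀ j : Fin k, (t j + 1) / 2 ∈ unitInterval := by
      intro j
      have h1 := ht j
      rw [Real.norm_eq_abs, abs_le] at h1
      constructor <;> linarith [h1.1, h1.2]
    obtain ⟨v, hv⟩ : ∃ v : ℕ → unitInterval, v = fun i => if hi : i < d then u i else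
      if hk : i - d < k then ⟨(t ⟨i - d, hk⟩ + 1) / 2, hI _⟩ else u i := ⟨_, rfl⟩
    refine ⟨v, Prod.ext ?_ ?_⟩
    · change h v = x
      rw [← hu, hh.inj]
      intro i hi
      simp [hv, hi]
    · change LibGC20.tm d k v = t
      funext j
      have h1 : ¬ (d + (j : ℕ) < d) := by omega
      have h2 : d + (j : ℕ) - d < k := by have := j.2; omega
      simp only [LibGC20.tm, hv, h1, h2, dite_true, dite_false]
      have h3 : (⟨d + (j : ℕ) - d, h2⟩ : Fin k) = j := by
        apply Fin.ext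
        simp
      rw [h3]
      ring

private noncomputable def E3_f (m : ℕ) : Unit × (Fin m → ℝ) → ℝ := fun p => ‖p.2‖

private noncomputable def E3_g {m : ℕ} (S : Set (Fin m → ℝ)) : Unit × (Fin m → ℝ) → ℝ := fun p => gauge S p.2

private def E3_t (m : ℕ) (u : ℕ → unitInterval) : Fin m → ℝ := fun j => 2 * (u j : ℝ) - 1

private theorem E3_hf (m : ℕ) : LibGC20.Hom (univ : Set Unit) (E3_f m) where
  cont := (continuous_norm.comp continuous_snd).continuousOn
  hom := fun a _ s hs w => by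
    change ‖s • w‖ = s * ‖w‖
    rw [norm_smul, Real.norm_of_nonneg hs]
  pos := fun a _ w hw => norm_pos_iff.2 hw

private theorem E3_hg {m : ℕ} {S : Set (Fin m → ℝ)} (hS : IsCompact S) (hc : Convex ℝ S) (h0 : S ∈ nhds (0 : Fin m → ℝ)) :
    LibGC20.Hom (univ : Set Unit) (E3_g S) where
  cont := ((continuous_gauge hc h0).comp continuous_snd).continuousOn
  hom := fun a _ s hs w => by
    change gauge S (s • w) = s * gauge S w
    rw [gauge_smul_of_nonneg hs, smul_eq_mul]
  pos := fun a _ w hw => by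
    change 0 < gauge S w
    exact (gauge_pos (absorbent_nhds_zero h0) ((NormedSpace.isVonNBounded_iff ℝ).2 hS.isBounded)).2 hw

private theorem E3_mem {m : ℕ} {S : Set (Fin m → ℝ)} (hS : IsCompact S) (hc : Convex ℝ S) (h0 : S ∈ nhds (0 : Fin m → ℝ))
    (x : Fin m → ℝ) : E3_g S ((), x) ≤ 1 ↔ x ∈ S := by
  change gauge S x ≤ 1 ↔ _
  rw [gauge_le_one_iff_mem_closure hc h0, hS.isClosed.closure_eq]

private theorem E3_tnorm {m : ℕ} (u : ℕ → unitInterval) : ‖E3_t m u‖ ≤ 1 := by
  rw [pi_norm_le_iff_of_nonneg zero_le_one]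
  intro j
  have h1 := (u j).2.1
  have h2 := (u j).2.2
  rw [Real.norm_eq_abs, abs_le]
  change -1 ≤ 2 * (u j : ℝ) - 1 ∧ 2 * (u j : ℝ) - 1 ≤ 1
  constructor <;> linarith

private theorem E3_tsurj {m : ℕ} {x : Fin m → ℝ} (hx : ‖x‖ ≤ 1) : ∃ u : ℕ → unitInterval, E3_t m u = x := by
  rw [pi_norm_le_iff_of_nonneg zero_le_one] at hx
  have h1 : ∀ j : Fin m, (x j + 1) / 2 ∈ unitInterval := fun j => by
    have h2 := hx j
    rw [Real.norm_eq_abs, abs_le] at h2
    constructor <;> linarith [h2.1, h2.2]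
  refine ⟨fun i => if h : i < m then ⟨(x ⟨i, h⟩ + 1) / 2, h1 ⟨i, h⟩⟩ else 0, ?_⟩
  funext j
  change 2 * (((if h : (j : ℕ) < m then ⟨(x ⟨j, h⟩ + 1) / 2, h1 ⟨j, h⟩⟩ else 0 : unitInterval)) : ℝ) - 1 = x j
  rw [dif_pos j.2]
  change 2 * ((x j + 1) / 2) - 1 = x j
  ring

theorem par_comp {d k : ℕ} {T : Set (Fin d → ℝ)} {h : (ℕ → unitInterval) → (Fin d → ℝ)} (hh : Par d T h)
    {S : Set (Fin (d + k) → ℝ)} {g : (Fin d → ℝ) × (Fin k → ℝ) → (Fin (d + k) → ℝ)}
    (hg : ContinuousOn g (T ×ˢ Metric.closedBall 0 1)) (hi : InjOn g (T ×ˢ Metric.closedBall 0 1))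
    (hr : g '' (T ×ˢ Metric.closedBall 0 1) = S) : Par (d + k) S fun u => g (h u, LibGC20.tm d k u) := by
  have hmem : ∀ u, (h u, LibGC20.tm d k u) ∈ T ×ˢ Metric.closedBall (0 : Fin k → ℝ) 1 := by
    intro u
    rw [← E3_range hh]
    exact mem_range_self u
  refine ⟨?_, ?_, ?_⟩
  · exact hg.comp_continuous (hh.cont.prodMk (E3_cont d k)) hmem
  · intro u v
    rw [hi.eq_iff (hmem u) (hmem v), Prod.mk.injEq, hh.inj]
    constructor
    · rintro ⟨h1, h2⟩ i hi'
      by_cases hd : i < d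
      · exact h1 i hd
      · have h3 := congrFun h2 ⟨i - d, by omega⟩
        simp only [LibGC20.tm] at h3
        have h4 : d + (i - d) = i := by omega
        rw [h4] at h3
        apply Subtype.ext
        linarith
    · intro h1
      refine ⟨fun i hi' => h1 i (by omega), ?_⟩
      funext j
      simp only [LibGC20.tm]
      rw [h1 (d + j) (by have := j.2; omega)]
  · have h1 : range (fun u => g (h u, LibGC20.tm d k u)) = g '' range (fun u => (h u, LibGC20.tm d k u)) := by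
      rw [← range_comp]
      rfl
    rw [h1, E3_range hh, hr]

theorem base_par {m : ℕ} {S : Set (Fin m → ℝ)} (hS : IsCompact S) (hc : Convex ℝ S) (h0 : S ∈ nhds (0 : Fin m → ℝ)) :
    ∃ h : (ℕ → unitInterval) → (Fin m → ℝ), Par m S h := by
  have hg' := E3_hg hS hc h0
  have hcont : Continuous (LibGC20.rad (E3_f m) (E3_g S)) := by
    have h1 := LibGC20.rad_cont (isCompact_univ) (E3_hf m) hg'
    rwa [univ_prod_univ, continuousOn_univ] at h1
  have hi := LibGC20.rad_inj (E3_hf m) hg'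
  have him := LibGC20.rad_image (E3_hf m) hg'
  have ht : Continuous (E3_t m) := by
    unfold E3_t
    fun_prop
  refine ⟨fun u => (LibGC20.rad (E3_f m) (E3_g S) ((), E3_t m u)).2, ⟨?_, ?_, ?_⟩⟩
  · exact continuous_snd.comp (hcont.comp (continuous_const.prodMk ht))
  · intro u v
    constructor
    · intro h i him
      have h1 : LibGC20.rad (E3_f m) (E3_g S) ((), E3_t m u) = LibGC20.rad (E3_f m) (E3_g S) ((), E3_t m v) :=
        Prod.ext rfl h
      have h2 := hi ⟨mem_univ _, mem_univ _⟩ ⟨mem_univ _, mem_univ _⟩ h1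
      have h3 : E3_t m u ⟨i, him⟩ = E3_t m v ⟨i, him⟩ := congrFun (congrArg Prod.snd h2) _
      change 2 * (u i : ℝ) - 1 = 2 * (v i : ℝ) - 1 at h3
      exact Subtype.ext (by linarith)
    · intro h
      have h1 : E3_t m u = E3_t m v := by
        funext j
        change 2 * (u j : ℝ) - 1 = 2 * (v j : ℝ) - 1
        rw [h j j.2]
      simp only [h1]
  · ext x
    constructor
    · rintro ⟨u, rfl⟩
      have h1 : LibGC20.rad (E3_f m) (E3_g S) ((), E3_t m u) ∈
          {p : Unit × (Fin m → ℝ) | p.1 ∈ (univ : Set Unit) ∧ E3_g S p ≤ 1} := by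
        rw [← him]
        exact ⟨((), E3_t m u), ⟨mem_univ _, E3_tnorm u⟩, rfl⟩
      exact (E3_mem hS hc h0 _).1 h1.2
    · intro hx
      have h1 : (((), x) : Unit × (Fin m → ℝ)) ∈ {p : Unit × (Fin m → ℝ) | p.1 ∈ (univ : Set Unit) ∧ E3_g S p ≤ 1} :=
        ⟨mem_univ _, (E3_mem hS hc h0 x).2 hx⟩
      rw [← him] at h1
      obtain ⟨⟨a, y⟩, hy, hxy⟩ := h1
      obtain ⟨u, hu⟩ := E3_tsurj (x := y) hy.2
      refine ⟨u, ?_⟩
      simp only [hu]
      exact congrArg Prod.snd hxy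

theorem par_modulus {m : ℕ} {S : Set (Fin m → ℝ)} {h : (ℕ → unitInterval) → (Fin m → ℝ)} (hh : Par m S h) {η : ℝ} (hη : 0 < η) :
    ∃ β : ℝ, 0 < β ∧ ∀ u v, ‖h u - h v‖ ≤ β → ∀ i < m, dist (u i) (v i) ≤ η := by
  obtain ⟨K, hK⟩ : ∃ K : Set ((ℕ → unitInterval) × (ℕ → unitInterval)),
      K = ⋃ i ∈ Finset.range m, {p | η ≤ dist (p.1 i) (p.2 i)} := ⟨_, rfl⟩
  have hcl : IsClosed K := by
    rw [hK]
    refine isClosed_biUnion_finset fun i _ => ?_
    exact isClosed_le continuous_const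
      (((continuous_apply i).comp continuous_fst).dist ((continuous_apply i).comp continuous_snd))
  have hmem : ∀ u v : ℕ → unitInterval, (u, v) ∈ K ↔ ∃ i < m, η ≤ dist (u i) (v i) := by
    intro u v
    rw [hK]
    simp
  rcases K.eq_empty_or_nonempty with he | hne
  · refine ⟨1, one_pos, fun u v _ i hi => ?_⟩
    by_contra hlt
    have h1 : (u, v) ∈ K := (hmem u v).2 ⟨i, hi, (not_le.1 hlt).le⟩
    rw [he] at h1
    exact h1
  · have hF : Continuous fun p : (ℕ → unitInterval) × (ℕ → unitInterval) => ‖h p.1 - h p.2‖ :=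
      ((hh.cont.comp continuous_fst).sub (hh.cont.comp continuous_snd)).norm
    obtain ⟨⟨u₀, v₀⟩, h0K, hmin⟩ := hcl.isCompact.exists_isMinOn hne hF.continuousOn
    have hpos : 0 < ‖h u₀ - h v₀‖ := by
      obtain ⟨i, hi, hd⟩ := (hmem u₀ v₀).1 h0K
      rw [norm_pos_iff, sub_ne_zero]
      intro heq
      have h1 := (hh.inj u₀ v₀).1 heq i hi
      rw [h1, dist_self] at hd
      linarith
    refine ⟨‖h u₀ - h v₀‖ / 2, half_pos hpos, fun u v huv i hi => ?_⟩
    by_contra hlt
    have h1 : (u, v) ∈ K := (hmem u v).2 ⟨i, hi, (not_le.1 hlt).le⟩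
    have h2 : ‖h u₀ - h v₀‖ ≤ ‖h u - h v‖ := hmin h1
    linarith

end Pool.Agent.LibDQ20
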