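import Pool.Agent.LibDQ20.E2
import Pool.Agent.LibDQ20.E3
import Pool.Agent.LibGC20.F2
import Pool.Agent.LibGC20.F3

/-!
[DQ20 E4] (MEDIUM) THE PROPERTY `NX`. `β` from `par_modulus` with `η = (1/2)^n`, `s` from E2. Given `Λ'` on `ℝ^(d+k)` with `range Λ ⊆ range Λ'`: `L = Λ'⁻¹ ∘ Λ` (`LinearEquiv.ofInjective`, or choose `L` on the basis: `Λ' (L x) = Λ x`), injective; `J` from `LibGC20.exists_iso`, `J (x, 0) = L x`; `M = Λ' ∘ J`: injective, `M (x, 0) = Λ x`, `Abs K M`. `G` from E2. `h' u = J (G (h u, tm d k u))`: `par_comp` with `g = J ∘ G`, `S = J '' {z | M z ∈ K} = {x | Λ' x ∈ K}`. `Λ' (h' u) = M (G p)` with `p = (h u, tm d k u)` (`LibGC20.tm_mem`), displacement `≤ 16 ε`; coarse: `‖h u - h v‖ ≤ β`.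
-/

namespace Pool.Agent.LibDQ20

theorem nx_of_qual {E : Type*} [NormedAddCommGroup E] [Module ℝ E] [ContinuousSMul ℝ E]
    (hF : ∀ (t : ℝ) (x : E), |t| ≤ 1 → ‖t • x‖ ≤ ‖x‖) {d : ℕ} {Λ : (Fin d → ℝ) →ₗ[ℝ] E} (hΛ : Function.Injective Λ)
    {K : Set E} (hK : IsCompact K) (hc : Convex ℝ K) (h0 : (0 : E) ∈ K) (hA : Abs K Λ) {δ δ' η' ε : ℝ}
    (hQ : Qual K Λ δ δ' η' ε) (hε : 0 < ε) {h : (ℕ → unitInterval) → (Fin d → ℝ)} (hh : Par d {x | Λ x ∈ K} h) (n : ℕ) :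
    ∃ s : ℝ, 0 < s ∧ NX K Λ h n (16 * ε) s := by
  have hη : (0 : ℝ) < (1 / 2 : ℝ) ^ n := by positivity
  obtain ⟨β, hβ, hmod⟩ := par_modulus hh hη
  obtain ⟨s, hs, hG⟩ := near_proj hF hΛ hK hc h0 hA hQ hε hβ
  refine ⟨s, hs, ?_⟩
  intro k Λ' hΛ' hsub hA'
  -- the map L
  have hmem : ∀ x, Λ x ∈ LinearMap.range Λ' := by
    intro x
    have h1 : Λ x ∈ Set.range Λ' := hsub ⟨x, rfl⟩
    obtain ⟨y, hy⟩ := h1
    exact ⟨y, hy⟩
  set L : (Fin d → ℝ) →ₗ[ℝ] (Fin (d + k) → ℝ) :=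
    ((LinearEquiv.ofInjective Λ' hΛ').symm : LinearMap.range Λ' →ₗ[ℝ] (Fin (d + k) → ℝ)) ∘ₗ
      (Λ.codRestrict (LinearMap.range Λ') hmem) with hLdef
  have hL : ∀ x, Λ' (L x) = Λ x := by
    intro x
    have h1 : (LinearEquiv.ofInjective Λ' hΛ') (L x) = Λ.codRestrict (LinearMap.range Λ') hmem x := by
      simp [hLdef]
    have h2 := congrArg Subtype.val h1
    simpa using h2
  have hLinj : Function.Injective L := by
    intro x y hxy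
    apply hΛ
    rw [← hL x, ← hL y, hxy]
  obtain ⟨J, hJ⟩ := LibGC20.exists_iso L hLinj
  have hMinj : Function.Injective (Λ' ∘ₗ (J : ((Fin d → ℝ) × (Fin k → ℝ)) →ₗ[ℝ] (Fin (d + k) → ℝ))) := by
    intro p q hpq
    exact J.injective (hΛ' hpq)
  have hM0 : ∀ x, (Λ' ∘ₗ (J : ((Fin d → ℝ) × (Fin k → ℝ)) →ₗ[ℝ] (Fin (d + k) → ℝ))) (x, 0) = Λ x := by
    intro x
    have h1 : (Λ' ∘ₗ (J : ((Fin d → ℝ) × (Fin k → ℝ)) →ₗ[ℝ] (Fin (d + k) → ℝ))) (x, 0) = Λ' (J (x, 0)) := rfl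
    rw [h1, hJ, hL]
  have hMA : Abs K (Λ' ∘ₗ (J : ((Fin d → ℝ) × (Fin k → ℝ)) →ₗ[ℝ] (Fin (d + k) → ℝ))) := fun p => hA' (J p)
  obtain ⟨G, hGc, hGi, hGr, hGd, hGs⟩ := hG k _ hMinj hM0 hMA
  have hJc : Continuous (fun p : (Fin d → ℝ) × (Fin k → ℝ) => J p) :=
    LinearMap.continuous_of_finiteDimensional (J : ((Fin d → ℝ) × (Fin k → ℝ)) →ₗ[ℝ] (Fin (d + k) → ℝ))
  have hp : ∀ u, (h u, LibGC20.tm d k u) ∈
      ({x | Λ x ∈ K} ×ˢ Metric.closedBall 0 1 : Set ((Fin d → ℝ) × (Fin k → ℝ))) := by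
    intro u
    refine ⟨?_, LibGC20.tm_mem d k u⟩
    have h1 : h u ∈ Set.range h := ⟨u, rfl⟩
    rw [hh.ran] at h1
    exact h1
  refine ⟨fun u => J (G (h u, LibGC20.tm d k u)), ?_, ?_, ?_⟩
  · apply par_comp hh (g := fun p => J (G p)) (S := {x | Λ' x ∈ K})
    · exact hJc.comp_continuousOn hGc
    · intro p hpm q hqm hpq
      exact hGi hpm hqm (J.injective hpq)
    · have h1 : (fun p => J (G p)) '' ({x | Λ x ∈ K} ×ˢ Metric.closedBall 0 1) =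
          (fun z => J z) '' (G '' ({x | Λ x ∈ K} ×ˢ Metric.closedBall 0 1)) := by
        rw [Set.image_image]
      rw [h1, hGr]
      ext x
      constructor
      · rintro ⟨z, hz, rfl⟩
        exact hz
      · intro hx
        refine ⟨J.symm x, ?_, J.apply_symm_apply x⟩
        show Λ' (J (J.symm x)) ∈ K
        rw [J.apply_symm_apply]
        exact hx
  · intro u
    exact hGd _ (hp u)
  · intro u v huv i hi
    have h1 : ‖h u - h v‖ ≤ β := hGs _ (hp u) _ (hp v) huv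
    exact hmod u v h1 i hi

end Pool.Agent.LibDQ20
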