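import Pool.Agent.LibDQ20.Defs

/-!
[DQ20 F1] (SMALL, only Mathlib) DIRECTIONS. `{v | ∃ s > 0, s • v ∈ K ∧ s • (-v) ∈ K}` is a linear subspace for convex `K ∋ 0`: for sums `(s/2) • (v₁ + v₂) = (1/2) • (s • v₁) + (1/2) • (s • v₂)` with `s = min s₁ s₂` (`s • v₁ = (s/s₁) • (s₁ • v₁)` is in `K` as `0 ∈ K`). `abs_of_mem`: `Abs K M` if the range of `M` is in this subspace.
-/

namespace Pool.Agent.LibDQ20

/-- the subspace of the directions in which `0` is interior to `K` -/
def Dir {E : Type*} [AddCommGroup E] [Module ℝ E] (K : Set E) : Set E := {v | ∃ s : ℝ, 0 < s ∧ s • v ∈ K ∧ s • (-v) ∈ K}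

private theorem F1_shrink {E : Type*} [AddCommGroup E] [Module ℝ E] {K : Set E} (hc : Convex ℝ K)
    (h0 : (0 : E) ∈ K) {v : E} {s t : ℝ} (ht : 0 < t) (hts : t ≤ s) (h : s • v ∈ K) : t • v ∈ K := by
  have hs : 0 < s := lt_of_lt_of_le ht hts
  have h1 : t • v = (1 - t / s) • (0 : E) + (t / s) • (s • v) := by
    rw [smul_zero, zero_add, smul_smul, div_mul_cancel₀ t hs.ne']
  rw [h1]
  refine hc h0 h ?_ ?_ ?_
  · have : t / s ≤ 1 := (div_le_one hs).2 hts
    linarith
  · exact (div_pos ht hs).le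
  · ring

theorem dir_submodule {E : Type*} [AddCommGroup E] [Module ℝ E] {K : Set E} (hc : Convex ℝ K) (h0 : (0 : E) ∈ K) :
    ∃ L : Submodule ℝ E, (L : Set E) = Dir K := by
  refine ⟨{ carrier := Dir K, add_mem' := ?_, zero_mem' := ?_, smul_mem' := ?_ }, rfl⟩
  · rintro a b ⟨s, hs, h1, h2⟩ ⟨t, ht, h3, h4⟩
    have hm : 0 < min s t := lt_min hs ht
    have key : ∀ x y : E, s • x ∈ K → t • y ∈ K → (min s t / 2) • (x + y) ∈ K := by
      intro x y hx hy
      have e1 : (min s t / 2) • (x + y) = (1 / 2 : ℝ) • (min s t • x) + (1 / 2 : ℝ) • (min s t • y) := by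
        rw [smul_smul, smul_smul, ← smul_add]
        congr 1
        ring
      rw [e1]
      exact hc (F1_shrink hc h0 hm (min_le_left s t) hx) (F1_shrink hc h0 hm (min_le_right s t) hy)
        (by norm_num) (by norm_num) (by norm_num)
    refine ⟨min s t / 2, half_pos hm, key a b h1 h3, ?_⟩
    have e2 : -(a + b) = -a + -b := by abel
    rw [e2]
    exact key (-a) (-b) h2 h4
  · exact ⟨1, one_pos, by rw [smul_zero]; exact h0, by rw [neg_zero, smul_zero]; exact h0⟩
  · rintro c x ⟨s, hs, h1, h2⟩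
    rcases lt_trichotomy c 0 with hc0 | hc0 | hc0
    · refine ⟨s / (-c), div_pos hs (neg_pos.2 hc0), ?_, ?_⟩
      · have e : (s / (-c)) • (c • x) = s • (-x) := by
          rw [smul_smul, smul_neg, ← neg_smul]
          congr 1
          have hne : c ≠ 0 := hc0.ne
          field_simp
        rw [e]
        exact h2
      · have e : (s / (-c)) • (-(c • x)) = s • x := by
          rw [← neg_smul, smul_smul]
          congr 1
          have hne : c ≠ 0 := hc0.ne
          field_simp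
        rw [e]
        exact h1
    · subst hc0
      exact ⟨1, one_pos, by rw [zero_smul, smul_zero]; exact h0,
        by rw [zero_smul, neg_zero, smul_zero]; exact h0⟩
    · refine ⟨s / c, div_pos hs hc0, ?_, ?_⟩
      · have e : (s / c) • (c • x) = s • x := by
          rw [smul_smul, div_mul_cancel₀ s hc0.ne']
        rw [e]
        exact h1
      · have e : (s / c) • (-(c • x)) = s • (-x) := by
          rw [smul_neg, smul_smul, div_mul_cancel₀ s hc0.ne', smul_neg]
        rw [e]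
        exact h2

theorem mem_dir {E : Type*} [AddCommGroup E] [Module ℝ E] {K : Set E} (hc : Convex ℝ K) (h0 : (0 : E) ∈ K) {y : E}
    (hy : y ∈ K) {s : ℝ} (hs : 0 < s) (h : s • (-y) ∈ K) : y ∈ Dir K := by
  have hm : 0 < min 1 s := lt_min one_pos hs
  refine ⟨min 1 s, hm, ?_, F1_shrink hc h0 hm (min_le_right 1 s) h⟩
  exact F1_shrink hc h0 hm (min_le_left 1 s) (by rw [one_smul]; exact hy)

theorem dir_of_abs {E : Type*} [NormedAddCommGroup E] [Module ℝ E] {d : ℕ} {K : Set E} (hc : Convex ℝ K) (h0 : (0 : E) ∈ K)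
    {Λ : (Fin d → ℝ) →ₗ[ℝ] E} (h : Abs K Λ) (x : Fin d → ℝ) : Λ x ∈ Dir K := by
  obtain ⟨s, hs, h1⟩ := h x
  obtain ⟨t, ht, h2⟩ := h (-x)
  have hm : 0 < min s t := lt_min hs ht
  refine ⟨min s t, hm, F1_shrink hc h0 hm (min_le_left s t) h1, ?_⟩
  rw [map_neg] at h2
  exact F1_shrink hc h0 hm (min_le_right s t) h2

end Pool.Agent.LibDQ20
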