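import Pool.Agent.LibDQ20.F1
import Pool.Agent.LibDQ20.A1
import Pool.Agent.LibGC20.A3

/-!
[DQ20 F2] (MEDIUM) ENLARGING THE SPACE. `extra`: `K` is not contained in `range Λ` (`vectorSpan ℝ K` would be finite-dimensional), `range Λ` is closed, so `DirDense` gives `y ∈ K ∩ Dir K`, `y ∉ range Λ`. Let `V = range Λ + span (range q') + span {y}`, contained in `Dir K` (F1), of dimension `d + k`, `1 ≤ k ≤ n + 1`. A basis of `V` gives `Λ'` (`Module.finBasisOfFinrankEq`, `LinearEquiv`), injective with range `V`.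
-/

namespace Pool.Agent.LibDQ20

private theorem extra {E : Type*} [NormedAddCommGroup E] [Module ℝ E] [ContinuousSMul ℝ E] {d : ℕ}
    {Λ : (Fin d → ℝ) →ₗ[ℝ] E} {K : Set E} (hc : Convex ℝ K) (h0 : (0 : E) ∈ K)
    (hinf : ¬ FiniteDimensional ℝ (vectorSpan ℝ K)) (hD : DirDense K) :
    ∃ y ∈ Dir K, y ∉ Set.range Λ := by
  by_contra hcon
  push Not at hcon
  have hsub : K ⊆ Set.range Λ := by
    intro z hz
    have hcl := range_closed Λ
    have h1 : z ∈ closure (Set.range Λ) := by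
      rw [Metric.mem_closure_iff]
      intro ε hε
      obtain ⟨y, hy, hzy, s, hs, hsy⟩ := hD z hz (ε / 2) (half_pos hε)
      refine ⟨y, hcon y (mem_dir hc h0 hy hs hsy), ?_⟩
      rw [dist_eq_norm]
      linarith
    rwa [hcl.closure_eq] at h1
  apply hinf
  have h2 : vectorSpan ℝ K ≤ LinearMap.range Λ := by
    rw [vectorSpan_def, Submodule.span_le]
    rintro w ⟨a, ha, b, hb, rfl⟩
    obtain ⟨a', ha'⟩ := hsub ha
    obtain ⟨b', hb'⟩ := hsub hb
    exact ⟨a' - b', by rw [map_sub, ha', hb']; rfl⟩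
  exact Submodule.finiteDimensional_of_le h2

theorem enlarge {E : Type*} [NormedAddCommGroup E] [Module ℝ E] [ContinuousSMul ℝ E] {d : ℕ} {Λ : (Fin d → ℝ) →ₗ[ℝ] E}
    (hΛ : Function.Injective Λ) {K : Set E} (hc : Convex ℝ K) (h0 : (0 : E) ∈ K)
    (hinf : ¬ FiniteDimensional ℝ (vectorSpan ℝ K)) (hD : DirDense K) (hA : Abs K Λ) {n : ℕ} (q : Fin n → E)
    (hq : ∀ i, q i ∈ Dir K) :
    ∃ k, 1 ≤ k ∧ k ≤ n + 1 ∧ ∃ Λ' : (Fin (d + k) → ℝ) →ₗ[ℝ] E, Function.Injective Λ' ∧ Set.range Λ ⊆ Set.range Λ' ∧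
      (∀ i, q i ∈ Set.range Λ') ∧ Abs K Λ' := by
  obtain ⟨L, hL⟩ := dir_submodule hc h0
  obtain ⟨y, hy, hyn⟩ := extra (Λ := Λ) hc h0 hinf hD
  have hyL : y ∈ L := by
    have : y ∈ (L : Set E) := by rw [hL]; exact hy
    exact this
  have hqL : ∀ i, q i ∈ L := fun i => by
    have : q i ∈ (L : Set E) := by rw [hL]; exact hq i
    exact this
  have hΛL : LinearMap.range Λ ≤ L := by
    rintro _ ⟨x, rfl⟩
    have : Λ x ∈ (L : Set E) := by rw [hL]; exact dir_of_abs hc h0 hA x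
    exact this
  set A : Submodule ℝ E := LinearMap.range Λ with hAdef
  set B : Submodule ℝ E := Submodule.span ℝ (Set.range q) with hBdef
  set C : Submodule ℝ E := Submodule.span ℝ {y} with hCdef
  set V : Submodule ℝ E := A ⊔ B ⊔ C with hVdef
  have hB : FiniteDimensional ℝ B := FiniteDimensional.span_of_finite ℝ (Set.finite_range q)
  have hC : FiniteDimensional ℝ C := FiniteDimensional.span_of_finite ℝ (Set.finite_singleton y)
  have hAf : FiniteDimensional ℝ A := inferInstance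
  have hV : FiniteDimensional ℝ V := inferInstance
  have hVL : V ≤ L := by
    refine sup_le (sup_le hΛL ?_) ?_
    · rw [hBdef, Submodule.span_le]
      rintro _ ⟨i, rfl⟩
      exact hqL i
    · rw [hCdef, Submodule.span_le]
      rintro w hw
      rw [Set.mem_singleton_iff] at hw
      rw [hw]
      exact hyL
  have hAV : A ≤ V := le_trans le_sup_left le_sup_left
  have hyV : y ∈ V := (le_sup_right : C ≤ V) (Submodule.subset_span rfl)
  have hqV : ∀ i, q i ∈ V := fun i =>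
    (le_trans le_sup_right le_sup_left : B ≤ V) (Submodule.subset_span ⟨i, rfl⟩)
  have hlt : A < V := by
    refine lt_of_le_of_ne hAV fun h => hyn ?_
    rw [← h] at hyV
    obtain ⟨x, hx⟩ := hyV
    exact ⟨x, hx⟩
  have fA : Module.finrank ℝ A = d := by
    rw [hAdef, LinearMap.finrank_range_of_inj hΛ]
    simp
  have f1 : Module.finrank ℝ A < Module.finrank ℝ V := Submodule.finrank_lt_finrank_of_lt hlt
  have fB : Module.finrank ℝ B ≤ n := by
    have := finrank_range_le_card (R := ℝ) q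
    rw [Fintype.card_fin] at this
    exact this
  have fC : Module.finrank ℝ C ≤ 1 := by
    have h1 := finrank_span_le_card (R := ℝ) ({y} : Set E)
    simpa using h1
  have f2 : Module.finrank ℝ V ≤ d + n + 1 := by
    have h1 : Module.finrank ℝ V ≤ Module.finrank ℝ ↥(A ⊔ B) + Module.finrank ℝ C :=
      Submodule.finrank_add_le_finrank_add_finrank (A ⊔ B) C
    have h2 := Submodule.finrank_add_le_finrank_add_finrank A B
    omega
  obtain ⟨k, hk⟩ : ∃ k, Module.finrank ℝ V = d + k := ⟨Module.finrank ℝ V - d, by omega⟩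
  refine ⟨k, by omega, by omega, ?_⟩
  let b := Module.finBasisOfFinrankEq ℝ V hk
  let Λ' : (Fin (d + k) → ℝ) →ₗ[ℝ] E := V.subtype.comp b.equivFun.symm.toLinearMap
  have hr : ∀ v ∈ V, v ∈ Set.range Λ' := fun v hv =>
    ⟨b.equivFun ⟨v, hv⟩, by
      show ((b.equivFun.symm (b.equivFun ⟨v, hv⟩) : V) : E) = v
      rw [LinearEquiv.symm_apply_apply]⟩
  refine ⟨Λ', ?_, ?_, fun i => hr _ (hqV i), ?_⟩
  · intro u v huv
    have h1 : b.equivFun.symm u = b.equivFun.symm v := Subtype.ext huv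
    exact b.equivFun.symm.injective h1
  · rintro _ ⟨x, rfl⟩
    exact hr _ (hAV ⟨x, rfl⟩)
  · intro x
    have h1 : Λ' x ∈ (L : Set E) := hVL (b.equivFun.symm x).2
    rw [hL] at h1
    obtain ⟨s, hs, h2, -⟩ := h1
    exact ⟨s, hs, h2⟩

end Pool.Agent.LibDQ20
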