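import Pool.Agent.LibDQ20.F1
import Pool.Agent.LibGC20.A3

/-!
[DQ20 F3] (SMALL) GROUPING. Convex combinations of `m ≤ 2 n` vectors of `K - K` of norm `≤ 2 δ`: split `Fin m` into two parts of size `≤ n` (the first `min m n` indices and the rest); a part with total weight `W > 0` is `W • (convex combination)`, padded by weights `0` and the vector `0 ∈ K - K` to `Fin n`, so of norm `≤ ε` (F-norm); if `W = 0` it is `0`. Then `small` vectors: `y i ∈ Small K δ' η'`: choose `v i ∈ K - K` with `‖y i - v i‖ < η'`, `‖v i‖ < δ' + η' ≤ 2 δ`, and `‖∑ w i • (y i - v i)‖ ≤ m * η'` (`LibGC20.norm_sum_smul_le`).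
-/

namespace Pool.Agent.LibDQ20

open scoped Pointwise

private theorem F3_part {E : Type*} [NormedAddCommGroup E] [Module ℝ E] (hF : ∀ (t : ℝ) (x : E), |t| ≤ 1 → ‖t • x‖ ≤ ‖x‖)
    {K : Set E} (h0 : (0 : E) ∈ K) {n : ℕ} {δ ε : ℝ} (hδ0 : 0 ≤ 2 * δ) (hε : 0 ≤ ε)
    (h : ∀ (w : Fin n → ℝ) (v : Fin n → E), (∀ i, 0 ≤ w i) → ∑ i, w i = 1 → (∀ i, v i ∈ K - K) → (∀ i, ‖v i‖ ≤ 2 * δ) →
      ‖∑ i, w i • v i‖ ≤ ε) {ι : Type*} (s : Finset ι) (hs : s.card ≤ n) (w : ι → ℝ) (v : ι → E)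
    (hw : ∀ i, 0 ≤ w i) (hw1 : ∑ i ∈ s, w i ≤ 1) (hv : ∀ i, v i ∈ K - K) (hvn : ∀ i, ‖v i‖ ≤ 2 * δ) :
    ‖∑ i ∈ s, w i • v i‖ ≤ ε := by
  classical
  set W := ∑ i ∈ s, w i with hW
  have hW0 : 0 ≤ W := Finset.sum_nonneg fun i _ => hw i
  rcases hW0.eq_or_lt with hz | hpos
  · have h1 : ∀ i ∈ s, w i = 0 := (Finset.sum_eq_zero_iff_of_nonneg fun i _ => hw i).1 (hW ▸ hz.symm)
    have h2 : ∑ i ∈ s, w i • v i = 0 := Finset.sum_eq_zero fun i hi => by rw [h1 i hi, zero_smul]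
    rw [h2, norm_zero]
    exact hε
  · have hcard : Fintype.card s ≤ Fintype.card (Fin n) := by
      rw [Fintype.card_coe, Fintype.card_fin]
      exact hs
    obtain ⟨f⟩ := Function.Embedding.nonempty_of_card_le hcard
    let w' : Fin n → ℝ := Function.extend f (fun i : s => w i / W) 0
    let v' : Fin n → E := Function.extend f (fun i : s => v i) 0
    have hw'f : ∀ i : s, w' (f i) = w i / W := fun i => f.injective.extend_apply _ _ i
    have hv'f : ∀ i : s, v' (f i) = v i := fun i => f.injective.extend_apply _ _ i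
    have hw'o : ∀ j, j ∉ Set.range f → w' j = 0 := fun j hj =>
      Function.extend_apply' _ _ _ fun ⟨a, ha⟩ => hj ⟨a, ha⟩
    have hv'o : ∀ j, j ∉ Set.range f → v' j = 0 := fun j hj =>
      Function.extend_apply' _ _ _ fun ⟨a, ha⟩ => hj ⟨a, ha⟩
    have h00 : (0 : E) ∈ K - K := ⟨0, h0, 0, h0, by simp⟩
    have hh := h w' v' (fun j => by
        by_cases hj : j ∈ Set.range f
        · obtain ⟨i, rfl⟩ := hj
          rw [hw'f]
          exact div_nonneg (hw _) hpos.le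
        · rw [hw'o j hj]) (by
        have h1 : ∑ i : s, w i / W = ∑ j, w' j :=
          Fintype.sum_of_injective f f.injective _ _ hw'o fun i => (hw'f i).symm
        rw [← h1, ← Finset.sum_div, Finset.sum_coe_sort s w, ← hW, div_self hpos.ne']) (fun j => by
        by_cases hj : j ∈ Set.range f
        · obtain ⟨i, rfl⟩ := hj
          rw [hv'f]
          exact hv _
        · rw [hv'o j hj]
          exact h00) (fun j => by
        by_cases hj : j ∈ Set.range f
        · obtain ⟨i, rfl⟩ := hj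
          rw [hv'f]
          exact hvn _
        · rw [hv'o j hj, norm_zero]
          exact hδ0)
    have h1 : ∑ i : s, (w i / W) • v i = ∑ j, w' j • v' j :=
      Fintype.sum_of_injective f f.injective _ _ (fun j hj => by rw [hw'o j hj, zero_smul]) fun i => by
        rw [hw'f, hv'f]
    have h2 : ∑ i ∈ s, w i • v i = W • ∑ j, w' j • v' j := by
      rw [← h1, Finset.sum_coe_sort s fun i => (w i / W) • v i, Finset.smul_sum]
      refine Finset.sum_congr rfl fun i _ => ?_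
      rw [smul_smul, mul_div_cancel₀ _ hpos.ne']
    rw [h2]
    refine (hF W _ ?_).trans hh
    rw [abs_of_pos hpos]
    exact hw1

theorem grouping {E : Type*} [NormedAddCommGroup E] [Module ℝ E] (hF : ∀ (t : ℝ) (x : E), |t| ≤ 1 → ‖t • x‖ ≤ ‖x‖)
    {K : Set E} (h0 : (0 : E) ∈ K) {n m : ℕ} (hm : m ≤ 2 * n) {δ δ' η' ε : ℝ} (hη : 0 < η') (hδ : δ' + η' ≤ 2 * δ)
    (hη2 : m * η' ≤ ε) (hε : 0 ≤ ε)
    (h : ∀ (w : Fin n → ℝ) (v : Fin n → E), (∀ i, 0 ≤ w i) → ∑ i, w i = 1 → (∀ i, v i ∈ K - K) → (∀ i, ‖v i‖ ≤ 2 * δ) →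
      ‖∑ i, w i • v i‖ ≤ ε) (w : Fin m → ℝ) (y : Fin m → E) (hw : ∀ i, 0 ≤ w i) (hw1 : ∑ i, w i = 1)
    (hy : ∀ i, y i ∈ Small K δ' η') : ‖∑ i, w i • y i‖ ≤ 3 * ε := by
  classical
  have hne : (K - K).Nonempty := ⟨0, 0, h0, 0, h0, by simp⟩
  have hex : ∀ i, ∃ v ∈ K - K, ‖y i - v‖ < η' := by
    intro i
    obtain ⟨v, hv, hd⟩ := (Metric.infDist_lt_iff hne).1 (hy i).1
    exact ⟨v, hv, by rwa [dist_eq_norm] at hd⟩
  choose v hv hyv using hex
  have hvn : ∀ i, ‖v i‖ ≤ 2 * δ := by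
    intro i
    have h1 : ‖v i‖ ≤ ‖y i‖ + ‖y i - v i‖ := by
      have h2 : v i = y i - (y i - v i) := by abel
      calc ‖v i‖ = ‖y i - (y i - v i)‖ := by rw [← h2]
        _ ≤ ‖y i‖ + ‖y i - v i‖ := norm_sub_le _ _
    have h2 := (hy i).2
    have h3 := hyv i
    linarith
  by_cases hm0 : m = 0
  · subst hm0
    simp at hw1
  have hδ0 : 0 ≤ 2 * δ := (norm_nonneg _).trans (hvn ⟨0, Nat.pos_of_ne_zero hm0⟩)
  have hwle : ∀ i, w i ≤ 1 := fun i => by
    rw [← hw1]
    exact Finset.single_le_sum (fun j _ => hw j) (Finset.mem_univ i)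
  -- the error
  have herr : ‖∑ i, w i • (y i - v i)‖ ≤ ε := by
    have h1 := LibGC20.norm_sum_smul_le hF Finset.univ w (fun i => y i - v i) (r := η')
      (fun i _ => by rw [abs_of_nonneg (hw i)]; exact hwle i) (fun i _ => (hyv i).le)
    rw [Finset.card_univ, Fintype.card_fin] at h1
    exact h1.trans hη2
  -- the two parts
  let s : Finset (Fin m) := Finset.univ.filter fun i => (i : ℕ) < n
  let t : Finset (Fin m) := Finset.univ.filter fun i => ¬ (i : ℕ) < n
  have hs : s.card ≤ n := by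
    have h1 : s.card ≤ (Finset.range n).card := by
      refine Finset.card_le_card_of_injOn (fun i => (i : ℕ)) (fun i hi => ?_) fun i _ j _ hij => Fin.ext hij
      have h2 := (Finset.mem_filter.1 hi).2
      exact Finset.mem_coe.2 (Finset.mem_range.2 h2)
    rwa [Finset.card_range] at h1
  have ht : t.card ≤ n := by
    have h1 : t.card ≤ (Finset.Ico n m).card := by
      refine Finset.card_le_card_of_injOn (fun i => (i : ℕ)) (fun i hi => ?_) fun i _ j _ hij => Fin.ext hij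
      have h2 := (Finset.mem_filter.1 hi).2
      exact Finset.mem_coe.2 (Finset.mem_Ico.2 ⟨not_lt.1 h2, i.isLt⟩)
    rw [Nat.card_Ico] at h1
    omega
  have hsw : ∑ i ∈ s, w i ≤ 1 := by
    rw [← hw1]
    exact Finset.sum_le_sum_of_subset_of_nonneg (Finset.subset_univ _) fun i _ _ => hw i
  have htw : ∑ i ∈ t, w i ≤ 1 := by
    rw [← hw1]
    exact Finset.sum_le_sum_of_subset_of_nonneg (Finset.subset_univ _) fun i _ _ => hw i
  have h1 := F3_part hF h0 hδ0 hε h s hs w v hw hsw hv hvn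
  have h2 := F3_part hF h0 hδ0 hε h t ht w v hw htw hv hvn
  have h3 : ∑ i, w i • y i = ∑ i ∈ s, w i • v i + ∑ i ∈ t, w i • v i + ∑ i, w i • (y i - v i) := by
    rw [Finset.sum_filter_add_sum_filter_not, ← Finset.sum_add_distrib]
    refine Finset.sum_congr rfl fun i _ => ?_
    rw [← smul_add]
    congr 1
    abel
  rw [h3]
  have h4 := norm_add_le (∑ i ∈ s, w i • v i + ∑ i ∈ t, w i • v i) (∑ i, w i • (y i - v i))
  have h5 := norm_add_le (∑ i ∈ s, w i • v i) (∑ i ∈ t, w i • v i)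
  linarith

end Pool.Agent.LibDQ20
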