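import Pool.Agent.LibDQ20.F2
import Pool.Agent.LibDQ20.F3

/-!
[DQ20 F4] (MEDIUM) QUALITY. Use `Appr` with `ε / 3` and `N₀ = d + 2`: `n, q, δ`, `0 < δ ≤ ε / 3`. `DirDense`: `q' i ∈ K ∩ Dir K` (`mem_dir`), `‖q i - q' i‖ ≤ τ := δ / (2 * n)`. `enlarge` for `q'`: `k, Λ'`. `Qual K Λ' (3 δ / 2) (7 δ / 4) η' ε` with `η' = min (δ / 4) (ε / (3 * (d + k + 1)))`: `near`: `z ∈ K`, `y = ∑ w i • q i` within `δ` (`convexHull_range_eq...`, `Fin n`), `y' = ∑ w i • q' i ∈ K` is in `range Λ'` and `‖y - y'‖ ≤ n * τ = δ / 2`; `lc`: `grouping` with `m = d + k + 1 ≤ d + n + 2 ≤ 2 * n`. And `3 δ / 2 ≤ ε`.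
-/

namespace Pool.Agent.LibDQ20

private theorem F4_hull {E : Type*} [AddCommGroup E] [Module ℝ E] {n : ℕ} (q : Fin n → E) {y : E}
    (hy : y ∈ convexHull ℝ (Set.range q)) :
    ∃ w : Fin n → ℝ, (∀ i, 0 ≤ w i) ∧ ∑ i, w i = 1 ∧ y = ∑ i, w i • q i := by
  classical
  have hsub : convexHull ℝ (Set.range q) ⊆
      {y | ∃ w : Fin n → ℝ, (∀ i, 0 ≤ w i) ∧ ∑ i, w i = 1 ∧ y = ∑ i, w i • q i} := by
    apply convexHull_min
    · rintro _ ⟨i, rfl⟩
      refine ⟨fun j => if j = i then 1 else 0, ?_, ?_, ?_⟩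
      · intro j
        by_cases h : j = i <;> simp [h]
      · simp
      · simp
    · rintro y₁ ⟨w₁, h1, h2, rfl⟩ y₂ ⟨w₂, h3, h4, rfl⟩ a b ha hb hab
      refine ⟨fun i => a * w₁ i + b * w₂ i, ?_, ?_, ?_⟩
      · intro i
        exact add_nonneg (mul_nonneg ha (h1 i)) (mul_nonneg hb (h3 i))
      · rw [Finset.sum_add_distrib, ← Finset.mul_sum, ← Finset.mul_sum, h2, h4]
        linarith
      · rw [Finset.smul_sum, Finset.smul_sum, ← Finset.sum_add_distrib]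
        apply Finset.sum_congr rfl
        intro i _
        rw [add_smul, mul_smul, mul_smul]
  exact hsub hy

theorem exists_qual {E : Type*} [NormedAddCommGroup E] [Module ℝ E] [ContinuousSMul ℝ E]
    (hF : ∀ (t : ℝ) (x : E), |t| ≤ 1 → ‖t • x‖ ≤ ‖x‖) {d : ℕ} {Λ : (Fin d → ℝ) →ₗ[ℝ] E} (hΛ : Function.Injective Λ)
    {K : Set E} (hc : Convex ℝ K) (h0 : (0 : E) ∈ K) (hinf : ¬ FiniteDimensional ℝ (vectorSpan ℝ K)) (hD : DirDense K)
    (hA : Abs K Λ) (hAp : Appr K) {ε : ℝ} (hε : 0 < ε) :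
    ∃ k, 1 ≤ k ∧ ∃ Λ' : (Fin (d + k) → ℝ) →ₗ[ℝ] E, Function.Injective Λ' ∧ Set.range Λ ⊆ Set.range Λ' ∧ Abs K Λ' ∧
      ∃ δ δ' η' : ℝ, Qual K Λ' δ δ' η' ε ∧ δ ≤ ε := by
  obtain ⟨n, hn, q, hqK, δ, hδ, hδε, hdense, hlc⟩ := hAp (ε / 3) (by positivity) (d + 2)
  have hn0 : 0 < n := by omega
  have hn0' : (0 : ℝ) < n := by exact_mod_cast hn0
  have hτ : 0 < δ / (2 * n) := by positivity
  have hch : ∀ i, ∃ y ∈ K, ‖q i - y‖ ≤ δ / (2 * n) ∧ ∃ s : ℝ, 0 < s ∧ s • (-y) ∈ K := fun i => hD (q i) (hqK i) _ hτ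
  choose q' hq'K hq'n hq's using hch
  have hq'D : ∀ i, q' i ∈ Dir K := by
    intro i
    obtain ⟨s, hs, h⟩ := hq's i
    exact mem_dir hc h0 (hq'K i) hs h
  obtain ⟨k, hk1, hkn, Λ', hinj, hran, hqr, hAbs⟩ := enlarge hΛ hc h0 hinf hD hA q' hq'D
  have hM : (0 : ℝ) < 3 * ((d + k + 1 : ℕ) : ℝ) := by positivity
  refine ⟨k, hk1, Λ', hinj, hran, hAbs, 3 * δ / 2, 7 * δ / 4, min (δ / 4) (ε / (3 * ((d + k + 1 : ℕ) : ℝ))), ?_, ?_⟩
  · have hη : 0 < min (δ / 4) (ε / (3 * ((d + k + 1 : ℕ) : ℝ))) := lt_min (by positivity) (div_pos hε hM)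
    refine ⟨by positivity, by linarith, hη, ?_, ?_⟩
    · intro z hz
      obtain ⟨y, hy, hzy⟩ := hdense z hz
      obtain ⟨w, hw0, hw1, rfl⟩ := F4_hull q hy
      choose x hx using hqr
      have hΛx : Λ' (∑ i, w i • x i) = ∑ i, w i • q' i := by
        rw [map_sum]
        apply Finset.sum_congr rfl
        intro i _
        rw [map_smul, hx i]
      refine ⟨∑ i, w i • x i, ?_, ?_⟩
      · rw [hΛx]
        exact hc.sum_mem (fun i _ => hw0 i) hw1 (fun i _ => hq'K i)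
      · rw [hΛx]
        have h1 : ‖∑ i, w i • (q i - q' i)‖ ≤ ((Finset.univ : Finset (Fin n)).card : ℝ) * (δ / (2 * n)) := by
          apply LibGC20.norm_sum_smul_le hF
          · intro i _
            rw [abs_of_nonneg (hw0 i)]
            calc w i ≤ ∑ j, w j := Finset.single_le_sum (fun j _ => hw0 j) (Finset.mem_univ i)
              _ = 1 := hw1
          · intro i _
            exact hq'n i
        have h2 : ((Finset.univ : Finset (Fin n)).card : ℝ) * (δ / (2 * n)) = δ / 2 := by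
          rw [Finset.card_univ, Fintype.card_fin]
          field_simp
        have h3 : z - ∑ i, w i • q' i = (z - ∑ i, w i • q i) + ∑ i, w i • (q i - q' i) := by
          simp only [smul_sub, Finset.sum_sub_distrib]
          abel
        rw [h3]
        calc ‖(z - ∑ i, w i • q i) + ∑ i, w i • (q i - q' i)‖
            ≤ ‖z - ∑ i, w i • q i‖ + ‖∑ i, w i • (q i - q' i)‖ := norm_add_le _ _
          _ ≤ δ + δ / 2 := by
            apply add_le_add hzy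
            rw [← h2]
            exact h1
          _ = 3 * δ / 2 := by ring
    · intro w y hw0 hw1 hy
      have h3 : (3 : ℝ) * (ε / 3) = ε := by ring
      rw [← h3]
      refine grouping hF h0 (n := n) (m := d + k + 1) (by omega) (δ := δ) (δ' := 7 * δ / 4) hη ?_ ?_ (by positivity) hlc w y hw0
        hw1 hy
      · have := min_le_left (δ / 4) (ε / (3 * ((d + k + 1 : ℕ) : ℝ)))
        linarith
      · have h4 := min_le_right (δ / 4) (ε / (3 * ((d + k + 1 : ℕ) : ℝ)))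
        have hM' : (0 : ℝ) < ((d + k + 1 : ℕ) : ℝ) := by positivity
        calc ((d + k + 1 : ℕ) : ℝ) * min (δ / 4) (ε / (3 * ((d + k + 1 : ℕ) : ℝ)))
            ≤ ((d + k + 1 : ℕ) : ℝ) * (ε / (3 * ((d + k + 1 : ℕ) : ℝ))) := mul_le_mul_of_nonneg_left h4 hM'.le
          _ = ε / 3 := by field_simp
  · linarith

end Pool.Agent.LibDQ20
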