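import Mathlib
import Pool.Agent.LibGC20.L1

/-!
[DQ20 G1] (MEDIUM, only Mathlib) LIMIT. `‖f m u - f n u‖ ≤ 2 * e n` for `m ≥ n` (`e (n+1) ≤ e n / 2`), the limit `H u ∈ K` exists (`K` compact, `f n u ∈ K` Cauchy), uniform in `u`, so `H` is continuous and `‖H u - f n u‖ ≤ 2 * e n`. INJECTIVE: `H u = H v` gives `‖f (n+1) u - f (n+1) v‖ ≤ 4 * e (n+1)`, so `dist (u i) (v i) ≤ (1/2)^n` for `i < d n`, for all `n`. SURJECTIVE: `z ∈ K`, `‖f n (u n) - z‖ ≤ (1/2)^n`, `e n → 0`, closed range. (As `LibGC20.L1`, see there.)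
-/

namespace Pool.Agent.LibDQ20

theorem limit_cube {E : Type*} [NormedAddCommGroup E] {K : Set E} (hK : IsCompact K) (f : ℕ → (ℕ → unitInterval) → E)
    (hf : ∀ n, Continuous (f n)) (hfK : ∀ n u, f n u ∈ K) (d : ℕ → ℕ) (hd : StrictMono d) (e : ℕ → ℝ) (he : ∀ n, 0 < e n)
    (half : ∀ n, e (n + 1) ≤ e n / 2) (hle : ∀ n, e n ≤ (1 / 2) ^ n) (step : ∀ n u, ‖f (n + 1) u - f n u‖ ≤ e n)
    (coarse : ∀ n u v, ‖f (n + 1) u - f (n + 1) v‖ ≤ 8 * e (n + 1) → ∀ i < d n, dist (u i) (v i) ≤ (1 / 2 : ℝ) ^ n)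
    (dens : ∀ n, ∀ z ∈ K, ∃ u, ‖f n u - z‖ ≤ (1 / 2 : ℝ) ^ n) : Nonempty (K ≃ₜ (ℕ → unitInterval)) := by
  refine Pool.Agent.LibGC20.limit_homeo hK (fun n => f (n + 3)) (fun n => hf _) (fun n => d (n + 2))
    (fun a b hab => hd (by omega)) (fun n => 8 * e (n + 3)) (fun n => ?_) (fun n => ?_) (fun n => ?_)
    (fun n u v h i hi => ?_) (fun n u => ?_) (fun n u => ⟨f (n + 3) u, hfK _ u, by simp⟩) (fun n z hz => ?_)
  · have h := he (n + 3)
    positivity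
  · have h := half (n + 3)
    show 8 * e (n + 1 + 3) ≤ 8 * e (n + 3) / 2
    rw [show n + 1 + 3 = n + 3 + 1 by ring]
    linarith
  · have h := hle (n + 3)
    have h2 : (1 / 2 : ℝ) ^ (n + 3) = (1 / 2) ^ n * (1 / 8) := by rw [pow_add]; norm_num
    rw [h2] at h
    linarith
  · have h1 := coarse (n + 2) u v h i hi
    exact h1.trans (pow_le_pow_of_le_one (by norm_num) (by norm_num) (by omega))
  · have h := step (n + 3) u
    show ‖f (n + 1 + 3) u - f (n + 3) u‖ ≤ 8 * e (n + 3) / 8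
    rw [show n + 1 + 3 = n + 3 + 1 by ring]
    linarith
  · obtain ⟨u, hu⟩ := dens (n + 3) z hz
    exact ⟨u, hu.trans (pow_le_pow_of_le_one (by norm_num) (by norm_num) (by omega))⟩

end Pool.Agent.LibDQ20
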