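import Pool.Agent.LibDQ20.E4
import Pool.Agent.LibDQ20.F4

/-!
[DQ20 G2] (MEDIUM) THE STAGES. `stage_of_qual`: `16 * ε ≤ (1/2)^n`, `δ ≤ ε` gives `dens` (`near` and `Par.ran`: `z ∈ K`, `Λ x ∈ K`, `x = h u`, `‖Λ (h u) - z‖ ≤ δ ≤ (1/2)^n`); `s` from E4, `e = 16 * ε`. INITIAL: F4 for `d = 0`, `Λ = 0` (injective on `Fin 0 → ℝ`, `Abs` trivially as `0 ∈ K`), `base_par` for `{x | Λ' x ∈ K}` (D1). NEXT for `a`: `ε = min (a.e / 32) (min (a.s / 128) ((1/2)^(a.n+1) / 16))`, F4 with `a.Λ`, `a.nx` gives `h'`, `Par`, `near`, `coarse`; `stage_of_qual` with `n = a.n + 1`.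
-/

namespace Pool.Agent.LibDQ20

variable {E : Type*} [NormedAddCommGroup E] [Module ℝ E] [ContinuousSMul ℝ E]

theorem exists_first (hF : ∀ (t : ℝ) (x : E), |t| ≤ 1 → ‖t • x‖ ≤ ‖x‖) {K : Set E} (hK : IsCompact K) (hc : Convex ℝ K)
    (h0 : (0 : E) ∈ K) (hinf : ¬ FiniteDimensional ℝ (vectorSpan ℝ K)) (hD : DirDense K) (hAp : Appr K) :
    ∃ a : SD K, a.n = 0 := by
  have hinj : Function.Injective (0 : (Fin 0 → ℝ) →ₗ[ℝ] E) := Function.injective_of_subsingleton _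
  have hA : Abs K (0 : (Fin 0 → ℝ) →ₗ[ℝ] E) := fun x => ⟨1, one_pos, by simpa using h0⟩
  obtain ⟨k, hk, Λ', hΛ', hr, hA', δ, δ', η', hQ, hδ⟩ :=
    exists_qual hF hinj hc h0 hinf hD hA hAp (ε := 1 / 16) (by norm_num)
  obtain ⟨h, hpar⟩ := base_par (S := {x | Λ' x ∈ K}) (sect_compact hK hΛ') (sect_convex hc Λ') (sect_nhds hc h0 hA')
  obtain ⟨s, hs, hnx⟩ := nx_of_qual hF hΛ' hK hc h0 hA' hQ (by norm_num) hpar 0
  refine ⟨⟨0, 0 + k, Λ', h, 16 * (1 / 16), s, hΛ', hA', hpar, by norm_num, by norm_num, hs, ?_, hnx⟩, rfl⟩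
  intro z hz
  obtain ⟨x, hx, hx2⟩ := hQ.near z hz
  have hx3 : x ∈ Set.range h := by
    rw [hpar.ran]
    exact hx
  obtain ⟨u, rfl⟩ := hx3
  refine ⟨u, ?_⟩
  rw [norm_sub_rev, pow_zero]
  linarith

theorem exists_succ (hF : ∀ (t : ℝ) (x : E), |t| ≤ 1 → ‖t • x‖ ≤ ‖x‖) {K : Set E} (hK : IsCompact K) (hc : Convex ℝ K)
    (h0 : (0 : E) ∈ K) (hinf : ¬ FiniteDimensional ℝ (vectorSpan ℝ K)) (hD : DirDense K) (hAp : Appr K) (a : SD K) :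
    ∃ b : SD K, SDnext a b := by
  have hε : 0 < min (a.e / 32) (min (a.s / 128) ((1 / 2 : ℝ) ^ (a.n + 1) / 16)) := by
    refine lt_min (by have := a.epos; positivity) (lt_min (by have := a.spos; positivity) (by positivity))
  obtain ⟨k, hk, Λ', hΛ', hr, hA', δ, δ', η', hQ, hδ⟩ :=
    exists_qual hF a.inj hc h0 hinf hD a.abs hAp hε
  have h1 : min (a.e / 32) (min (a.s / 128) ((1 / 2 : ℝ) ^ (a.n + 1) / 16)) ≤ a.e / 32 := min_le_left _ _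
  have h2 : min (a.e / 32) (min (a.s / 128) ((1 / 2 : ℝ) ^ (a.n + 1) / 16)) ≤ a.s / 128 :=
    (min_le_right _ _).trans (min_le_left _ _)
  have h3 : min (a.e / 32) (min (a.s / 128) ((1 / 2 : ℝ) ^ (a.n + 1) / 16)) ≤ (1 / 2 : ℝ) ^ (a.n + 1) / 16 :=
    (min_le_right _ _).trans (min_le_right _ _)
  generalize min (a.e / 32) (min (a.s / 128) ((1 / 2 : ℝ) ^ (a.n + 1) / 16)) = ε at *
  obtain ⟨h', hpar, hnear, hcoarse⟩ := a.nx k Λ' hΛ' hr hA'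
  obtain ⟨s, hs, hnx⟩ := nx_of_qual hF hΛ' hK hc h0 hA' hQ hε hpar (a.n + 1)
  refine ⟨⟨a.n + 1, a.d + k, Λ', h', 16 * ε, s, hΛ', hA', hpar, by positivity, by linarith, hs, ?_, hnx⟩,
    ⟨rfl, ?_, ?_, ?_, hnear, hcoarse⟩⟩
  · intro z hz
    obtain ⟨x, hx, hx2⟩ := hQ.near z hz
    have hx3 : x ∈ Set.range h' := by
      rw [hpar.ran]
      exact hx
    obtain ⟨u, rfl⟩ := hx3
    refine ⟨u, ?_⟩
    rw [norm_sub_rev]
    have : 0 < (1 / 2 : ℝ) ^ (a.n + 1) := by positivity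
    linarith
  · show a.d < a.d + k
    omega
  · show 16 * ε ≤ a.e / 2
    linarith
  · show 8 * (16 * ε) ≤ a.s
    linarith

end Pool.Agent.LibDQ20
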