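import Pool.Agent.LibDQ20.G1
import Pool.Agent.LibDQ20.G2

/-!
[DQ20 G3] (SMALL) THE THEOREM at a good base point. Recursion: `a 0` from `exists_first`, `a (n+1)` from `exists_succ`; `(a n).n = n`; `f n u = (a n).Λ ((a n).h u)` (continuous; in `K` by `Par.ran`), `e n = (a n).e`, `d n = (a n).d`; `limit_cube` (`coarse` with `8 * e (n+1) ≤ (a n).s`).
-/

namespace Pool.Agent.LibDQ20

theorem cube_of_dirDense {E : Type*} [NormedAddCommGroup E] [Module ℝ E] [ContinuousSMul ℝ E]
    (hF : ∀ (t : ℝ) (x : E), |t| ≤ 1 → ‖t • x‖ ≤ ‖x‖) {K : Set E} (hK : IsCompact K) (hc : Convex ℝ K)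
    (h0 : (0 : E) ∈ K) (hinf : ¬ FiniteDimensional ℝ (vectorSpan ℝ K)) (hD : DirDense K) (hAp : Appr K) :
    Nonempty (K ≃ₜ (ℕ → unitInterval)) := by
  classical
  obtain ⟨a0, ha0⟩ := exists_first hF hK hc h0 hinf hD hAp
  choose nxt hnxt using fun a : SD K => exists_succ hF hK hc h0 hinf hD hAp a
  let a : ℕ → SD K := fun n => Nat.rec a0 (fun _ b => nxt b) n
  have ha : ∀ n, SDnext (a n) (a (n + 1)) := fun n => hnxt (a n)
  have hlev : ∀ n, (a n).n = n := by
    intro n
    induction n with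
    | zero => exact ha0
    | succ n ih => rw [(ha n).lev, ih]
  refine limit_cube hK (fun n u => (a n).Λ ((a n).h u)) ?_ ?_ (fun n => (a n).d) ?_ (fun n => (a n).e) ?_ ?_ ?_ ?_ ?_ ?_
  · intro n
    exact (LinearMap.continuous_of_finiteDimensional (a n).Λ).comp (a n).par.cont
  · intro n u
    have h : (a n).h u ∈ {x | (a n).Λ x ∈ K} := by
      rw [← (a n).par.ran]
      exact Set.mem_range_self u
    exact h
  · exact strictMono_nat_of_lt_succ fun n => (ha n).dim
  · exact fun n => (a n).epos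
  · exact fun n => (ha n).half
  · intro n
    have h := (a n).ele
    rw [hlev n] at h
    exact h
  · exact fun n u => (ha n).near u
  · intro n u v huv i hi
    have h := (ha n).coarse u v (huv.trans (ha n).fine) i hi
    rw [hlev n] at h
    exact h
  · intro n z hz
    obtain ⟨u, hu⟩ := (a n).dens z hz
    rw [hlev n] at hu
    exact ⟨u, hu⟩

end Pool.Agent.LibDQ20
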