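import Pool.Agent.LibDQ20.Defs

/-!
[DQ20 G4] (MEDIUM, only Mathlib) THE BASE POINT. `x : ℕ → E` dense in `K` (`K` compact, so separable), `y n = ∑_{i<n} 2^{-(i+1)} • x i + 2^{-n} • x 0 ∈ K`; a cluster point `c ∈ K` of `y n`. For `i < n`: `y n = 2^{-(i+1)} • x i + (1 - 2^{-(i+1)}) • z n` with `z n ∈ K` (the remaining weights are nonnegative with sum `1 - 2^{-(i+1)}`); along a subsequence `z n → z ∈ K`, `c = 2^{-(i+1)} • x i + (1 - 2^{-(i+1)}) • z`, so `c - s • (x i - c) = z ∈ K` for `s = 2^{-(i+1)} / (1 - 2^{-(i+1)})`.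
-/

namespace Pool.Agent.LibDQ20

private lemma G4_a (i : ℕ) : 0 < (1 / 2 : ℝ) ^ (i + 1) ∧ (1 / 2 : ℝ) ^ (i + 1) ≤ 1 / 2 := by
  constructor
  · positivity
  · calc (1 / 2 : ℝ) ^ (i + 1) ≤ (1 / 2 : ℝ) ^ 1 :=
        pow_le_pow_of_le_one (by norm_num) (by norm_num) (by omega)
      _ = 1 / 2 := by norm_num

private lemma G4_step {E : Type*} [AddCommGroup E] [Module ℝ E] {K : Set E} (hc : Convex ℝ K) :
    ∀ (n : ℕ) (x : ℕ → E), (∀ i, x i ∈ K) →
      ∃ y ∈ K, ∀ i < n, ∃ z ∈ K, y = ((1 / 2 : ℝ) ^ (i + 1)) • x i + (1 - (1 / 2 : ℝ) ^ (i + 1)) • z := by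
  intro n
  induction n with
  | zero =>
      intro x hx
      exact ⟨x 0, hx 0, fun i hi => absurd hi (Nat.not_lt_zero i)⟩
  | succ n ih =>
      intro x hx
      obtain ⟨y', hy', h⟩ := ih (fun i => x (i + 1)) (fun i => hx (i + 1))
      refine ⟨(1 / 2 : ℝ) • x 0 + (1 / 2 : ℝ) • y',
        hc (hx 0) hy' (by norm_num) (by norm_num) (by norm_num), ?_⟩
      intro i hi
      rcases i with _ | i
      · refine ⟨y', hy', ?_⟩
        norm_num
      · obtain ⟨z', hz', e⟩ := h i (by omega)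
        have ha := G4_a i
        have hp : (1 / 2 : ℝ) ^ (i + 1 + 1) = (1 / 2 : ℝ) ^ (i + 1) / 2 := by
          rw [pow_succ]; ring
        rw [hp]
        generalize hA : (1 / 2 : ℝ) ^ (i + 1) = a at *
        have hpos : 0 < 1 - a / 2 := by linarith [ha.2]
        refine ⟨((1 / 2) / (1 - a / 2)) • x 0 + (((1 - a) / 2) / (1 - a / 2)) • z',
          hc (hx 0) hz' (by positivity) (div_nonneg (by linarith [ha.2]) hpos.le) ?_, ?_⟩
        · rw [← add_div, div_eq_one_iff_eq hpos.ne']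
          ring
        · rw [e]
          simp only [smul_add, smul_smul]
          have e1 : (1 - a / 2) * ((1 / 2) / (1 - a / 2)) = 1 / 2 := mul_div_cancel₀ _ hpos.ne'
          have e2 : (1 - a / 2) * (((1 - a) / 2) / (1 - a / 2)) = 1 / 2 * (1 - a) := by
            rw [mul_div_cancel₀ _ hpos.ne']
            ring
          rw [e1, e2]
          have e3 : (1 / 2 : ℝ) * a = a / 2 := by ring
          rw [e3]
          abel

theorem exists_basepoint {E : Type*} [NormedAddCommGroup E] [Module ℝ E] [ContinuousSMul ℝ E] {K : Set E} (hK : IsCompact K)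
    (hc : Convex ℝ K) (hne : K.Nonempty) :
    ∃ c ∈ K, ∀ z ∈ K, ∀ τ : ℝ, 0 < τ → ∃ y ∈ K, ‖z - y‖ ≤ τ ∧ ∃ s : ℝ, 0 < s ∧ c - s • (y - c) ∈ K := by
  obtain ⟨t, htK, htc, htd⟩ := hK.isSeparable.exists_countable_dense_subset
  have htne : t.Nonempty := by
    obtain ⟨k, hk⟩ := hne
    by_contra h
    rw [Set.not_nonempty_iff_eq_empty] at h
    have := htd hk
    rw [h, closure_empty] at this
    exact this
  obtain ⟨x, rfl⟩ := htc.exists_eq_range htne
  have hx : ∀ i, x i ∈ K := fun i => htK ⟨i, rfl⟩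
  choose y hyK hy using fun n => G4_step hc n x hx
  obtain ⟨c, hcK, hcl⟩ := hK.exists_clusterPt (f := Filter.map y Filter.atTop)
    (by
      rw [Filter.le_principal_iff, Filter.mem_map]
      exact Filter.Eventually.of_forall hyK)
  refine ⟨c, hcK, ?_⟩
  intro z hz τ hτ
  obtain ⟨w, ⟨i, rfl⟩, hi⟩ := Metric.mem_closure_iff.1 (htd hz) τ hτ
  refine ⟨x i, hx i, by rw [← dist_eq_norm]; exact hi.le, ?_⟩
  have ha := G4_a i
  have hcomp : IsCompact ((fun z => ((1 / 2 : ℝ) ^ (i + 1)) • x i + (1 - (1 / 2 : ℝ) ^ (i + 1)) • z) '' K) :=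
    hK.image (continuous_const.add (continuous_const_smul _))
  have hcF : c ∈ ((fun z => ((1 / 2 : ℝ) ^ (i + 1)) • x i + (1 - (1 / 2 : ℝ) ^ (i + 1)) • z) '' K) := by
    have hcl2 : ClusterPt c (Filter.principal ((fun z => ((1 / 2 : ℝ) ^ (i + 1)) • x i +
        (1 - (1 / 2 : ℝ) ^ (i + 1)) • z) '' K)) := by
      refine hcl.mono ?_
      rw [Filter.le_principal_iff, Filter.mem_map]
      filter_upwards [Filter.eventually_gt_atTop i] with n hn
      obtain ⟨z', hz', e⟩ := hy n i hn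
      exact ⟨z', hz', e.symm⟩
    rw [← mem_closure_iff_clusterPt, hcomp.isClosed.closure_eq] at hcl2
    exact hcl2
  obtain ⟨z', hz', e⟩ := hcF
  generalize hA : (1 / 2 : ℝ) ^ (i + 1) = a at *
  have h1 : 0 < 1 - a := by linarith [ha.2]
  refine ⟨a / (1 - a), div_pos ha.1 h1, ?_⟩
  have hne : (1 - a) ≠ 0 := h1.ne'
  have : c - (a / (1 - a)) • (x i - c) = z' := by
    have e1 : c - (a / (1 - a)) • (x i - c) = (1 + a / (1 - a)) • c - (a / (1 - a)) • x i := by
      rw [smul_sub, add_smul, one_smul]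
      abel
    have e2 : (1 + a / (1 - a)) = (1 - a)⁻¹ := by
      field_simp
      ring
    have e3 : (1 - a)⁻¹ * a = a / (1 - a) := by
      field_simp
    rw [e1, e2, ← e]
    simp only [smul_add, smul_smul]
    rw [e3, inv_mul_cancel₀ hne, one_smul]
    abel
  rw [this]
  exact hz'

end Pool.Agent.LibDQ20
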