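import Pool.Agent.LibDQ20.Defs

/-!
# LibDQ20 W1: the convex hulls of a bounded number of points do not approximate an infinite-dimensional compact set (helper20)
-/

namespace Pool.Agent.LibDQ20

open Set Filter Topology
open scoped Pointwise

variable {E : Type*} [NormedAddCommGroup E] [Module ℝ E]

/-- for each `N` there is `ε` such that no convex hull of `N` points of `K` is `ε`-dense in `K` -/
theorem exists_gap [ContinuousSMul ℝ E] {K : Set E} (hK : IsCompact K) (hinf : ¬ FiniteDimensional ℝ (vectorSpan ℝ K)) (N : ℕ) :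
    ∃ ε : ℝ, 0 < ε ∧ ∀ q : Fin N → E, (∀ i, q i ∈ K) → ¬ ∀ z ∈ K, ∃ y ∈ convexHull ℝ (range q), ‖z - y‖ ≤ ε := by
  by_contra hcon
  have H : ∀ ε : ℝ, 0 < ε → ∃ q : Fin N → E, (∀ i, q i ∈ K) ∧ ∀ z ∈ K, ∃ y ∈ convexHull ℝ (range q), ‖z - y‖ ≤ ε := by
    intro ε hε
    by_contra h
    exact hcon ⟨ε, hε, fun q hq h' => h ⟨q, hq, h'⟩⟩
  choose q hqK hq using fun k : ℕ => H ((1 / 2) ^ k) (by positivity)
  have hcK : IsCompact (Set.pi univ fun _ : Fin N => K) := isCompact_univ_pi fun _ => hK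
  obtain ⟨p, -, φ, hφ, hlim⟩ := hcK.tendsto_subseq (x := q) (fun k i _ => hqK k i)
  apply hinf
  have hsub : K ⊆ convexHull ℝ (range p) := by
    intro z hz
    have h1 : ∀ k : ℕ, ∃ w ∈ stdSimplex ℝ (Fin N), ‖z - ∑ i, w i • q (φ k) i‖ ≤ (1 / 2) ^ (φ k) := by
      intro k
      obtain ⟨y, hy, hzy⟩ := hq (φ k) z hz
      rw [convexHull_range_eq_exists_affineCombination] at hy
      obtain ⟨s, w, hw0, hw1, hwy⟩ := hy
      rw [s.affineCombination_eq_linear_combination _ _ hw1] at hwy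
      refine ⟨fun i => if i ∈ s then w i else 0, ⟨fun i => ?_, ?_⟩, ?_⟩
      · by_cases hi : i ∈ s
        · simp only [hi, if_true]; exact hw0 i hi
        · simp only [hi, if_false]; exact le_rfl
      · rw [← hw1, Finset.sum_ite_mem, Finset.univ_inter]
      · have : ∑ i, (if i ∈ s then w i else 0) • q (φ k) i = y := by
          rw [← hwy]
          simp only [ite_smul, zero_smul]
          rw [Finset.sum_ite_mem, Finset.univ_inter]
        rw [this]
        exact hzy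
    choose w hw hwz using h1
    obtain ⟨w₀, hw₀, ψ, hψ, hlimw⟩ := (isCompact_stdSimplex ℝ (Fin N)).tendsto_subseq (x := w) hw
    have h2 : Tendsto (fun k => ∑ i, w (ψ k) i • q (φ (ψ k)) i) atTop (𝓝 (∑ i, w₀ i • p i)) := by
      refine tendsto_finsetSum _ fun i _ => ?_
      have h3 : Tendsto (fun k => w (ψ k) i) atTop (𝓝 (w₀ i)) := (tendsto_pi_nhds.1 hlimw) i
      have h4 : Tendsto (fun k => q (φ (ψ k)) i) atTop (𝓝 (p i)) :=
        ((tendsto_pi_nhds.1 hlim) i).comp hψ.tendsto_atTop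
      exact h3.smul h4
    have h5 : Tendsto (fun k => ∑ i, w (ψ k) i • q (φ (ψ k)) i) atTop (𝓝 z) := by
      rw [tendsto_iff_norm_sub_tendsto_zero]
      have h6 : Tendsto (fun k : ℕ => (1 / 2 : ℝ) ^ (φ (ψ k))) atTop (𝓝 0) :=
        (tendsto_pow_atTop_nhds_zero_of_lt_one (by norm_num) (by norm_num)).comp (hφ.tendsto_atTop.comp hψ.tendsto_atTop)
      refine squeeze_zero (fun k => norm_nonneg _) (fun k => ?_) h6
      rw [norm_sub_rev]
      exact hwz (ψ k)
    have h7 : ∑ i, w₀ i • p i = z := tendsto_nhds_unique h2 h5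
    rw [← h7]
    exact (convex_convexHull ℝ (range p)).sum_mem (fun i _ => hw₀.1 i) hw₀.2 fun i _ => subset_convexHull ℝ _ (mem_range_self i)
  have hle : vectorSpan ℝ K ≤ vectorSpan ℝ (range p) := by
    have h1 : affineSpan ℝ K ≤ affineSpan ℝ (range p) :=
      affineSpan_le.2 (hsub.trans (convexHull_subset_affineSpan (range p)))
    have h2 := AffineSubspace.direction_le h1
    rwa [direction_affineSpan, direction_affineSpan] at h2
  have hfd : FiniteDimensional ℝ (vectorSpan ℝ (range p)) := finiteDimensional_vectorSpan_of_finite ℝ (Set.finite_range p)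
  exact Submodule.finiteDimensional_of_le hle

/-- the requirement `N₀ ≤ n` in `Appr` is automatic -/
theorem appr_of_weak [ContinuousSMul ℝ E] {K : Set E} (hK : IsCompact K) (hinf : ¬ FiniteDimensional ℝ (vectorSpan ℝ K))
    (h : ∀ ε : ℝ, 0 < ε → ∃ (n : ℕ) (q : Fin n → E), (∀ i, q i ∈ K) ∧ ∃ δ : ℝ, 0 < δ ∧ δ ≤ ε ∧
      (∀ z ∈ K, ∃ y ∈ convexHull ℝ (range q), ‖z - y‖ ≤ δ) ∧
      ∀ (w : Fin n → ℝ) (v : Fin n → E), (∀ i, 0 ≤ w i) → ∑ i, w i = 1 → (∀ i, v i ∈ K - K) → (∀ i, ‖v i‖ ≤ 2 * δ) →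
        ‖∑ i, w i • v i‖ ≤ ε) : Appr K := by
  intro ε hε N₀
  have hKne : K.Nonempty := by
    by_contra h
    rw [Set.not_nonempty_iff_eq_empty] at h
    subst h
    exact hinf (by rw [vectorSpan_empty]; infer_instance)
  obtain ⟨x₀, hx₀⟩ := hKne
  obtain ⟨ε₁, hε₁, hgap⟩ := exists_gap hK hinf N₀
  obtain ⟨n, q, hqK, δ, hδ, hδε, hd, hl⟩ := h (min ε ε₁) (lt_min hε hε₁)
  refine ⟨n, ?_, q, hqK, δ, hδ, hδε.trans (min_le_left _ _), hd, fun w v h1 h2 h3 h4 => (hl w v h1 h2 h3 h4).trans (min_le_left _ _)⟩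
  by_contra hn
  push Not at hn
  refine hgap (fun i => if h : (i : ℕ) < n then q ⟨i, h⟩ else x₀) (fun i => ?_) fun z hz => ?_
  · by_cases h : (i : ℕ) < n
    · simp only [h, dif_pos]; exact hqK _
    · simp only [h, dif_neg, not_false_eq_true]; exact hx₀
  · obtain ⟨y, hy, hzy⟩ := hd z hz
    refine ⟨y, convexHull_mono ?_ hy, hzy.trans (hδε.trans (min_le_right _ _))⟩
    rintro _ ⟨i, rfl⟩
    refine ⟨⟨i, i.2.trans hn⟩, ?_⟩
    simp

end Pool.Agent.LibDQ20
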