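import Pool.Agent.LibDQ20.W1
import Pool.Agent.LibAR71.Z

/-!
# LibDQ20 W2: compact convex sets which are small along a sequence of scales are well approximable (helper20)
-/

namespace Pool.Agent.LibDQ20

open Set Filter Topology
open Pool.Agent.LibEN20 Pool.Agent.LibAR71
open scoped Pointwise

variable {E : Type*} [NormedAddCommGroup E] [Module ℝ E]

theorem sum_half_le {r : ℕ → ℝ} {N M : ℕ} (hN : 1 ≤ N) (hr : ∀ k, N ≤ k → k ≤ M → 0 ≤ r k) :
    ∑ k ∈ Finset.Icc (2 * N) M, 2 * r (k / 2) / k ≤ 2 * ∑ k ∈ Finset.Icc N M, r k / k := by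
  classical
  have h1 : ∀ k ∈ Finset.Icc (2 * N) M, k / 2 ∈ Finset.Icc N M := by
    intro k hk
    rw [Finset.mem_Icc] at hk ⊢
    omega
  rw [← Finset.sum_fiberwise_of_maps_to h1, Finset.mul_sum]
  refine Finset.sum_le_sum fun j hj => ?_
  rw [Finset.mem_Icc] at hj
  have hj0 : (0 : ℝ) < j := by
    have : 0 < j := by omega
    exact_mod_cast this
  have hrj : 0 ≤ r j := hr j hj.1 hj.2
  have h2 : ∀ k ∈ (Finset.Icc (2 * N) M).filter (fun k => k / 2 = j), 2 * r (k / 2) / k ≤ r j / j := by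
    intro k hk
    rw [Finset.mem_filter, Finset.mem_Icc] at hk
    have hk2 : 2 * j ≤ k := by omega
    have hk3 : (2 : ℝ) * j ≤ k := by exact_mod_cast hk2
    rw [hk.2]
    calc 2 * r j / k ≤ 2 * r j / (2 * j) := by
          apply div_le_div_of_nonneg_left (by positivity) (by positivity) hk3
      _ = r j / j := by rw [mul_div_mul_left _ _ (by norm_num : (2 : ℝ) ≠ 0)]
  have h3 : ((Finset.Icc (2 * N) M).filter (fun k => k / 2 = j)).card ≤ 2 := by
    have : (Finset.Icc (2 * N) M).filter (fun k => k / 2 = j) ⊆ {2 * j, 2 * j + 1} := by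
      intro k hk
      rw [Finset.mem_filter] at hk
      rw [Finset.mem_insert, Finset.mem_singleton]
      omega
    exact (Finset.card_le_card this).trans Finset.card_le_two
  calc ∑ k ∈ (Finset.Icc (2 * N) M).filter (fun k => k / 2 = j), 2 * r (k / 2) / k
      ≤ ((Finset.Icc (2 * N) M).filter (fun k => k / 2 = j)).card • (r j / j) := Finset.sum_le_card_nsmul _ _ _ h2
    _ ≤ 2 * (r j / j) := by
        rw [nsmul_eq_mul]
        have : (((Finset.Icc (2 * N) M).filter (fun k => k / 2 = j)).card : ℝ) ≤ 2 := by exact_mod_cast h3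
        exact mul_le_mul_of_nonneg_right this (div_nonneg hrj hj0.le)

theorem appr_of_crit [ContinuousSMul ℝ E] (hF : IsFNorm E) {K : Set E} (hK : IsCompact K) (hc : Convex ℝ K)
    (hinf : ¬ FiniteDimensional ℝ (vectorSpan ℝ K)) (h : ∀ ε > 0, Crit K ε) : Appr K := by
  classical
  refine appr_of_weak hK hinf fun ε hε => ?_
  have hne : K.Nonempty := by
    by_contra h
    rw [Set.not_nonempty_iff_eq_empty] at h
    subst h
    exact hinf (by rw [vectorSpan_empty]; infer_instance)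
  obtain ⟨N, m, r, hN, hm, hcov, hNr, hsum⟩ := h (ε / 400) (by positivity)
  obtain ⟨P, hPne, hPc, hPK, hP⟩ := exists_net hne hm
  have hN0 : (1 : ℝ) ≤ N := by exact_mod_cast hN
  have hrm : 0 < r m := by
    by_contra hcon
    push Not at hcon
    apply hinf
    have h1 : K ⊆ (P : Set E) := by
      intro x hx
      obtain ⟨y, hy, hxy⟩ := hP x hx
      have h2 : ‖x - y‖ = 0 := le_antisymm (by linarith) (norm_nonneg _)
      rw [norm_eq_zero, sub_eq_zero] at h2
      rw [h2]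
      exact hy
    exact finiteDimensional_vectorSpan_of_finite ℝ (P.finite_toSet.subset h1)
  have hrle : r m ≤ ε / 400 := by nlinarith
  obtain ⟨x₀, hx₀⟩ := hPne
  let q : Fin (2 ^ m) → E := fun i => if h : (i : ℕ) < P.card then ((P.equivFin.symm ⟨i, h⟩ : P) : E) else x₀
  have hqK : ∀ i, q i ∈ K := by
    intro i
    by_cases h : (i : ℕ) < P.card
    · simp only [q, h, dif_pos]
      exact hPK _ (P.equivFin.symm ⟨i, h⟩).2
    · simp only [q, h, dif_neg, not_false_eq_true]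
      exact hPK _ hx₀
  have hPq : ∀ y ∈ P, y ∈ range q := by
    intro y hy
    let i : Fin P.card := P.equivFin ⟨y, hy⟩
    refine ⟨⟨i, i.2.trans_le hPc⟩, ?_⟩
    have hi : ((⟨(i : ℕ), i.2.trans_le hPc⟩ : Fin (2 ^ m)) : ℕ) < P.card := i.2
    simp only [q, hi, dif_pos]
    have : (⟨(i : ℕ), hi⟩ : Fin P.card) = P.equivFin ⟨y, hy⟩ := rfl
    rw [this, Equiv.symm_apply_apply]
  refine ⟨2 ^ m, q, hqK, 2 * r m, by positivity, by linarith, fun z hz => ?_, fun w v hw0 hw1 hvK hv => ?_⟩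
  · obtain ⟨y, hy, hzy⟩ := hP z hz
    exact ⟨y, subset_convexHull ℝ _ (hPq y hy), hzy⟩
  · have hcov' : ∀ k, 2 * N ≤ k → k ≤ 2 ^ m → Cov (K - K) k (2 * r (k / 2)) := fun k h1 h2 =>
      cov_mono (cov_sub (hcov (k / 2) (by omega) (by omega))) (by omega) le_rfl
    have hr0 : ∀ k, N ≤ k → k ≤ 2 ^ m → 0 ≤ r k := fun k h1 h2 => radius_nonneg hne (hcov k h1 h2)
    have hsum' : ∑ k ∈ Finset.Icc (2 * N) (2 ^ m), 2 * r (k / 2) / k ≤ 2 * (ε / 400) :=
      (sum_half_le hN hr0).trans (by linarith)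
    have hp : IsProb w := ⟨hw0, hw1⟩
    have hKK : IsCompact (K - K) := by
      rw [← Set.sub_image_prod]
      exact (hK.prod hK).image continuous_sub
    obtain ⟨c', hc', hs', hd'⟩ := sparse_fin hF hKK (hc.sub hc) (hne.sub hne) (N := 2 * N) (m := m)
      (r := fun k => 2 * r (k / 2)) (by omega) hcov' hsum' (ι := Fin (2 ^ m)) (by simp) v hvK w hp
    have h1 := short_small hF hc' hs' (by positivity : (0 : ℝ) ≤ 2 * (2 * r m)) hv
    have h2 : ‖∑ i, w i • v i‖ ≤ ‖∑ i, w i • v i - ∑ i, c' i • v i‖ + ‖∑ i, c' i • v i‖ := by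
      calc ‖∑ i, w i • v i‖ = ‖(∑ i, w i • v i - ∑ i, c' i • v i) + ∑ i, c' i • v i‖ := by rw [sub_add_cancel]
        _ ≤ _ := norm_add_le _ _
    have h3 : ((16 * (2 * N) : ℕ) : ℝ) * (2 * (2 * r m)) = 128 * (N * r m) := by push_cast; ring
    rw [h3] at h1
    linarith

end Pool.Agent.LibDQ20
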