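import Pool.Agent.LibDQ20.W2

/-!
# LibDQ20 W3: summable entropy (helper20)
-/

namespace Pool.Agent.LibDQ20

open Set Filter Topology
open Pool.Agent.LibEN20 Pool.Agent.LibAR71

variable {E : Type*} [NormedAddCommGroup E]

theorem crit_of_summable {K : Set E} (hne : K.Nonempty) {r : ℕ → ℝ} (hr : Summable fun k : ℕ => r k / (k + 1))
    (hcov : ∀ k, Cov K k (r k)) {ε : ℝ} (hε : 0 < ε) : Crit K ε := by
  classical
  have hr0 : ∀ k, 0 ≤ r k := fun k => by
    obtain ⟨x, hx⟩ := hne
    obtain ⟨s, -, h⟩ := hcov k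
    obtain ⟨y, -, hy⟩ := h x hx
    exact (norm_nonneg _).trans hy
  obtain ⟨s, hs⟩ := (summable_iff_vanishing_norm.1 hr) (ε / 2) (half_pos hε)
  set N : ℕ := s.sup id + 1 with hN
  have hN1 : 1 ≤ N := by omega
  have hN0 : (1 : ℝ) ≤ N := by exact_mod_cast hN1
  have htail : ∀ M : ℕ, ∑ k ∈ Finset.Icc N M, r k / k ≤ ε := by
    intro M
    have h1 : Disjoint (Finset.Icc N M) s := by
      rw [Finset.disjoint_left]
      intro k hk hks
      rw [Finset.mem_Icc] at hk
      have h2 : k ≤ s.sup id := Finset.le_sup (f := id) hks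
      omega
    have h2 := hs _ h1
    rw [Real.norm_eq_abs] at h2
    have h3 := (le_abs_self _).trans h2.le
    have h4 : ∑ k ∈ Finset.Icc N M, r k / k ≤ ∑ k ∈ Finset.Icc N M, 2 * (r k / (k + 1)) := by
      refine Finset.sum_le_sum fun k hk => ?_
      rw [Finset.mem_Icc] at hk
      have h5 : (1 : ℝ) ≤ k := by
        have : 1 ≤ k := by omega
        exact_mod_cast this
      rw [mul_div_assoc', div_le_div_iff₀ (by linarith) (by linarith)]
      nlinarith [hr0 k]
    rw [← Finset.mul_sum] at h4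
    linarith
  obtain ⟨m, hm⟩ : ∃ m : ℕ, N * r m ≤ ε := by
    by_contra hcon
    push Not at hcon
    have h1 : ∀ k : ℕ, ε / N * (1 / ((k : ℝ) + 1)) ≤ r k / (k + 1) := by
      intro k
      have h2 : ε / N ≤ r k := by
        rw [div_le_iff₀ (by linarith)]
        linarith [hcon k]
      rw [mul_one_div]
      exact div_le_div_of_nonneg_right h2 (by positivity)
    have h2 : Summable fun k : ℕ => ε / N * (1 / ((k : ℝ) + 1)) :=
      Summable.of_nonneg_of_le (fun k => by positivity) h1 hr
    have h3 : Summable fun k : ℕ => 1 / ((k : ℝ) + 1) := by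
      have h4 : (ε / N : ℝ) ≠ 0 := by positivity
      exact (summable_mul_left_iff h4).1 h2
    have h4 : Summable fun k : ℕ => 1 / (((k + 1 : ℕ) : ℝ)) := by
      refine h3.congr fun k => ?_
      push_cast
      rfl
    exact Real.not_summable_one_div_natCast ((summable_nat_add_iff 1).1 h4)
  exact ⟨N, m, r, hN1, hcov m, fun k _ _ => hcov k, hm, htail _⟩

end Pool.Agent.LibDQ20
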