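import Pool.Agent.LibDQ20.G3
import Pool.Agent.LibDQ20.G4

/-!
[DQ20 Z1] (SMALL) THE THEOREM. `c` from G4, `K₁ = {v | c + v ∈ K}`: compact, convex, `0 ∈ K₁`, `K₁ - K₁ = K - K`, `vectorSpan` the same, `DirDense K₁`, `Appr K₁` (translate the points `q i`; `convexHull` of the translated points), and `v ↦ c + v` is a homeomorphism of `K₁` onto `K`. `K` is nonempty because `vectorSpan ℝ ∅ = ⊥`.
-/

namespace Pool.Agent.LibDQ20

open scoped Pointwise in
private theorem Z1_sub {E : Type*} [AddCommGroup E] (K : Set E) (c : E) :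
    ((fun v => c + v) ⁻¹' K) - ((fun v => c + v) ⁻¹' K) = K - K := by
  ext x
  constructor
  · rintro ⟨a, ha, b, hb, rfl⟩
    exact ⟨c + a, ha, c + b, hb, by simp⟩
  · rintro ⟨a, ha, b, hb, rfl⟩
    refine ⟨a - c, ?_, b - c, ?_, by simp⟩
    · simpa using ha
    · simpa using hb

private theorem Z1_span {E : Type*} [AddCommGroup E] [Module ℝ E] (K : Set E) (c : E) :
    vectorSpan ℝ ((fun v => c + v) ⁻¹' K) = vectorSpan ℝ K := by
  have h := Z1_sub K c
  exact congrArg (Submodule.span ℝ) h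

private theorem Z1_appr {E : Type*} [NormedAddCommGroup E] [Module ℝ E] (K : Set E) (c : E) (h : Appr K) :
    Appr ((fun v => c + v) ⁻¹' K) := by
  intro ε hε N₀
  obtain ⟨n, hn, q, hq, δ, hδ, hδε, hnear, hlc⟩ := h ε hε N₀
  refine ⟨n, hn, fun i => q i - c, ?_, δ, hδ, hδε, ?_, ?_⟩
  · intro i
    have h1 : c + (q i - c) = q i := by abel
    show c + (q i - c) ∈ K
    rw [h1]
    exact hq i
  · intro z hz
    obtain ⟨y, hy, hzy⟩ := hnear (c + z) hz
    refine ⟨y - c, ?_, ?_⟩
    · have hsub : Set.range q ⊆ (fun x => x + (-c)) ⁻¹' (convexHull ℝ (Set.range fun i => q i - c)) := by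
        rintro x ⟨i, rfl⟩
        show q i + (-c) ∈ convexHull ℝ (Set.range fun i => q i - c)
        rw [← sub_eq_add_neg]
        exact subset_convexHull ℝ _ ⟨i, rfl⟩
      have hcv : Convex ℝ ((fun x => x + (-c)) ⁻¹' (convexHull ℝ (Set.range fun i => q i - c))) :=
        (convex_convexHull ℝ _).translate_preimage_left (-c)
      have h2 := convexHull_min hsub hcv hy
      have h3 : y + (-c) ∈ convexHull ℝ (Set.range fun i => q i - c) := h2
      rwa [← sub_eq_add_neg] at h3
    · have h4 : z - (y - c) = c + z - y := by abel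
      rw [h4]
      exact hzy
  · intro w v hw hw1 hv hvn
    refine hlc w v hw hw1 (fun i => ?_) hvn
    rw [← Z1_sub K c]
    exact hv i

theorem cube_of_appr {E : Type*} [NormedAddCommGroup E] [Module ℝ E] [ContinuousSMul ℝ E]
    (hF : ∀ (t : ℝ) (x : E), |t| ≤ 1 → ‖t • x‖ ≤ ‖x‖) {K : Set E} (hK : IsCompact K) (hc : Convex ℝ K)
    (hinf : ¬ FiniteDimensional ℝ (vectorSpan ℝ K)) (hAp : Appr K) : Nonempty (K ≃ₜ (ℕ → unitInterval)) := by
  have hne : K.Nonempty := by
    rw [Set.nonempty_iff_ne_empty]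
    intro h0
    apply hinf
    rw [h0, vectorSpan_empty]
    exact finiteDimensional_bot ℝ E
  obtain ⟨c, hcK, hd⟩ := exists_basepoint hK hc hne
  have hK1 : IsCompact ((fun v => c + v) ⁻¹' K) := (Homeomorph.addLeft c).isCompact_preimage.2 hK
  have hc1 : Convex ℝ ((fun v => c + v) ⁻¹' K) := hc.translate_preimage_right c
  have h01 : (0 : E) ∈ ((fun v => c + v) ⁻¹' K) := by
    show c + 0 ∈ K
    rw [add_zero]
    exact hcK
  have hinf1 : ¬ FiniteDimensional ℝ (vectorSpan ℝ ((fun v => c + v) ⁻¹' K)) := by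
    rw [Z1_span K c]
    exact hinf
  have hD : DirDense ((fun v => c + v) ⁻¹' K) := by
    intro z hz τ hτ
    obtain ⟨y, hy, hzy, s, hs, hsy⟩ := hd (c + z) hz τ hτ
    refine ⟨y - c, ?_, ?_, s, hs, ?_⟩
    · show c + (y - c) ∈ K
      have h1 : c + (y - c) = y := by abel
      rw [h1]
      exact hy
    · have h2 : z - (y - c) = c + z - y := by abel
      rw [h2]
      exact hzy
    · show c + s • (-(y - c)) ∈ K
      rw [smul_neg, ← sub_eq_add_neg]
      exact hsy
  obtain ⟨e⟩ := cube_of_dirDense hF hK1 hc1 h01 hinf1 hD (Z1_appr K c hAp)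
  exact ⟨((Homeomorph.addLeft c).subtype (p := fun x => x ∈ ((fun v => c + v) ⁻¹' K)) (q := fun y => y ∈ K)
    (fun x => Iff.rfl)).symm.trans e⟩

end Pool.Agent.LibDQ20
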